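import Pool.Agent.H694_ABV.Noeth

/-!
# The product of a correspondence with the affine line
-/

open CategoryTheory AlgebraicGeometry Limits

universe u

namespace Pool.Agent.H694_ABV

variable {k : Type u} [Field k] {R : Type u} [CommRing R]

/-- `X × 𝔸¹`. -/
noncomputable def A1 (X : KSch k) : KSch k :=
  Over.mk ((AffineSpace PUnit.{u + 1} X.left ↘ X.left) ≫ X.hom)

lemma Sm.timesA1_sch (U : Sm k) : U.timesA1.sch = A1 U.sch := rfl

/-- The projection. -/
noncomputable def A1.proj (X : KSch k) : A1 X ⟶ X :=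
  Over.homMk (AffineSpace PUnit.{u + 1} X.left ↘ X.left) rfl

/-- Functoriality of `X × 𝔸¹`. -/
noncomputable def A1.map {X Y : KSch k} (f : X ⟶ Y) : A1 X ⟶ A1 Y :=
  Over.homMk (AffineSpace.map PUnit.{u + 1} f.left) (by
    dsimp [A1]
    rw [← Category.assoc, AffineSpace.map_over, Category.assoc, Over.w f])

/-- Morphisms to `X × 𝔸¹`. -/
noncomputable def A1.lift {T X : KSch k} (x : T ⟶ X) (t : Γ(T.left, ⊤)) : T ⟶ A1 X :=
  Over.homMk (AffineSpace.homOfVector x.left (fun _ : PUnit.{u + 1} => t)) (by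
    dsimp [A1]
    rw [← Category.assoc, AffineSpace.homOfVector_over]
    exact Over.w x)

lemma A1.lift_proj {T X : KSch k} (x : T ⟶ X) (t : Γ(T.left, ⊤)) : A1.lift x t ≫ A1.proj X = x := by
  ext1
  exact AffineSpace.homOfVector_over _ _

lemma A1.exists_lift {T X : KSch k} (v : T ⟶ A1 X) :
    ∃ (x : T ⟶ X) (t : Γ(T.left, ⊤)), v = A1.lift x t := by
  refine ⟨v ≫ A1.proj X, v.left.appTop (AffineSpace.coord X.left PUnit.unit), ?_⟩
  ext1
  refine AffineSpace.hom_ext ?_ fun i => ?_
  · exact (AffineSpace.homOfVector_over _ _).symm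
  · exact (AffineSpace.homOfVector_appTop_coord (S := X.left) (v ≫ A1.proj X).left
      (fun _ : PUnit.{u + 1} => v.left.appTop (AffineSpace.coord X.left PUnit.unit)) i).symm

lemma A1.lift_injective {T X : KSch k} {x x' : T ⟶ X} {t t' : Γ(T.left, ⊤)}
    (h : A1.lift x t = A1.lift x' t') : x = x' ∧ t = t' := by
  constructor
  · rw [← A1.lift_proj x t, h, A1.lift_proj]
  · have h1 : AffineSpace.homOfVector x.left (fun _ : PUnit.{u + 1} => t) =
        AffineSpace.homOfVector x'.left (fun _ : PUnit.{u + 1} => t') :=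
      congrArg (fun g => g.left) h
    have h2 := AffineSpace.homOfVector_appTop_coord x.left (fun _ : PUnit.{u + 1} => t) PUnit.unit
    rw [h1, AffineSpace.homOfVector_appTop_coord] at h2
    exact h2.symm

lemma A1.lift_map {T X Y : KSch k} (x : T ⟶ X) (t : Γ(T.left, ⊤)) (f : X ⟶ Y) :
    A1.lift x t ≫ A1.map f = A1.lift (x ≫ f) t := by
  ext1
  refine AffineSpace.hom_ext ?_ fun i => ?_
  · show (AffineSpace.homOfVector x.left _ ≫ AffineSpace.map PUnit.{u + 1} f.left) ≫ _ = _
    rw [Category.assoc, AffineSpace.map_over, ← Category.assoc, AffineSpace.homOfVector_over]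
    exact (AffineSpace.homOfVector_over _ _).symm
  · show (AffineSpace.homOfVector x.left _ ≫ AffineSpace.map PUnit.{u + 1} f.left).appTop _ =
      (AffineSpace.homOfVector (x ≫ f).left _).appTop _
    rw [AffineSpace.homOfVector_appTop_coord, Scheme.Hom.comp_appTop, CommRingCat.comp_apply,
      AffineSpace.map_appTop_coord, AffineSpace.homOfVector_appTop_coord]

lemma A1.comp_const {T : KSch k} {U : Sm k} (x : T ⟶ U.sch) (n : ℤ) :
    x ≫ U.const n = A1.lift x (n : Γ(T.left, ⊤)) := by
  ext1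
  show x.left ≫ constSection U.sch.left n = _
  rw [constSection, AffineSpace.comp_homOfVector, Category.comp_id]
  show AffineSpace.homOfVector x.left _ = AffineSpace.homOfVector x.left _
  congr 1
  funext _
  show x.left.appTop (n : Γ(U.sch.left, ⊤)) = _
  rw [map_intCast]

lemma A1.isFinite_map {X Y : KSch k} (f : X ⟶ Y) (hf : IsFinite f.left) :
    IsFinite (A1.map f).left :=
  MorphismProperty.of_isPullback (P := @IsFinite)
    (AffineSpace.isPullback_map (n := PUnit.{u + 1}) f.left).flip hf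

lemma A1.exists_map {X Y : KSch k} (f : X ⟶ Y) (y : (A1 Y).left) (x : X.left)
    (h : f.left x = (A1.proj Y).left y) : ∃ z : (A1 X).left, (A1.map f).left z = y := by
  have hp := AffineSpace.isPullback_map (n := PUnit.{u + 1}) f.left
  obtain ⟨z, hz, -⟩ := Scheme.Pullback.exists_preimage_pullback (f := (A1.proj Y).left)
    (g := f.left) y x h.symm
  refine ⟨hp.isoPullback.inv z, ?_⟩
  have h1 : hp.isoPullback.inv ≫ AffineSpace.map PUnit.{u + 1} f.left =
    pullback.fst (AffineSpace PUnit.{u + 1} Y.left ↘ Y.left) f.left :=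
    hp.isoPullback_inv_fst
  rw [← hz]
  exact congrArg (fun g => g z) h1

/-- The product of a correspondence with the affine line. -/
theorem Cor.exists_timesA1 {X Y : KSch k} (δ : Cor R X Y) :
    ∃ ε : Cor R (A1 X) (A1 Y), ∀ (E : AlgClosedExt k) (x : Pts E X) (t : Γ(E.pt.left, ⊤)),
      ε.val E (A1.lift x t) = (δ.val E x).mapDomain (fun y => A1.lift y t) := by
  obtain ⟨I, V, q, b, hq, hs, hδ⟩ := δ.exists_family
  have key : ∀ (E : AlgClosedExt k) (i : I) (v : Pts E (V i)) (t : Γ(E.pt.left, ⊤)),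
      ((b i).mapDomain A1.map).mapDomain (A1.lift v t ≫ ·) =
        (δ.val E (v ≫ q i)).mapDomain (fun y => A1.lift y t) := by
    intro E i v t
    rw [hδ, ← Finsupp.mapDomain_comp, ← Finsupp.mapDomain_comp]
    congr 1
    funext h
    exact A1.lift_map v t h
  obtain ⟨ε, hε⟩ := exists_cor (R := R) (X := A1 X) (Y := A1 Y) (fun i => A1 (V i))
    (fun i => A1.map (q i)) (fun i => A1.isFinite_map (q i) (hq i)) (fun x => by
      obtain ⟨i, v, hv⟩ := hs ((A1.proj X).left x)
      obtain ⟨z, hz⟩ := A1.exists_map (q i) x v hv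
      exact ⟨i, z, hz⟩) (fun i => (b i).mapDomain A1.map) (by
      intro E i i' v v' hv
      obtain ⟨v, t, rfl⟩ := A1.exists_lift v
      obtain ⟨v', t', rfl⟩ := A1.exists_lift v'
      rw [A1.lift_map, A1.lift_map] at hv
      obtain ⟨h1, rfl⟩ := A1.lift_injective hv
      rw [key, key, h1])
  refine ⟨ε, fun E x t => ?_⟩
  obtain ⟨i, v₀, hv₀⟩ := hs (x.left E.pnt)
  have := hq i
  obtain ⟨v, rfl⟩ := exists_lift_pt (q i) E x ⟨v₀, hv₀⟩
  rw [← A1.lift_map, hε, key]

/-- Compatibility of the product with the affine line with the sections. -/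
theorem Cor.exists_timesA1' {U V : Sm k} (δ : Cor R U.sch V.sch) :
    ∃ ε : Cor R U.timesA1.sch V.timesA1.sch, ∀ n : ℤ,
      (Cor.graph (U.const n)).comp ε = δ.comp (Cor.graph (V.const n)) := by
  obtain ⟨ε, hε⟩ := δ.exists_timesA1
  refine ⟨ε, fun n => Cor.ext fun E x => ?_⟩
  refine (Cor.graph_comp_val (U.const n) (show Cor R U.timesA1.sch V.timesA1.sch from ε) E
    x).trans ?_
  rw [Cor.comp_graph_val]
  refine (congrArg (ε.val E) (A1.comp_const x n)).trans ((hε E x _).trans ?_)
  congr 1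
  funext y
  exact (A1.comp_const y n).symm

end Pool.Agent.H694_ABV
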