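import Pool.Agent.H694_ABV.Lift

/-!
# Affine `k`-schemes
-/

open CategoryTheory AlgebraicGeometry Limits

universe u

namespace Pool.Agent.H694_ABV

variable {k : Type u} [Field k] {R : Type u} [CommRing R]

/-- The spectrum of a `k`-algebra. -/
noncomputable def Aff (k : Type u) [Field k] (A : Type u) [CommRing A] [Algebra k A] : KSch k :=
  Over.mk (Spec.map (CommRingCat.ofHom (algebraMap k A)))

section

variable {A B C : Type u} [CommRing A] [CommRing B] [CommRing C] [Algebra k A] [Algebra k B]
  [Algebra k C]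

/-- The morphism of spectra given by a homomorphism of `k`-algebras. -/
noncomputable def Aff.map (f : A →ₐ[k] B) : Aff k B ⟶ Aff k A :=
  Over.homMk (Spec.map (CommRingCat.ofHom f.toRingHom)) (by
    dsimp [Aff]
    rw [← Spec.map_comp, ← CommRingCat.ofHom_comp]
    congr 2
    exact f.comp_algebraMap)

lemma Aff.map_left (f : A →ₐ[k] B) :
    (Aff.map f).left = Spec.map (CommRingCat.ofHom f.toRingHom) := rfl

lemma Aff.map_id : Aff.map (AlgHom.id k A) = 𝟙 _ := by
  ext1
  exact Spec.map_id _

lemma Aff.map_comp (f : A →ₐ[k] B) (g : B →ₐ[k] C) :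
    Aff.map (g.comp f) = Aff.map g ≫ Aff.map f := by
  ext1
  exact Spec.map_comp (CommRingCat.ofHom f.toRingHom) (CommRingCat.ofHom g.toRingHom)

/-- Morphisms between spectra are homomorphisms of algebras. -/
lemma Aff.exists_map (g : Aff k B ⟶ Aff k A) : ∃ f : A →ₐ[k] B, Aff.map f = g := by
  obtain ⟨φ, hφ⟩ : ∃ φ, Spec.map φ = g.left := ⟨_, Spec.map_preimage g.left⟩
  have h : CommRingCat.ofHom (algebraMap k A) ≫ φ = CommRingCat.ofHom (algebraMap k B) := by
    apply Spec.map_injective
    rw [Spec.map_comp, hφ]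
    exact Over.w g
  refine ⟨⟨φ.hom, fun c => ?_⟩, ?_⟩
  · exact congrArg (fun t => t.hom c) h
  · ext1
    rw [Aff.map_left, ← hφ]
    rfl

lemma Aff.map_injective : Function.Injective (Aff.map : (A →ₐ[k] B) → _) := by
  intro f g h
  have h1 : Spec.map (CommRingCat.ofHom f.toRingHom) = Spec.map (CommRingCat.ofHom g.toRingHom) :=
    congrArg (fun t => t.left) h
  have h2 := Spec.map_injective h1
  ext x
  exact congrArg (fun t => t.hom x) h2

lemma AlgClosedExt.pt_eq (E : AlgClosedExt k) : E.pt = Aff k E.Ω := rfl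

/-- Geometric points of a spectrum are homomorphisms of algebras. -/
lemma Aff.exists_pt (E : AlgClosedExt k) (x : Pts E (Aff k A)) :
    ∃ f : A →ₐ[k] E.Ω, (show Pts E (Aff k A) from Aff.map f) = x := Aff.exists_map x

lemma Aff.isFinite_map (f : A →ₐ[k] B) (hf : f.toRingHom.Finite) : IsFinite (Aff.map f).left := by
  exact (IsFinite.SpecMap_iff (CommRingCat.ofHom f.toRingHom)).2 hf

end

end Pool.Agent.H694_ABV
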