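import Pool.Agent.H694_ABV.Transfer

/-!
# Smooth affine schemes, and homotopies
-/

open CategoryTheory AlgebraicGeometry Limits

universe u

namespace Pool.Agent.H694_ABV

variable {k : Type u} [Field k] {R : Type u} [CommRing R]

/-- The spectrum of a smooth algebra. -/
noncomputable def Sm.aff (k : Type u) [Field k] (A : Type u) [CommRing A] [Algebra k A]
    [Algebra.Smooth k A] : Sm k where
  sch := Aff k A
  smooth := (HasRingHomProperty.Spec_iff (P := @Smooth)).2
    (RingHom.smooth_algebraMap.2 inferInstance)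
  separated := inferInstanceAs (IsSeparated (Spec.map (CommRingCat.ofHom (algebraMap k A))))
  quasiCompact := inferInstanceAs (QuasiCompact (Spec.map (CommRingCat.ofHom (algebraMap k A))))

lemma constSection_Spec (A : CommRingCat.{u}) (n : ℤ) :
    constSection (Spec A) n ≫ (AffineSpace.SpecIso PUnit.{u + 1} A).hom =
      Spec.map (CommRingCat.ofHom (MvPolynomial.eval fun _ => (n : A))) := by
  rw [← Iso.eq_comp_inv]
  refine AffineSpace.hom_ext ?_ fun i => ?_
  · rw [constSection_over, Category.assoc, AffineSpace.SpecIso_inv_over, ← Spec.map_comp,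
      ← CommRingCat.ofHom_comp]
    have : (MvPolynomial.eval fun _ : PUnit => (n : A)).comp MvPolynomial.C = RingHom.id A := by
      ext x
      simp
    rw [this]
    exact (Spec.map_id _).symm
  · rw [constSection, AffineSpace.homOfVector_appTop_coord, Scheme.Hom.comp_appTop,
      CommRingCat.comp_apply, AffineSpace.SpecIso_inv_appTop_coord]
    have h1 := congrArg (fun t => t.hom (MvPolynomial.X i)) (Scheme.ΓSpecIso_inv_naturality
      (CommRingCat.ofHom (MvPolynomial.eval fun _ : PUnit => (n : A))))
    simp only [CommRingCat.hom_comp, RingHom.comp_apply] at h1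
    refine Eq.trans ?_ h1
    simp

section

variable {A P : Type u} [CommRing A] [CommRing P] [Algebra k A] [Algebra k P] [Algebra.Smooth k A]

/-- Homotopic homomorphisms to a smooth algebra. -/
lemma Sm.aff_homotopy (H : P →ₐ[k] MvPolynomial PUnit.{u + 1} A) :
    ∃ h : (Sm.aff k A).timesA1.sch ⟶ Aff k P, ∀ n : ℤ, (Sm.aff k A).const n ≫ h =
      Aff.map (((MvPolynomial.aeval fun _ => (n : A)).restrictScalars k).comp H :
        P →ₐ[k] A) := by
  have hover : (AffineSpace PUnit.{u + 1} (Spec (CommRingCat.of A)) ↘ Spec (CommRingCat.of A)) =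
      (AffineSpace.SpecIso PUnit.{u + 1} (CommRingCat.of A)).hom ≫
        Spec.map (CommRingCat.ofHom MvPolynomial.C) := by
    rw [← AffineSpace.SpecIso_inv_over, Iso.hom_inv_id_assoc]
  have hw : ((AffineSpace.SpecIso PUnit.{u + 1} (CommRingCat.of A)).hom ≫
      Spec.map (CommRingCat.ofHom H.toRingHom)) ≫ Spec.map (CommRingCat.ofHom (algebraMap k P)) =
      (AffineSpace PUnit.{u + 1} (Spec (CommRingCat.of A)) ↘ Spec (CommRingCat.of A)) ≫
        Spec.map (CommRingCat.ofHom (algebraMap k A)) := by
    rw [hover, Category.assoc, Category.assoc, ← Spec.map_comp, ← Spec.map_comp,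
      ← CommRingCat.ofHom_comp, ← CommRingCat.ofHom_comp]
    congr 3
    exact RingHom.ext fun c => H.commutes c
  refine ⟨Over.homMk ((AffineSpace.SpecIso PUnit.{u + 1} (CommRingCat.of A)).hom ≫
    Spec.map (CommRingCat.ofHom H.toRingHom)) hw, fun n => ?_⟩
  ext1
  have h1 : constSection (Spec (CommRingCat.of A)) n ≫
      (AffineSpace.SpecIso PUnit.{u + 1} (CommRingCat.of A)).hom ≫
        Spec.map (CommRingCat.ofHom H.toRingHom) = Spec.map (CommRingCat.ofHom
          (((MvPolynomial.aeval fun _ => (n : A)).restrictScalars k).comp H :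
            P →ₐ[k] A).toRingHom) := by
    rw [← Category.assoc, constSection_Spec, ← Spec.map_comp, ← CommRingCat.ofHom_comp]
    rfl
  exact h1

end

lemma ClosedSub.homotopy {X U : Sm k} (K : ClosedSub R X) {Y : KSch k} (h : U.timesA1.sch ⟶ Y)
    (τ : Cor R Y X.sch) : (Cor.graph (U.const 0 ≫ h)).comp τ - (Cor.graph (U.const 1 ≫ h)).comp τ ∈
      K.carrier U := by
  have key := K.homotopy_mem U ((Cor.graph h).comp τ)
  rwa [← Cor.comp_assoc, ← Cor.comp_assoc, Cor.graph_comp_graph, Cor.graph_comp_graph] at key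

/-- Homotopic homomorphisms to a smooth algebra have the same composition with a correspondence,
modulo a closed subfunctor. -/
lemma ClosedSub.aff_homotopy {A P : Type u} [CommRing A] [CommRing P] [Algebra k A] [Algebra k P]
    [Algebra.Smooth k A] {X : Sm k} (K : ClosedSub R X) (H : P →ₐ[k] MvPolynomial PUnit.{u + 1} A)
    (f g : P →ₐ[k] A)
    (hf : ∀ p, MvPolynomial.aeval (fun _ => (0 : A)) (H p) = f p)
    (hg : ∀ p, MvPolynomial.aeval (fun _ => (1 : A)) (H p) = g p)
    (τ : Cor R (Aff k P) X.sch) :
    (Cor.graph (Aff.map f)).comp τ - (Cor.graph (Aff.map g)).comp τ ∈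
      K.carrier (Sm.aff k A) := by
  obtain ⟨h, hh⟩ := Sm.aff_homotopy H
  have e0 : (Sm.aff k A).const 0 ≫ h = Aff.map f := by
    rw [hh]
    congr 1
    refine AlgHom.ext fun p => ?_
    rw [← hf]
    simp
  have e1 : (Sm.aff k A).const 1 ≫ h = Aff.map g := by
    rw [hh]
    congr 1
    refine AlgHom.ext fun p => ?_
    rw [← hg]
    simp
  have key := K.homotopy h τ
  rwa [e0, e1] at key

end Pool.Agent.H694_ABV
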