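import Pool.Agent.H694_ABV.Pbk

/-!
# Decompositions into open and closed subschemes
-/

open CategoryTheory AlgebraicGeometry Limits

universe u

namespace Pool.Agent.H694_ABV

variable {k : Type u} [Field k] {R : Type u} [CommRing R]

/-- The submodule of the correspondences from `Z` to `S` which are sums of correspondences that
factor through the members of a family of morphisms to `S`. -/
noncomputable def throughK {S : KSch k} {I : Type u} {T : I → KSch k} (l : ∀ i, T i ⟶ S)
    (Z : KSch k) : Submodule R (Cor R Z S) :=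
  ⨆ i, LinearMap.range (Cor.compRight (R := R) (X := Z) (Cor.graph (l i)))

lemma through_eq {U : Sm k} {I : Type u} {V : I → Sm k} (f : ∀ i, (V i).sch ⟶ U.sch) (T : Sm k) :
    through (R := R) f T = throughK f T.sch := rfl

section

variable {S : KSch k} {I : Type u} {T : I → KSch k} {l : ∀ i, T i ⟶ S} {Z Z' : KSch k}

lemma comp_graph_mem_throughK (i : I) (δ : Cor R Z (T i)) :
    δ.comp (Cor.graph (l i)) ∈ throughK l Z :=
  Submodule.mem_iSup_of_mem i ⟨δ, rfl⟩

lemma throughK_le {N : Submodule R (Cor R Z S)}
    (h : ∀ i (δ : Cor R Z (T i)), δ.comp (Cor.graph (l i)) ∈ N) : throughK l Z ≤ N := by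
  refine iSup_le fun i => ?_
  rintro _ ⟨δ, rfl⟩
  exact h i δ

lemma comp_mem_throughK (δ : Cor R Z' Z) {φ : Cor R Z S} (h : φ ∈ throughK l Z) :
    δ.comp φ ∈ throughK l Z' := by
  have h1 : throughK l Z ≤ (throughK l Z').comap (Cor.compLeft δ) := by
    refine throughK_le fun i ε => ?_
    rw [Submodule.mem_comap, Cor.compLeft_apply, ← Cor.comp_assoc]
    exact comp_graph_mem_throughK i _
  exact h1 h

end

lemma mem_throughK_of_id_mem {S Y : KSch k} {I J : Type u} {T : I → KSch k} {l : ∀ i, T i ⟶ S}
    {Z : J → KSch k} {f : ∀ j, Z j ⟶ Y} (h : Cor.graph (R := R) (𝟙 S) ∈ throughK l S)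
    (α : Cor R S Y) (hα : ∀ i, (Cor.graph (l i)).comp α ∈ throughK f (T i)) :
    α ∈ throughK f S := by
  have h1 : throughK l S ≤ (throughK f S).comap (Cor.compRight α) := by
    refine throughK_le fun i ε => ?_
    rw [Submodule.mem_comap, Cor.compRight_apply, Cor.comp_assoc]
    exact comp_mem_throughK ε (hα i)
  have h2 := h1 h
  rwa [Submodule.mem_comap, Cor.compRight_apply, Cor.id_comp] at h2

lemma isFinite_of_clopen {T S : KSch k} (l : T ⟶ S) [IsOpenImmersion l.left]
    (h : IsClosed (Set.range l.left)) : IsFinite l.left := by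
  have : IsClosedImmersion l.left := .of_isPreimmersion _ h
  infer_instance

/-- The identity of a finite disjoint union is the sum of the identities of the pieces. -/
theorem id_mem_throughK {S : KSch k} {I : Type u} [Finite I] {T : I → KSch k} (l : ∀ i, T i ⟶ S)
    (hl : ∀ i, IsOpenImmersion (l i).left)
    (hd : ∀ i j x y, (l i).left x = (l j).left y → i = j)
    (hs : ∀ s : S.left, ∃ (i : I) (t : (T i).left), (l i).left t = s) :
    Cor.graph (R := R) (𝟙 S) ∈ throughK l S := by
  classical
  have hmono : ∀ i, Mono (l i) := fun i =>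
    (Over.forget _).mono_of_mono_map (show Mono (l i).left from inferInstance)
  have hclosed : ∀ i, IsClosed (Set.range (l i).left) := by
    intro i
    have h1 : (Set.range (l i).left)ᶜ = ⋃ j : {j // j ≠ i}, Set.range (l j.1).left := by
      ext s
      simp only [Set.mem_compl_iff, Set.mem_iUnion]
      constructor
      · intro h
        obtain ⟨j, t, ht⟩ := hs s
        refine ⟨⟨j, ?_⟩, t, ht⟩
        rintro rfl
        exact h ⟨t, ht⟩
      · rintro ⟨⟨j, hj⟩, t, ht⟩ ⟨t', ht'⟩
        exact hj (hd j i t t' (ht.trans ht'.symm))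
    rw [← isOpen_compl_iff, h1]
    exact isOpen_iUnion fun j => (l j.1).left.isOpenEmbedding.isOpen_range
  have hfin : ∀ i, IsFinite (l i).left := fun i => isFinite_of_clopen (l i) (hclosed i)
  have hpt : ∀ (E : AlgClosedExt k) (i j : I) (v : Pts E (T i)) (w : Pts E (T j)),
      v ≫ l i = w ≫ l j → i = j := by
    intro E i j v w h
    refine hd i j (v.left E.pnt) (w.left E.pnt) ?_
    exact congrArg (fun g => g.left E.pnt) h
  have key : ∀ i, ∃ τ : Cor R S (T i), ∀ (E : AlgClosedExt k) (j : I) (v : Pts E (T j)),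
      (τ.comp (Cor.graph (l i))).val E (v ≫ l j) =
        if i = j then Finsupp.single (v ≫ l j) 1 else 0 := by
    intro i
    obtain ⟨τ, hτ⟩ := exists_cor (R := R) (X := S) (Y := T i) T l hfin hs
      (fun j => if h : i = j then Finsupp.single (eqToHom (by rw [h])) 1 else 0) (by
        rintro E j j' v v' hv
        obtain rfl := hpt E j j' v v' hv
        rw [(cancel_mono (l j)).1 hv])
    refine ⟨τ, fun E j v => ?_⟩
    rw [Cor.comp_graph_val, hτ]
    by_cases h : i = j
    · subst h
      simp
    · simp [h]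
  choose τ hτ using key
  have := Fintype.ofFinite I
  have hsum : Cor.graph (R := R) (𝟙 S) = ∑ i, (τ i).comp (Cor.graph (l i)) := by
    refine Cor.ext fun E x => ?_
    obtain ⟨j, t, ht⟩ := hs (x.left E.pnt)
    obtain ⟨v, rfl⟩ := exists_lift_pt (l j) E x ⟨t, ht⟩
    have h2 : ∀ F : Finset I, (∑ i ∈ F, (τ i).comp (Cor.graph (l i))).val E (v ≫ l j) =
        ∑ i ∈ F, ((τ i).comp (Cor.graph (l i))).val E (v ≫ l j) := by
      intro F
      induction F using Finset.induction_on with
      | empty => simp
      | insert a F ha ih => rw [Finset.sum_insert ha, Finset.sum_insert ha, Cor.add_val, ih]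
    rw [h2]
    simp only [hτ]
    simp
  rw [hsum]
  exact Submodule.sum_mem _ fun i _ => comp_graph_mem_throughK i _

end Pool.Agent.H694_ABV
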