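import Pool.Agent.H694_ABV.Sm

/-!
# Subobjects of `h₀^{ét}(X)_R`

A closed subfunctor of `Cor(-, X)_R` is a family of submodules of the modules `Cor(U, X)_R` which
is stable under all correspondences `V ⇝ U`, local for the étale topology, and contains the
differences `i₀^* φ - i₁^* φ` for `φ ∈ Cor(U × 𝔸¹, X)_R`. The closed subfunctors of `Cor(-, X)_R`
are the subobjects of the étale sheaf with transfers `h₀^{ét}(X)_R` associated with the presheaf
`U ↦ coker(i₀^* - i₁^* : Cor(U × 𝔸¹, X)_R → Cor(U, X)_R)`: a subsheaf corresponds to its preimage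
in `Cor(-, X)_R`.
-/

open CategoryTheory AlgebraicGeometry Limits

universe u

namespace Pool.Agent.H694_ABV

variable {k : Type u} [Field k] {R : Type u} [CommRing R]

/-- A closed subfunctor of `Cor(-, X)_R`. -/
@[ext]
structure ClosedSub (R : Type u) [CommRing R] (X : Sm k) where
  /-- the sections over `U` -/
  carrier : ∀ U : Sm k, Submodule R (Cor R U.sch X.sch)
  pull_mem : ∀ {U V : Sm k} (δ : Cor R V.sch U.sch) {φ : Cor R U.sch X.sch}, φ ∈ carrier U →
    δ.comp φ ∈ carrier V
  local_mem : ∀ {U : Sm k} {I : Type u} {V : I → Sm k} (f : ∀ i, (V i).sch ⟶ U.sch),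
    IsEtaleCovering V f → ∀ {φ : Cor R U.sch X.sch},
    (∀ i, (Cor.graph (f i)).comp φ ∈ carrier (V i)) → φ ∈ carrier U
  homotopy_mem : ∀ (U : Sm k) (φ : Cor R U.timesA1.sch X.sch),
    (Cor.graph ((U.const 0))).comp φ - (Cor.graph ((U.const 1))).comp φ ∈ carrier U

namespace ClosedSub

variable {X Y : Sm k}

instance : PartialOrder (ClosedSub R X) where
  le F G := ∀ U, F.carrier U ≤ G.carrier U
  le_refl _ _ := le_rfl
  le_trans _ _ _ h h' U := (h U).trans (h' U)
  le_antisymm _ _ h h' := ClosedSub.ext (funext fun U => le_antisymm (h U) (h' U))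

lemma le_def {F G : ClosedSub R X} : F ≤ G ↔ ∀ U, F.carrier U ≤ G.carrier U := Iff.rfl

/-- The intersection of a set of closed subfunctors. -/
noncomputable def inter (S : Set (ClosedSub R X)) : ClosedSub R X where
  carrier U := ⨅ F ∈ S, F.carrier U
  pull_mem := by
    intro U V δ s hs
    simp only [Submodule.mem_iInf] at hs ⊢
    exact fun F hF => F.pull_mem δ (hs F hF)
  local_mem := by
    intro U I V f hf s hs
    simp only [Submodule.mem_iInf] at hs ⊢
    exact fun F hF => F.local_mem f hf fun i => hs i F hF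
  homotopy_mem := by
    intro U s
    simp only [Submodule.mem_iInf]
    exact fun F _ => F.homotopy_mem U s

lemma mem_inter {S : Set (ClosedSub R X)} {U : Sm k} {φ : Cor R U.sch X.sch} :
    φ ∈ (inter S).carrier U ↔ ∀ F ∈ S, φ ∈ F.carrier U := by
  show φ ∈ ⨅ F ∈ S, F.carrier U ↔ _
  simp only [Submodule.mem_iInf]

lemma isGLB_inter (S : Set (ClosedSub R X)) : IsGLB S (inter S) :=
  ⟨fun _ hF _ _ hs => mem_inter.1 hs _ hF, fun _ hG U _ hs => mem_inter.2 fun _ hF => hG hF U hs⟩

noncomputable instance : InfSet (ClosedSub R X) := ⟨inter⟩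

noncomputable instance : CompleteLattice (ClosedSub R X) := completeLatticeOfInf _ isGLB_inter

lemma mem_sInf {S : Set (ClosedSub R X)} {U : Sm k} {φ : Cor R U.sch X.sch} :
    φ ∈ (sInf S).carrier U ↔ ∀ F ∈ S, φ ∈ F.carrier U := mem_inter

lemma mem_iInf {ι : Sort*} {F : ι → ClosedSub R X} {U : Sm k} {φ : Cor R U.sch X.sch} :
    φ ∈ (⨅ i, F i).carrier U ↔ ∀ i, φ ∈ (F i).carrier U := by
  show φ ∈ (sInf (Set.range F)).carrier U ↔ _
  rw [mem_sInf]
  simp

lemma mem_inf {F G : ClosedSub R X} {U : Sm k} {φ : Cor R U.sch X.sch} :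
    φ ∈ (F ⊓ G).carrier U ↔ φ ∈ F.carrier U ∧ φ ∈ G.carrier U := by
  rw [← sInf_pair, mem_sInf]
  simp

/-- The whole presheaf. -/
noncomputable def whole (X : Sm k) : ClosedSub R X where
  carrier _ := ⊤
  pull_mem _ _ _ := trivial
  local_mem _ _ _ _ := trivial
  homotopy_mem _ _ := trivial

@[simp]
lemma mem_top {U : Sm k} {φ : Cor R U.sch X.sch} : φ ∈ (⊤ : ClosedSub R X).carrier U := by
  have h : (whole X : ClosedSub R X) ≤ ⊤ := le_top
  exact h U trivial

/-- Preimage of a closed subfunctor under the map given by a correspondence. -/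
noncomputable def comap (γ : Cor R X.sch Y.sch) (G : ClosedSub R Y) : ClosedSub R X where
  carrier U := (G.carrier U).comap (Cor.compRight γ)
  pull_mem := by
    intro U V δ φ hφ
    rw [Submodule.mem_comap, Cor.compRight_apply] at hφ ⊢
    rw [Cor.comp_assoc]
    exact G.pull_mem δ hφ
  local_mem := by
    intro U I V g hg φ hφ
    simp only [Submodule.mem_comap, Cor.compRight_apply, Cor.comp_assoc] at hφ ⊢
    exact G.local_mem g hg hφ
  homotopy_mem := by
    intro U φ
    simp only [Submodule.mem_comap, map_sub, Cor.compRight_apply, Cor.comp_assoc]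
    exact G.homotopy_mem U _

@[simp]
lemma mem_comap {γ : Cor R X.sch Y.sch} {G : ClosedSub R Y} {U : Sm k} {φ : Cor R U.sch X.sch} :
    φ ∈ (comap γ G).carrier U ↔ φ.comp γ ∈ G.carrier U := Iff.rfl

/-- The closed subfunctor generated by the image under the map given by a correspondence. -/
noncomputable def map (γ : Cor R X.sch Y.sch) (F : ClosedSub R X) : ClosedSub R Y :=
  sInf {G | F ≤ comap γ G}

lemma le_comap_map (γ : Cor R X.sch Y.sch) (F : ClosedSub R X) : F ≤ comap γ (map γ F) := by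
  intro U s hs
  rw [mem_comap]
  exact mem_sInf.2 fun G hG => hG U hs

lemma map_le_iff {γ : Cor R X.sch Y.sch} {F : ClosedSub R X} {G : ClosedSub R Y} :
    map γ F ≤ G ↔ F ≤ comap γ G := by
  refine ⟨fun h U s hs => ?_, fun h => sInf_le h⟩
  rw [mem_comap]
  exact h U (le_comap_map γ F U hs)

lemma gc_map_comap (γ : Cor R X.sch Y.sch) : GaloisConnection (map γ) (comap γ) :=
  fun _ _ => map_le_iff

lemma eq_top_of_id_mem {F : ClosedSub R X} (h : Cor.graph (𝟙 X.sch) ∈ F.carrier X) : F = ⊤ := by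
  refine top_le_iff.1 fun U φ _ => ?_
  have := F.pull_mem φ h
  rwa [Cor.comp_id] at this

end ClosedSub

end Pool.Agent.H694_ABV
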