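import Pool.Agent.H694_ABV.Transfers

/-!
# Change of coefficients
-/

open CategoryTheory AlgebraicGeometry Limits

universe u

namespace Pool.Agent.H694_ABV

variable {k : Type u} [Field k] {R R' S : Type u} [CommRing R] [CommRing R'] [CommRing S]

variable {X Y Z : KSch k}

lemma Cor.sum_val {ι : Type*} (F : Finset ι) (α : ι → Cor R X Y) (E : AlgClosedExt k)
    (x : E.pt ⟶ X) : (∑ i ∈ F, α i).val E x = ∑ i ∈ F, (α i).val E x := by
  classical
  induction F using Finset.induction_on with
  | empty => simp
  | insert a F ha ih => rw [Finset.sum_insert ha, Finset.sum_insert ha, Cor.add_val, ih]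

/-- The map on correspondences induced by an additive map of the coefficients. -/
noncomputable def Cor.mapCoeff (f : R →+ R') : Cor R X Y →+ Cor R' X Y where
  toFun α := ⟨fun E x => (α.val E x).mapRange f (map_zero f), by
    refine (finTop k).superset_covering ?_ α.2
    rintro V g ⟨b, hb⟩
    refine ⟨b.mapRange f (map_zero f), fun E v => ?_⟩
    rw [Finsupp.mapDomain_mapRange _ _ _ _ (map_add f)]
    exact congrArg (Finsupp.mapRange f (map_zero f)) (hb E v)⟩
  map_zero' := Cor.ext fun E x => Finsupp.mapRange_zero (hf := map_zero f)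
  map_add' α β := Cor.ext fun E x =>
    Finsupp.mapRange_add (hf := map_zero f) (map_add f) (α.val E x) (β.val E x)

@[simp]
lemma Cor.mapCoeff_val (f : R →+ R') (α : Cor R X Y) (E : AlgClosedExt k) (x : E.pt ⟶ X) :
    (Cor.mapCoeff f α).val E x = (α.val E x).mapRange f (map_zero f) := rfl

lemma Cor.mapCoeff_graph (f : R →+ R') (hf : f 1 = 1) (g : X ⟶ Y) :
    Cor.mapCoeff f (Cor.graph g) = Cor.graph g := by
  refine Cor.ext fun E x => ?_
  rw [Cor.mapCoeff_val, Cor.graph_val, Cor.graph_val, Finsupp.mapRange_single, hf]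

lemma Cor.mapCoeff_injective {f : R →+ R'} (hf : Function.Injective f) :
    Function.Injective (Cor.mapCoeff (X := X) (Y := Y) f) := by
  intro α β h
  refine Cor.ext fun E x => ?_
  have h1 := congrArg (fun t => t.val E x) h
  exact Finsupp.mapRange_injective f (map_zero f) hf h1

lemma Cor.mapCoeff_smul (f : R →+* R') (r : R) (α : Cor R X Y) :
    Cor.mapCoeff (f : R →+ R') (r • α) = f r • Cor.mapCoeff (f : R →+ R') α := by
  refine Cor.ext fun E x => Finsupp.ext fun y => ?_
  simp

section

variable [Algebra S R]

/-- A linear map of the coefficients, applied to a composition. -/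
lemma Cor.mapCoeff_comp_right (f : R →ₗ[S] S) (α : Cor R X Y) (γ : Cor S Y Z) :
    Cor.mapCoeff f.toAddMonoidHom (α.comp (Cor.mapCoeff (algebraMap S R : S →+ R) γ)) =
      (Cor.mapCoeff f.toAddMonoidHom α).comp γ := by
  refine Cor.ext fun E x => ?_
  rw [Cor.mapCoeff_val, Cor.comp_val, Cor.comp_val, Cor.mapCoeff_val]
  induction α.val E x using Finsupp.induction_linear with
  | zero => simp
  | add a b ha hb =>
    rw [map_add, Finsupp.mapRange_add (map_add f.toAddMonoidHom),
      Finsupp.mapRange_add (map_add f.toAddMonoidHom), map_add, ha, hb]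
  | single y r =>
    rw [Finsupp.linearCombination_single, Finsupp.mapRange_single, Finsupp.linearCombination_single,
      Cor.mapCoeff_val]
    refine Finsupp.ext fun z => ?_
    simp only [Finsupp.mapRange_apply, Finsupp.smul_apply, smul_eq_mul]
    show f (r * algebraMap S R (γ.val E y z)) = f r * γ.val E y z
    rw [mul_comm r, ← Algebra.smul_def, map_smul, smul_eq_mul, mul_comm]

lemma Cor.mapCoeff_comp_left (f : R →ₗ[S] S) (δ : Cor S X Y) (α : Cor R Y Z) :
    Cor.mapCoeff f.toAddMonoidHom ((Cor.mapCoeff (algebraMap S R : S →+ R) δ).comp α) =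
      δ.comp (Cor.mapCoeff f.toAddMonoidHom α) := by
  refine Cor.ext fun E x => ?_
  rw [Cor.mapCoeff_val, Cor.comp_val, Cor.comp_val, Cor.mapCoeff_val]
  induction δ.val E x using Finsupp.induction_linear with
  | zero => simp
  | add a b ha hb =>
    rw [Finsupp.mapRange_add (map_add (algebraMap S R : S →+ R)), map_add, map_add,
      Finsupp.mapRange_add (map_add f.toAddMonoidHom), ha, hb]
  | single y r =>
    rw [Finsupp.mapRange_single, Finsupp.linearCombination_single,
      Finsupp.linearCombination_single, Cor.mapCoeff_val]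
    refine Finsupp.ext fun z => ?_
    simp only [Finsupp.mapRange_apply, Finsupp.smul_apply, smul_eq_mul]
    show f (algebraMap S R r * α.val E y z) = r * f (α.val E y z)
    rw [← Algebra.smul_def, map_smul, smul_eq_mul]

end

lemma Cor.mapCoeff_comp (f : R →+* R') (α : Cor R X Y) (γ : Cor R Y Z) :
    Cor.mapCoeff (f : R →+ R') (α.comp γ) =
      (Cor.mapCoeff (f : R →+ R') α).comp (Cor.mapCoeff (f : R →+ R') γ) := by
  refine Cor.ext fun E x => ?_
  rw [Cor.mapCoeff_val, Cor.comp_val, Cor.comp_val, Cor.mapCoeff_val]
  induction α.val E x using Finsupp.induction_linear with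
  | zero => simp
  | add a b ha hb =>
    rw [map_add, Finsupp.mapRange_add (map_add (f : R →+ R')),
      Finsupp.mapRange_add (map_add (f : R →+ R')), map_add, ha, hb]
  | single y r =>
    rw [Finsupp.linearCombination_single, Finsupp.mapRange_single,
      Finsupp.linearCombination_single, Cor.mapCoeff_val]
    refine Finsupp.ext fun z => ?_
    simp [Finsupp.mapRange_apply]

end Pool.Agent.H694_ABV
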