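import Mathlib

/-!
# Finite correspondences with coefficients, as functions on geometric points

`k` is a field and `R` a commutative ring. For `k`-schemes `X` and `Y` a correspondence with
coefficients in `R` is a function which attaches to every algebraically closed extension `Ω` of `k`
and every `x ∈ X(Ω)` a zero-cycle in `R[Y(Ω)]`, and which is, locally on `X` for the topology of
jointly surjective families of finite morphisms, an `R`-linear combination of morphisms to `Y`.
-/

open CategoryTheory AlgebraicGeometry Limits

universe u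

namespace Pool.Agent.H694_ABV

/-- An algebraically closed extension of `k`. -/
structure AlgClosedExt (k : Type u) [Field k] where
  /-- the underlying field -/
  Ω : Type u
  [field : Field Ω]
  [algebra : Algebra k Ω]
  [closed : IsAlgClosed Ω]

attribute [instance] AlgClosedExt.field AlgClosedExt.algebra AlgClosedExt.closed

/-- The category of `k`-schemes. -/
abbrev KSch (k : Type u) [Field k] := Over (Spec (CommRingCat.of k))

variable {k : Type u} [Field k]

/-- The geometric point `Spec Ω → Spec k`. -/
noncomputable def AlgClosedExt.pt (E : AlgClosedExt k) : KSch k :=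
  Over.mk (Spec.map (CommRingCat.ofHom (algebraMap k E.Ω)))

/-- The geometric points of `X` with values in an algebraically closed extension of `k`. -/
abbrev Pts (E : AlgClosedExt k) (X : KSch k) : Type u := E.pt ⟶ X

/-- The zero-cycles of geometric points of `X`, with coefficients in `R`. -/
abbrev Cyc (R : Type u) [CommRing R] (E : AlgClosedExt k) (X : KSch k) : Type u := Pts E X →₀ R

/-- Functions which attach to every geometric point of `X` a zero-cycle of geometric points
of `Y`. -/
def PreCor (R : Type u) [CommRing R] (X Y : KSch k) : Type (u + 1) :=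
  ∀ E : AlgClosedExt k, Pts E X → Cyc R E Y

variable {R : Type u} [CommRing R]

noncomputable instance (X Y : KSch k) : AddCommGroup (PreCor R X Y) := Pi.addCommGroup

noncomputable instance (X Y : KSch k) : Module R (PreCor R X Y) := Pi.module _ _ _

/-- The sieve of all morphisms `f : V ⟶ X` on which `α` is a linear combination of morphisms
from `V` to `Y`. -/
def locus {X Y : KSch k} (α : PreCor R X Y) : Sieve X where
  arrows V f := ∃ β : (V ⟶ Y) →₀ R, ∀ (E : AlgClosedExt k) (v : Pts E V),
    α E (v ≫ f) = β.mapDomain (v ≫ ·)
  downward_closed := by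
    rintro V W f ⟨β, h⟩ g
    refine ⟨β.mapDomain (g ≫ ·), fun E v => ?_⟩
    rw [← Category.assoc, h, ← Finsupp.mapDomain_comp]
    exact congrArg (fun t => Finsupp.mapDomain t β) (funext fun y => Category.assoc _ _ _)

/-- The topology on `k`-schemes whose coverings are the jointly surjective families of finite
morphisms. -/
noncomputable def finTop (k : Type u) [Field k] : GrothendieckTopology (KSch k) :=
  (Scheme.grothendieckTopology @IsFinite).over _

namespace PreCor

variable {X Y : KSch k}

lemma zero_apply (E : AlgClosedExt k) (x : Pts E X) : (0 : PreCor R X Y) E x = 0 := rfl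

lemma add_apply (α β : PreCor R X Y) (E : AlgClosedExt k) (x : Pts E X) :
    (α + β) E x = α E x + β E x := rfl

lemma smul_apply (r : R) (α : PreCor R X Y) (E : AlgClosedExt k) (x : Pts E X) :
    (r • α) E x = r • α E x := rfl

end PreCor

variable (R) in
/-- The submodule of correspondences in the module of all functions on geometric points. -/
noncomputable def corSubmodule (X Y : KSch k) : Submodule R (PreCor R X Y) where
  carrier := {α | locus α ∈ finTop k X}
  zero_mem' := by
    refine (finTop k).superset_covering ?_ ((finTop k).top_mem X)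
    rintro V f -
    exact ⟨0, fun E v => by simp [PreCor.zero_apply]⟩
  add_mem' := by
    intro α β hα hβ
    refine (finTop k).superset_covering ?_ ((finTop k).intersection_covering hα hβ)
    rintro V f ⟨⟨a, ha⟩, ⟨b, hb⟩⟩
    refine ⟨a + b, fun E v => ?_⟩
    rw [PreCor.add_apply, ha, hb, Finsupp.mapDomain_add]
  smul_mem' := by
    intro r α hα
    refine (finTop k).superset_covering ?_ hα
    rintro V f ⟨a, ha⟩
    refine ⟨r • a, fun E v => ?_⟩
    rw [PreCor.smul_apply, ha, Finsupp.mapDomain_smul]

variable (R) in
/-- The `R`-module of correspondences from `X` to `Y` with coefficients in `R`. -/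
def Cor (X Y : KSch k) : Type (u + 1) := ↥(corSubmodule R X Y)

noncomputable instance (X Y : KSch k) : AddCommGroup (Cor R X Y) :=
  Submodule.addCommGroup (corSubmodule R X Y)

noncomputable instance (X Y : KSch k) : Module R (Cor R X Y) :=
  Submodule.module (corSubmodule R X Y)

variable {X Y Z W : KSch k}

namespace Cor

/-- The value of a correspondence at a geometric point. -/
def val (α : Cor R X Y) (E : AlgClosedExt k) (x : E.pt ⟶ X) : (E.pt ⟶ Y) →₀ R := α.1 E x

@[ext]
lemma ext {α β : Cor R X Y} (h : ∀ E x, α.val E x = β.val E x) : α = β :=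
  Subtype.ext (funext fun E => funext fun x => h E x)

@[simp] lemma add_val (α β : Cor R X Y) (E : AlgClosedExt k) (x : E.pt ⟶ X) :
    (α + β).val E x = α.val E x + β.val E x := rfl

@[simp] lemma sub_val (α β : Cor R X Y) (E : AlgClosedExt k) (x : E.pt ⟶ X) :
    (α - β).val E x = α.val E x - β.val E x := rfl

@[simp] lemma zero_val (E : AlgClosedExt k) (x : E.pt ⟶ X) :
    (0 : Cor R X Y).val E x = 0 := rfl

@[simp] lemma smul_val (r : R) (α : Cor R X Y) (E : AlgClosedExt k) (x : E.pt ⟶ X) :
    (r • α).val E x = r • α.val E x := rfl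

/-- The correspondence given by a morphism. -/
noncomputable def graph (f : X ⟶ Y) : Cor R X Y :=
  ⟨fun E x => Finsupp.single (x ≫ f) 1, by
    refine (finTop k).superset_covering ?_ ((finTop k).top_mem X)
    rintro V g -
    exact ⟨Finsupp.single (g ≫ f) 1, fun E v => by simp⟩⟩

@[simp]
lemma graph_val (f : X ⟶ Y) (E : AlgClosedExt k) (x : E.pt ⟶ X) :
    (graph (R := R) f).val E x = Finsupp.single (x ≫ f) 1 := rfl

end Cor

/-- Composition of the functions on geometric points: extend the second one linearly. -/
noncomputable def PreCor.comp (α : PreCor R X Y) (β : PreCor R Y Z) : PreCor R X Z :=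
  fun E x => Finsupp.linearCombination R (β E) (α E x)

lemma locus_comp {α : PreCor R X Y} {β : PreCor R Y Z} (hα : locus α ∈ finTop k X)
    (hβ : locus β ∈ finTop k Y) : locus (α.comp β) ∈ finTop k X := by
  classical
  refine (finTop k).transitive hα _ ?_
  rintro V f ⟨a, ha⟩
  -- the sieve on which all morphisms in the support of `a` can be continued
  have key : ∀ s : Finset (V ⟶ Y), ∃ S : Sieve V, S ∈ finTop k V ∧ ∀ y ∈ s,
      S ≤ (locus β).pullback y := by
    intro s
    induction s using Finset.induction_on with
    | empty => exact ⟨⊤, (finTop k).top_mem V, by simp⟩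
    | insert y s _ ih =>
      obtain ⟨S, hS, h⟩ := ih
      refine ⟨S ⊓ (locus β).pullback y, (finTop k).intersection_covering hS
        ((finTop k).pullback_stable y hβ), ?_⟩
      intro z hz
      rcases Finset.mem_insert.1 hz with rfl | hz
      · exact inf_le_right
      · exact inf_le_left.trans (h z hz)
  obtain ⟨S, hS, h⟩ := key a.support
  refine (finTop k).superset_covering ?_ hS
  intro W g hg
  have hb : ∀ y : V ⟶ Y, ∃ b : (W ⟶ Z) →₀ R, y ∈ a.support →
      ∀ (E : AlgClosedExt k) (w : E.pt ⟶ W), β E (w ≫ g ≫ y) = b.mapDomain (w ≫ ·) := by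
    intro y
    by_cases hy : y ∈ a.support
    · obtain ⟨b, hb⟩ := h y hy g hg
      exact ⟨b, fun _ => hb⟩
    · exact ⟨0, fun h => absurd h hy⟩
  choose b hb using hb
  refine ⟨a.sum fun y r => r • b y, fun E w => ?_⟩
  show Finsupp.linearCombination R (β E) (α E (w ≫ g ≫ f)) = _
  rw [← Category.assoc, ha, Finsupp.linearCombination_mapDomain, Finsupp.linearCombination_apply,
    Finsupp.sum, Finsupp.sum, Finsupp.mapDomain_finsetSum]
  refine Finset.sum_congr rfl fun y hy => ?_
  rw [Finsupp.mapDomain_smul, ← hb y hy E w]
  simp

namespace Cor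

/-- Composition of correspondences, in diagrammatic order. -/
noncomputable def comp (α : Cor R X Y) (β : Cor R Y Z) : Cor R X Z :=
  ⟨PreCor.comp α.1 β.1, locus_comp α.2 β.2⟩

lemma comp_val (α : Cor R X Y) (β : Cor R Y Z) (E : AlgClosedExt k) (x : E.pt ⟶ X) :
    (α.comp β).val E x = Finsupp.linearCombination R (β.val E) (α.val E x) := rfl

@[simp]
lemma graph_comp_val (f : X ⟶ Y) (β : Cor R Y Z) (E : AlgClosedExt k) (x : E.pt ⟶ X) :
    ((graph f).comp β).val E x = β.val E (x ≫ f) := by
  simp [comp_val]

lemma comp_graph_val (α : Cor R X Y) (f : Y ⟶ Z) (E : AlgClosedExt k) (x : E.pt ⟶ X) :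
    (α.comp (graph f)).val E x = (α.val E x).mapDomain (· ≫ f) := by
  rw [comp_val, Finsupp.linearCombination_apply, Finsupp.mapDomain]
  refine Finsupp.sum_congr fun y _ => ?_
  simp

lemma comp_assoc (α : Cor R X Y) (β : Cor R Y Z) (γ : Cor R Z W) :
    (α.comp β).comp γ = α.comp (β.comp γ) := by
  refine Cor.ext fun E x => ?_
  simp only [comp_val]
  induction α.val E x using Finsupp.induction_linear with
  | zero => simp
  | add a b ha hb => simp [ha, hb]
  | single y r => simp [comp_val]

@[simp]
lemma id_comp (α : Cor R X Y) : (graph (𝟙 X)).comp α = α := by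
  refine Cor.ext fun E x => ?_
  simp

@[simp]
lemma comp_id (α : Cor R X Y) : α.comp (graph (𝟙 Y)) = α := by
  refine Cor.ext fun E x => ?_
  rw [comp_graph_val]
  simp only [Category.comp_id]
  exact Finsupp.mapDomain_id

@[simp]
lemma graph_comp_graph (f : X ⟶ Y) (g : Y ⟶ Z) :
    (graph (R := R) f).comp (graph g) = graph (f ≫ g) := by
  refine Cor.ext fun E x => ?_
  simp

@[simp]
lemma add_comp (α β : Cor R X Y) (γ : Cor R Y Z) :
    (α + β).comp γ = α.comp γ + β.comp γ := by
  refine Cor.ext fun E x => ?_
  exact map_add (Finsupp.linearCombination R (γ.val E)) (α.val E x) (β.val E x)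

@[simp]
lemma smul_comp (r : R) (α : Cor R X Y) (γ : Cor R Y Z) :
    (r • α).comp γ = r • α.comp γ := by
  refine Cor.ext fun E x => ?_
  exact map_smul (Finsupp.linearCombination R (γ.val E)) r (α.val E x)

@[simp]
lemma comp_add (α : Cor R X Y) (β γ : Cor R Y Z) :
    α.comp (β + γ) = α.comp β + α.comp γ := by
  refine Cor.ext fun E x => ?_
  rw [add_val, comp_val, comp_val, comp_val]
  induction α.val E x using Finsupp.induction_linear with
  | zero => simp
  | add a b ha hb => rw [map_add, map_add, map_add, ha, hb]; abel
  | single y r => simp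

@[simp]
lemma comp_smul (r : R) (α : Cor R X Y) (γ : Cor R Y Z) :
    α.comp (r • γ) = r • α.comp γ := by
  refine Cor.ext fun E x => ?_
  rw [smul_val, comp_val, comp_val]
  induction α.val E x using Finsupp.induction_linear with
  | zero => simp
  | add a b ha hb => rw [map_add, map_add, ha, hb, smul_add]
  | single y s => simp [smul_smul, mul_comm]

/-- Composition as a linear map in the first variable. -/
noncomputable def compRight (γ : Cor R Y Z) : Cor R X Y →ₗ[R] Cor R X Z where
  toFun α := α.comp γ
  map_add' α β := add_comp α β γ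
  map_smul' r α := smul_comp r α γ

/-- Composition as a linear map in the second variable. -/
noncomputable def compLeft (α : Cor R X Y) : Cor R Y Z →ₗ[R] Cor R X Z where
  toFun γ := α.comp γ
  map_add' := comp_add α
  map_smul' r γ := comp_smul r α γ

@[simp] lemma compRight_apply (α : Cor R X Y) (γ : Cor R Y Z) : compRight γ α = α.comp γ := rfl

@[simp] lemma compLeft_apply (α : Cor R X Y) (γ : Cor R Y Z) : compLeft α γ = α.comp γ := rfl

end Cor

end Pool.Agent.H694_ABV
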