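import Pool.Agent.H694_ABV.Local

/-!
# The criterion and the decomposition of the generic zero-cycle
-/

open CategoryTheory AlgebraicGeometry Limits

universe u

namespace Pool.Agent.H694_ABV

variable {k : Type u} [Field k] {R : Type u} [CommRing R]

/-- The criterion for one scheme. -/
def Crit (R : Type u) [CommRing R] (d : ℕ) (X : Sm k) : Prop :=
  GeneratedBelow d (minBelow R d X) ∧ minBelow R d X ≤ kerBelow R d X

lemma factorBelow_comp {d : ℕ} {U V X : Sm k} (δ : Cor R V.sch U.sch) {φ : Cor R U.sch X.sch}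
    (h : φ ∈ factorBelow R d U X) : δ.comp φ ∈ factorBelow R d V X := by
  have h1 : factorBelow R d U X ≤ (factorBelow R d V X).comap (Cor.compLeft δ) := by
    refine Submodule.span_le.2 ?_
    rintro _ ⟨Y, hY, ε, β, rfl⟩
    exact Submodule.subset_span ⟨Y, hY, δ.comp ε, β, by simp [Cor.comp_assoc]⟩
  exact h1 h

lemma factorBelow_le {d : ℕ} {X : Sm k} {G : ClosedSub R X}
    (hG : ∀ Y : Sm k, Y.DimLT d → ∀ φ : Cor R Y.sch X.sch, φ ∈ G.carrier Y) (U : Sm k) :
    factorBelow R d U X ≤ G.carrier U := by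
  refine Submodule.span_le.2 ?_
  rintro _ ⟨Y, hY, δ, β, rfl⟩
  exact G.pull_mem δ (hG Y hY β)

lemma mem_factorBelow {d : ℕ} {X Y : Sm k} (hY : Y.DimLT d) (φ : Cor R Y.sch X.sch) :
    φ ∈ factorBelow R d Y X :=
  Submodule.subset_span ⟨Y, hY, Cor.graph (𝟙 _), φ, by simp⟩

/-- If a subobject has a quotient which is generated in dimension less than `d`, then every
correspondence is generically the sum of one in the subobject and one which factors. -/
lemma exists_denseOpen_of_generatedBelow [PerfectField k] [Algebra ℚ R] {d : ℕ} {X U : Sm k}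
    {K : ClosedSub R X} (hK : GeneratedBelow d K) (φ : Cor R U.sch X.sch) :
    ∃ (U' : Sm k) (j : U'.sch ⟶ U.sch), IsDenseOpen j ∧
      (Cor.graph j).comp φ ∈ K.carrier U' ⊔ factorBelow R d U' X := by
  obtain ⟨U', j, hj, h⟩ := exists_denseOpen_of_mem (R := R) (X := X)
    (fun U => K.carrier U ⊔ factorBelow R d U X) (fun U V δ φ hφ => by
      obtain ⟨a, ha, b, hb, rfl⟩ := Submodule.mem_sup.1 hφ
      rw [Cor.comp_add]
      exact Submodule.add_mem_sup (K.pull_mem δ ha) (factorBelow_comp δ hb))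
    (φ := φ) (fun G hG => by
      have h1 : G = ⊤ := hK G (fun U φ hφ => hG U (Submodule.mem_sup_left hφ))
        fun Y hY φ => hG Y (Submodule.mem_sup_right (mem_factorBelow hY φ))
      rw [h1]
      exact ClosedSub.mem_top)
  refine ⟨U', j, hj, ?_⟩
  have h2 : nullHomotopic R U' X ≤ K.carrier U' ⊔ factorBelow R d U' X :=
    (nullHomotopic_le K U').trans le_sup_left
  rwa [sup_eq_left.2 h2] at h

/-- The decomposition implies the criterion. -/
theorem GenericDecomposition.crit [PerfectField k] [Algebra ℚ R] {d : ℕ} {X : Sm k}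
    (h : GenericDecomposition R d X) : Crit R d X := by
  obtain ⟨U₀, j₀, σ, hj₀, hσ, hdec⟩ := h
  let κ : Cor R U₀.sch X.sch := Cor.graph j₀ - σ
  -- the subobject generated by `κ`
  let K : ClosedSub R X := sInf {L | κ ∈ L.carrier U₀}
  have hκ : κ ∈ K.carrier U₀ := ClosedSub.mem_sInf.2 fun L hL => hL
  have hKL : ∀ L : ClosedSub R X, κ ∈ L.carrier U₀ → K ≤ L := fun L hL => sInf_le hL
  -- composition with small correspondences
  have hnull : ∀ {U U' Y : Sm k} {κ' : Cor R U'.sch U.sch} (γ : Cor R U.sch Y.sch),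
      (∃ (U'' : Sm k) (i' : U''.sch ⟶ U'.sch), IsDenseOpen i' ∧
        (Cor.graph i').comp (κ'.comp γ) ∈ nullHomotopic R U'' Y) →
      κ'.comp γ ∈ (⊥ : ClosedSub R Y).carrier U' := by
    rintro U U' Y κ' γ ⟨U'', i', hi', h⟩
    exact ClosedSub.mem_of_dense ⊥ hi' (nullHomotopic_le _ _ h)
  have hgen : GeneratedBelow d K := by
    intro G hG hG'
    refine G.eq_top_of_dense hj₀ ?_
    have h1 : Cor.graph j₀ = κ + σ := (sub_add_cancel _ _).symm
    rw [h1]
    exact Submodule.add_mem _ (hG U₀ hκ) (factorBelow_le hG' U₀ hσ)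
  have hmin : K = minBelow R d X := by
    refine le_antisymm (le_sInf fun L hL => hKL L ?_) (sInf_le hgen)
    obtain ⟨U₁, j₁, hj₁, h1⟩ := exists_denseOpen_of_generatedBelow hL (Cor.graph (𝟙 X.sch))
    rw [Cor.comp_id] at h1
    obtain ⟨lam, hlam, s, hs, hls⟩ := Submodule.mem_sup.1 h1
    obtain ⟨U', i, κ', hi, h2, h3⟩ := hdec U₁ j₁ hj₁
    refine L.mem_of_dense hi ?_
    have h4 : κ'.comp (Cor.graph j₁) ∈ L.carrier U' := by
      rw [← hls, Cor.comp_add]
      refine Submodule.add_mem _ (L.pull_mem κ' hlam) ?_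
      have h5 : factorBelow R d U₁ X ≤ (L.carrier U').comap (Cor.compLeft κ') := by
        refine Submodule.span_le.2 ?_
        rintro _ ⟨Y, hY, δ, β, rfl⟩
        show κ'.comp (δ.comp β) ∈ L.carrier U'
        rw [← Cor.comp_assoc]
        exact (bot_le : (⊥ : ClosedSub R Y) ≤ ClosedSub.comap β L) U' (hnull δ (h3 Y hY δ))
      exact h5 hs
    have h6 := Submodule.add_mem _ (nullHomotopic_le L U' h2) h4
    rwa [sub_add_cancel] at h6
  refine ⟨hmin ▸ hgen, ?_⟩
  rw [← hmin]
  refine hKL _ (mem_kerBelow.2 fun Y hY γ => ?_)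
  obtain ⟨U', i, κ', hi, h2, h3⟩ := hdec X (𝟙 X.sch) (IsDenseOpen.id X)
  refine ClosedSub.mem_of_dense ⊥ hi ?_
  rw [Cor.comp_id] at h2
  have h4 : (Cor.graph i).comp (κ.comp γ) = ((Cor.graph i).comp κ - κ').comp γ + κ'.comp γ := by
    rw [← Cor.add_comp, sub_add_cancel, Cor.comp_assoc]
  rw [h4]
  exact Submodule.add_mem _ (nullHomotopic_le _ _ (nullHomotopic_comp_mem h2 γ))
    (hnull γ (h3 Y hY γ))

section

variable {N : ℕ∞} {F : ∀ X : Sm k, ℕ → ClosedSub R X} (hF : IsFiltrationBelow N F)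
include hF

lemma IsFiltrationBelow.generatedBelow {X : Sm k} (hX : X.DimBelow N) (n : ℕ) :
    GeneratedBelow n (F X n) := by
  cases n with
  | zero =>
    intro G hG _
    rw [hF.zero X hX] at hG
    exact top_le_iff.1 hG
  | succ n => exact fun G hG hG' => hF.generated X hX n G hG hG'

/-- The filtrations give the decompositions. -/
theorem IsFiltrationBelow.genericDecomposition [PerfectField k] [Algebra ℚ R] {d : ℕ} {X : Sm k}
    (hX : X.DimBelow N) (hd : topologicalKrullDim X.sch.left = d) :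
    GenericDecomposition R d X := by
  obtain ⟨U₀, j₀, hj₀, h1⟩ := exists_denseOpen_of_generatedBelow (hF.generatedBelow hX d)
    (Cor.graph (𝟙 X.sch))
  rw [Cor.comp_id] at h1
  obtain ⟨κ₀, hκ₀, σ, hσ, hκσ⟩ := Submodule.mem_sup.1 h1
  refine ⟨U₀, j₀, σ, hj₀, hσ, fun U j hj => ?_⟩
  have hU : U.DimBelow N := hX.of_etale j hj.etale
  have hκ₀' : Cor.graph j₀ - σ = κ₀ := by
    rw [← hκσ]
    exact add_sub_cancel_right _ _
  have hmap : F X d = ClosedSub.map (Cor.graph j) (F U d) := by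
    have h2 := hF.strict U X hX j hj d
    rw [ClosedSub.map_top_of_dense hj, top_inf_eq] at h2
    exact h2.symm
  rw [hmap] at hκ₀
  obtain ⟨U', i, hi, h3⟩ := exists_denseOpen_of_mem (R := R) (X := X)
    (fun V => ((F U d).carrier V).map (Cor.compRight (Cor.graph j))) (fun V W δ φ hφ => by
      obtain ⟨ψ, hψ, rfl⟩ := hφ
      exact ⟨δ.comp ψ, (F U d).pull_mem δ hψ, by simp [Cor.comp_assoc]⟩)
    (φ := κ₀) (fun G hG => by
      have h4 : ClosedSub.map (Cor.graph j) (F U d) ≤ G :=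
        ClosedSub.map_le_iff.2 fun V φ hφ => hG V ⟨φ, hφ, rfl⟩
      exact h4 U₀ hκ₀)
  obtain ⟨_, ⟨κ, hκ, rfl⟩, b, hb, hκb⟩ := Submodule.mem_sup.1 h3
  refine ⟨U', i, κ, hi, ?_, fun Y hY γ => ?_⟩
  · rw [hκ₀', ← hκb, Cor.compRight_apply, add_sub_cancel_left]
    exact hb
  · have hYN : Y.DimBelow N := hX.of_dimLT hd hY
    have h5 := hF.functorial U Y hU hYN γ d U' hκ
    rw [ClosedSub.mem_comap, hF.vanish Y hYN d hY] at h5
    exact exists_denseOpen_of_mem_bot h5

end

end Pool.Agent.H694_ABV
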