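import Pool.Agent.H694_ABV.Closed

/-!
# Filtrations in bounded dimension, and decompositions of the generic zero-cycle
-/

open CategoryTheory AlgebraicGeometry Limits

universe u

namespace Pool.Agent.H694_ABV

variable {k : Type u} [Field k] {R : Type u} [CommRing R]

/-- The dimension of `X` is less than `N`, a natural number or `∞`. For `N = ∞` this is true for
all `X`. -/
def Sm.DimBelow (X : Sm k) (N : ℕ∞) : Prop := topologicalKrullDim X.sch.left < N

/-- `j` is the inclusion of a dense open subscheme. -/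
structure IsDenseOpen {U X : Sm k} (j : U.sch ⟶ X.sch) : Prop where
  isOpenImmersion : IsOpenImmersion j.left
  dense : Dense (Set.range j.left)

/-- The conditions (A), (B), (C) and (D) for smooth schemes of dimension less than `N`. In (D) it is
required that the quotient of `h₀^{ét}(X)` by `F X (n + 1)` is generated by the images of the
sheaves `h₀^{ét}(Y)` with `dim Y ≤ n`: every subobject which contains `F X (n + 1)` and all
correspondences `Y ⇝ X` with `dim Y < n + 1` is the whole of `h₀^{ét}(X)`. -/
structure IsFiltrationBelow (N : ℕ∞) (F : ∀ X : Sm k, ℕ → ClosedSub R X) : Prop where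
  antitone : ∀ X : Sm k, X.DimBelow N → ∀ n, F X (n + 1) ≤ F X n
  zero : ∀ X : Sm k, X.DimBelow N → F X 0 = ⊤
  vanish : ∀ X : Sm k, X.DimBelow N → ∀ n, X.DimLT n → F X n = ⊥
  functorial : ∀ X Y : Sm k, X.DimBelow N → Y.DimBelow N → ∀ (γ : Cor R X.sch Y.sch) (n : ℕ),
    F X n ≤ ClosedSub.comap γ (F Y n)
  strict : ∀ U X : Sm k, X.DimBelow N → ∀ j : U.sch ⟶ X.sch, IsDenseOpen j → ∀ n : ℕ,
    ClosedSub.map (Cor.graph j) (F U n) = ClosedSub.map (Cor.graph j) ⊤ ⊓ F X n
  generated : ∀ X : Sm k, X.DimBelow N → ∀ (n : ℕ) (G : ClosedSub R X), F X (n + 1) ≤ G →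
    (∀ Y : Sm k, Y.DimLT (n + 1) → ∀ φ : Cor R Y.sch X.sch, φ ∈ G.carrier Y) → G = ⊤

/-- The correspondences from `U` to `X` which are sums of correspondences that factor through smooth
schemes of dimension less than `d`. -/
noncomputable def factorBelow (R : Type u) [CommRing R] (d : ℕ) (U X : Sm k) :
    Submodule R (Cor R U.sch X.sch) :=
  Submodule.span R {φ | ∃ (Y : Sm k) (_ : Y.DimLT d) (δ : Cor R U.sch Y.sch)
    (β : Cor R Y.sch X.sch), φ = δ.comp β}

/-- The correspondences from `U` to `X` which are `𝔸¹`-homotopic to zero: those of the form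
`i₀^* φ - i₁^* φ` with `φ ∈ Cor(U × 𝔸¹, X)`. -/
noncomputable def nullHomotopic (R : Type u) [CommRing R] (U X : Sm k) :
    Submodule R (Cor R U.sch X.sch) :=
  LinearMap.range (Cor.compLeft (R := R) (Z := X.sch) (Cor.graph (U.const 0)) -
    Cor.compLeft (Cor.graph (U.const 1)))

/-- The decomposition of the generic zero-cycle of `X`. On a dense open subscheme `U₀` of `X` there
is a correspondence `σ ∈ Cor(U₀, X)` which factors through smooth schemes of dimension less than `d`
and such that, for every dense open subscheme `U` of `X`, over a smaller dense open subscheme `U'`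
of `U₀` the difference of the inclusion and `σ` is homotopic to a correspondence `κ ∈ Cor(U', U)`
which is generically homotopic to zero after composition with any correspondence from `U` to a
smooth scheme of dimension less than `d`. -/
def GenericDecomposition (R : Type u) [CommRing R] (d : ℕ) (X : Sm k) : Prop :=
  ∃ (U₀ : Sm k) (j₀ : U₀.sch ⟶ X.sch) (σ : Cor R U₀.sch X.sch), IsDenseOpen j₀ ∧
    σ ∈ factorBelow R d U₀ X ∧
    ∀ (U : Sm k) (j : U.sch ⟶ X.sch), IsDenseOpen j →
      ∃ (U' : Sm k) (i : U'.sch ⟶ U₀.sch) (κ : Cor R U'.sch U.sch), IsDenseOpen i ∧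
        (Cor.graph i).comp (Cor.graph j₀ - σ) - κ.comp (Cor.graph j) ∈ nullHomotopic R U' X ∧
        ∀ Y : Sm k, Y.DimLT d → ∀ γ : Cor R U.sch Y.sch,
          ∃ (U'' : Sm k) (i' : U''.sch ⟶ U'.sch), IsDenseOpen i' ∧
            (Cor.graph i').comp (κ.comp γ) ∈ nullHomotopic R U'' Y

end Pool.Agent.H694_ABV
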