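import Pool.Agent.H694_ABV.LocalMove
import Pool.Agent.H694_ABV.Alg.D
import Pool.Agent.H694_ABV.Alg.E2

/-!
# `h₀^{ét}` of a dense open subscheme
-/

open CategoryTheory AlgebraicGeometry Limits

universe u

namespace Pool.Agent.H694_ABV

variable {k : Type u} [Field k] {R : Type u} [CommRing R]

/-- The category of `k`-schemes: an affine scheme over `k` is the spectrum of a `k`-algebra. -/
lemma exists_aff (X : KSch k) (C : CommRingCat.{u}) (g : Spec C ⟶ X.left) :
    ∃ (_ : Algebra k C) (g' : Aff k C ⟶ X), g'.left = g := by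
  obtain ⟨φ, hφ⟩ : ∃ φ, Spec.map φ = g ≫ X.hom := ⟨_, Spec.map_preimage _⟩
  let : Algebra k C := φ.hom.toAlgebra
  exact ⟨inferInstance, Over.homMk g hφ.symm, rfl⟩

/-- Every point of a `k`-scheme is in the image of an open immersion from an affine `k`-scheme. -/
lemma exists_affine_chart (P : KSch k) (z : P.left) :
    ∃ (D : Type u) (_ : CommRing D) (_ : Algebra k D) (c : Aff k D ⟶ P)
      (_ : IsOpenImmersion c.left) (w : PrimeSpectrum D),
      c.left (show (Aff k D).left from w) = z := by
  obtain ⟨i, w, hw⟩ := P.left.affineOpenCover.openCover.exists_eq z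
  obtain ⟨inst, c, hc⟩ := exists_aff P (P.left.affineOpenCover.X i) (P.left.affineOpenCover.f i)
  have hco : IsOpenImmersion c.left := by
    rw [hc]
    exact P.left.affineOpenCover.map_prop i
  refine ⟨P.left.affineOpenCover.X i, inferInstance, inst, c, hco, w, ?_⟩
  rw [hc]
  exact hw

lemma smooth_of_isSmooth {A : Type u} [CommRing A] [Algebra k A] {X : Sm k} (g : Aff k A ⟶ X.sch)
    [Smooth g.left] : Algebra.Smooth k A := by
  have h1 : Smooth (Spec.map (CommRingCat.ofHom (algebraMap k A))) := by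
    have h2 : Spec.map (CommRingCat.ofHom (algebraMap k A)) = g.left ≫ X.sch.hom := (Over.w g).symm
    rw [h2]
    exact MorphismProperty.comp_mem @Smooth _ _ ‹_› X.smooth
  exact RingHom.smooth_algebraMap.1 ((HasRingHomProperty.Spec_iff (P := @Smooth)).1 h1)

/-- Every point of a smooth scheme is in the image of an open immersion from the spectrum of a
smooth domain. -/
lemma exists_chart (X : Sm k) (x : X.sch.left) :
    ∃ (A : Type u) (_ : CommRing A) (_ : IsDomain A) (_ : Algebra k A) (_ : Algebra.Smooth k A)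
      (g : Aff k A ⟶ X.sch) (_ : IsOpenImmersion g.left) (y : PrimeSpectrum A),
      g.left (show (Aff k A).left from y) = x := by
  obtain ⟨C, _, _, g, hgo, y, hy⟩ := exists_affine_chart X.sch x
  have hsm : Algebra.Smooth k C := smooth_of_isSmooth g
  obtain ⟨a, ha, hdom⟩ := H694.smooth_locally_domain (L := k) (A := C) y.asIdeal
  have hsm' : Algebra.Smooth k (Localization.Away a) := Algebra.Smooth.comp k C _
  obtain ⟨z, hz⟩ : ∃ z : PrimeSpectrum (Localization.Away a),
      PrimeSpectrum.comap (algebraMap C (Localization.Away a)) z = y := by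
    have h1 : y ∈ Set.range (PrimeSpectrum.comap (algebraMap C (Localization.Away a))) := by
      rw [PrimeSpectrum.localization_away_comap_range _ a]
      exact ha
    exact h1
  have ho : IsOpenImmersion (Aff.map (IsScalarTower.toAlgHom k C (Localization.Away a))).left :=
    inferInstanceAs (IsOpenImmersion (Spec.map (CommRingCat.ofHom
      (algebraMap C (Localization.Away a)))))
  refine ⟨Localization.Away a, inferInstance, hdom, inferInstance, hsm',
    Aff.map (IsScalarTower.toAlgHom k C (Localization.Away a)) ≫ g, ?_, z, ?_⟩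
  · rw [Over.comp_left]
    infer_instance
  · rw [Over.comp_left, Scheme.Hom.comp_apply]
    have h2 : (Aff.map (IsScalarTower.toAlgHom k C (Localization.Away a))).left z = y := hz
    rw [h2]
    exact hy

lemma exists_openLift {Y X U : KSch k} (f : Y ⟶ X) (j : U ⟶ X) [IsOpenImmersion j.left]
    (h : ∀ y, f.left y ∈ j.left.opensRange) : ∃ l : Y ⟶ U, l ≫ j = f := by
  have h' : Set.range f.left ⊆ Set.range j.left := by
    rintro _ ⟨y, rfl⟩
    exact h y
  have h2 : IsOpenImmersion.lift j.left f.left h' ≫ j.left = f.left :=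
    IsOpenImmersion.lift_fac _ _ _
  refine ⟨Over.homMk (IsOpenImmersion.lift j.left f.left h') ?_, ?_⟩
  · rw [← Over.w j, ← Category.assoc, h2]
    exact Over.w f
  · ext1
    exact h2

lemma aff_isOpen_of_subset {A : Type u} [CommRing A] [Algebra k A] {A' : Type u} [CommRing A']
    [Algebra k A'] (φ : A →ₐ[k] A') (f : A) (U : (Aff k A).left.Opens)
    (hU : ∀ x : PrimeSpectrum A, f ∉ x.asIdeal → (show (Aff k A).left from x) ∈ U)
    (x : PrimeSpectrum A') (hx : φ f ∉ x.asIdeal) :
    (show (Aff k A').left from x) ∈ (Aff.map φ).left ⁻¹ᵁ U :=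
  hU (PrimeSpectrum.comap φ.toRingHom x) hx

/-- A closed subfunctor of `Cor(-, Spec A)` which contains the inclusion of `D(f)` contains étale
neighbourhoods of every maximal ideal. -/
theorem dense_local [PerfectField k] {A : Type u} [CommRing A] [IsDomain A] [Algebra k A]
    [Algebra.Smooth k A] (M : Ideal A) [hM : M.IsMaximal] (f : A) (hf : f ≠ 0)
    (K : ClosedSub R (Sm.aff k A)) (U : (Aff k A).left.Opens)
    (hU : ∀ x : PrimeSpectrum A, f ∉ x.asIdeal → (show (Aff k A).left from x) ∈ U)
    (hK : Cor.graph (opensι (Aff k A) U) ∈ K.carrier ((Sm.aff k A).opens U)) :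
    ∃ (V : Sm k) (g : V.sch ⟶ Aff k A), Etale g.left ∧
      (∃ v, g.left v = (show (Aff k A).left from (⟨M, hM.isPrime⟩ : PrimeSpectrum A))) ∧
      Cor.graph g ∈ K.carrier V := by
  obtain ⟨L, _, _, _, A', _, _, _, _, _, M', hM', d, t, b, G, hLA, hMM, hML, ht, hint, htM, hMt,
    hZ, hG, hGf⟩ := H694.fas (k := k) M f hf
  let : Algebra k A' := ((algebraMap A A').comp (algebraMap k A)).toAlgebra
  have : IsScalarTower k A A' := IsScalarTower.of_algebraMap_eq fun _ => rfl
  have : IsScalarTower k L A' := IsScalarTower.of_algebraMap_eq fun c => (hLA c).symm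
  have : Algebra.Smooth k A' := Algebra.Smooth.comp k A A'
  let φ : A →ₐ[k] A' := IsScalarTower.toAlgHom k A A'
  let W : (Aff k A').left.Opens := (Aff.map φ).left ⁻¹ᵁ U
  let K' : ClosedSub R (Sm.aff k A') :=
    ClosedSub.comap (X := Sm.aff k A') (Y := Sm.aff k A) (Cor.graph (Aff.map φ)) K
  obtain ⟨V, hMV, hV⟩ := local_move (k := k) (R := R) (L := L) (A := A') (φ f) M' t b G hML ht hint
    htM hMt hZ hG hGf K' W (fun x hx => aff_isOpen_of_subset φ f U hU x hx) (by
      show (Cor.graph (opensι (Aff k A') W)).comp (Cor.graph (Aff.map φ)) ∈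
        K.carrier ((Sm.aff k A').opens W)
      have h1 : opensι (Aff k A') W ≫ Aff.map φ =
          liftOpens (opensι (Aff k A') W ≫ Aff.map φ) U (fun y => y.2) ≫ opensι (Aff k A) U :=
        (liftOpens_ι _ _ _).symm
      refine K.mem_of_eq (K.pull_mem (U := (Sm.aff k A).opens U) (V := (Sm.aff k A').opens W)
        (Cor.graph (liftOpens (opensι (Aff k A') W ≫ Aff.map φ) U (fun y => y.2))) hK) ?_
      exact (Cor.graph_comp_graph _ _).trans ((congrArg _ h1.symm).trans
        (Cor.graph_comp_graph _ _).symm))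
  refine ⟨(Sm.aff k A').opens V, opensι (Aff k A') V ≫ Aff.map φ, ?_, ?_, ?_⟩
  · have h1 : Etale (Aff.map φ).left :=
      (HasRingHomProperty.Spec_iff (P := @Etale)).2 (RingHom.etale_algebraMap.2 ‹_›)
    have h2 : Etale (opensι (Aff k A') V).left := inferInstance
    have h3 : Etale ((opensι (Aff k A') V).left ≫ (Aff.map φ).left) := inferInstance
    exact h3
  · refine ⟨⟨_, hMV⟩, ?_⟩
    refine PrimeSpectrum.ext ?_
    exact hMM
  · exact K.mem_of_eq hV (Cor.graph_comp_graph _ _)

lemma isMaximal_of_isClosed {A : Type u} [CommRing A] [Algebra k A] {X : KSch k}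
    (g : Aff k A ⟶ X) (hg : IsOpenImmersion g.left) (y : PrimeSpectrum A) (x : X.left)
    (hy : g.left (show (Aff k A).left from y) = x) (hx : IsClosed ({x} : Set X.left)) :
    y.asIdeal.IsMaximal := by
  rw [← PrimeSpectrum.isClosed_singleton_iff_isMaximal]
  have h1 : IsClosed (g.left ⁻¹' {x}) := hx.preimage g.left.continuous
  have h2 : (g.left ⁻¹' {x} : Set (Aff k A).left) = {(show (Aff k A).left from y)} := by
    ext z
    rw [Set.mem_preimage, Set.mem_singleton_iff, Set.mem_singleton_iff]
    exact ⟨fun h => g.left.isOpenEmbedding.injective (h.trans hy.symm), fun h => by rw [h]; exact hy⟩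
  rw [h2] at h1
  exact h1

/-- A family of étale morphisms which hits all closed points is an étale covering. -/
lemma isEtaleCovering_of_closedPoints {X : Sm k} {V : {x : X.sch.left // IsClosed {x}} → Sm k}
    {g : ∀ x, (V x).sch ⟶ X.sch} (hg : ∀ x, Etale (g x).left)
    (hv : ∀ x, ∃ v, (g x).left v = x.1) : IsEtaleCovering V g := by
  refine ⟨hg, fun x => ?_⟩
  by_contra hx
  let S : Set X.sch.left := ⋃ i, Set.range (g i).left
  have hS : IsOpen S := by
    refine isOpen_iUnion fun i => ?_
    have := hg i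
    exact (g i).left.isOpenMap.isOpen_range
  have hSx : x ∈ Sᶜ := by
    rintro hx'
    obtain ⟨i, v, hv⟩ := Set.mem_iUnion.1 hx'
    exact hx ⟨i, v, hv⟩
  have := X.isNoetherian
  obtain ⟨y, hyS, hy⟩ := hS.isClosed_compl.exists_closed_singleton ⟨x, hSx⟩
  obtain ⟨v, hv'⟩ := hv ⟨y, hy⟩
  exact hyS (Set.mem_iUnion.2 ⟨⟨y, hy⟩, v, hv'⟩)

/-- **Dense open subschemes.** Over a perfect field `h₀^{ét}(U) → h₀^{ét}(X)` is an epimorphism
for every dense open subscheme `U` of `X`. -/
theorem denseEpi [PerfectField k] : DenseEpi k R := by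
  intro X U j hj hd K hK
  refine ClosedSub.eq_top_of_id_mem ?_
  have key : ∀ x : {x : X.sch.left // IsClosed {x}}, ∃ (V : Sm k) (g : V.sch ⟶ X.sch),
      Etale g.left ∧ (∃ v, g.left v = x.1) ∧ Cor.graph g ∈ K.carrier V := by
    rintro ⟨x, hx⟩
    obtain ⟨A, _, _, _, _, g, hg, y, hy⟩ := exists_chart X x
    have hmax : y.asIdeal.IsMaximal := isMaximal_of_isClosed g hg y x hy hx
    -- a basic open subset which maps to `U`
    let T : (Aff k A).left.Opens := g.left ⁻¹ᵁ j.left.opensRange
    obtain ⟨z, hz⟩ : ∃ z : (Aff k A).left, z ∈ T := by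
      have h1 : (Set.range g.left : Set X.sch.left).Nonempty := ⟨_, y, rfl⟩
      obtain ⟨_, ⟨z, rfl⟩, hz⟩ := hd.inter_open_nonempty _ g.left.isOpenEmbedding.isOpen_range h1
      exact ⟨z, hz⟩
    obtain ⟨_, ⟨f, rfl⟩, hzf, hfT⟩ := (PrimeSpectrum.isTopologicalBasis_basic_opens
      (R := A)).exists_subset_of_mem_open (a := (show PrimeSpectrum A from z))
      (u := (T : Set (Aff k A).left)) hz T.isOpen
    have hf : f ≠ 0 := by
      rintro rfl
      exact hzf (Ideal.zero_mem _)
    have hU : ∀ x : PrimeSpectrum A, f ∉ x.asIdeal → (show (Aff k A).left from x) ∈ T :=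
      fun x hx => hfT hx
    let K' : ClosedSub R (Sm.aff k A) :=
      ClosedSub.comap (X := Sm.aff k A) (Y := X) (Cor.graph g) K
    have hT : ∀ w, (opensι (Aff k A) T ≫ g).left w ∈ j.left.opensRange := fun w => w.2
    obtain ⟨l, hl⟩ := exists_openLift (opensι (Aff k A) T ≫ g) j hT
    obtain ⟨V, g', hg', hv, hV⟩ := dense_local (k := k) (R := R) y.asIdeal f hf K' T hU (by
      show (Cor.graph (opensι (Aff k A) T)).comp (Cor.graph g) ∈ K.carrier ((Sm.aff k A).opens T)
      refine K.mem_of_eq (K.pull_mem (V := (Sm.aff k A).opens T) (Cor.graph l) hK) ?_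
      exact (Cor.graph_comp_graph _ _).trans ((congrArg _ hl).trans
        (Cor.graph_comp_graph _ _).symm))
    obtain ⟨v, hv⟩ := hv
    refine ⟨V, g' ≫ g, ?_, ⟨v, ?_⟩, ?_⟩
    · have h3 : Etale (g'.left ≫ g.left) := inferInstance
      exact h3
    · have h4 : (g' ≫ g).left v = g.left (g'.left v) := rfl
      rw [h4, hv]
      exact hy
    · exact K.mem_of_eq hV (Cor.graph_comp_graph _ _)
  choose V g hg hv hV using key
  refine K.local_mem (V := V) g (isEtaleCovering_of_closedPoints hg hv) fun x => ?_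
  rw [Cor.comp_id]
  exact hV x

end Pool.Agent.H694_ABV
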