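import Pool.Agent.H694_ABV.TopStep

/-!
# Smooth schemes of finite type have finite dimension
-/

open CategoryTheory AlgebraicGeometry Limits

universe u

namespace Pool.Agent.H694_ABV

variable {k : Type u} [Field k] {R : Type u} [CommRing R]

lemma exists_ringKrullDim_le_of_finiteType {K A : Type u} [Field K] [CommRing A] (f : K →+* A)
    (hf : f.FiniteType) : ∃ n : ℕ, ringKrullDim A ≤ n := by
  algebraize [f]
  obtain ⟨n, g, hg⟩ := Algebra.FiniteType.iff_quotient_mvPolynomial''.1
    (inferInstance : Algebra.FiniteType K A)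
  refine ⟨n, (ringKrullDim_le_of_surjective g.toRingHom hg).trans ?_⟩
  rw [MvPolynomial.ringKrullDim_of_isNoetherianRing, ringKrullDim_eq_zero_of_field, zero_add]
  simp

/-- A scheme which is quasi-compact and locally of finite type over a field has finite
dimension. -/
lemma exists_topologicalKrullDim_lt {X : Scheme.{u}} (f : X ⟶ Spec (CommRingCat.of k))
    [LocallyOfFiniteType f] [QuasiCompact f] : ∃ N : ℕ, topologicalKrullDim X < N := by
  have hc : CompactSpace X := QuasiCompact.compactSpace_of_compactSpace f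
  -- coheights are bounded locally
  have h1 : ∀ x : X, ∃ U : X.Opens, x ∈ U ∧ ∃ n : ℕ, ∀ y ∈ U, Order.coheight y ≤ (n : ℕ∞) := by
    intro x
    obtain ⟨_, ⟨U, hU, rfl⟩, hxU, -⟩ := X.isBasis_affineOpens.exists_subset_of_mem_open
      (Set.mem_univ x) isOpen_univ
    replace hU : IsAffineOpen U := hU
    have h2 : ((f.appLE ⊤ U (by simp)).hom).FiniteType :=
      f.finiteType_appLE (isAffineOpen_top _) hU _
    have h2' := h2.comp (RingHom.FiniteType.of_surjective
      (Scheme.ΓSpecIso (CommRingCat.of k)).commRingCatIsoToRingEquiv.symm.toRingHom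
      (Scheme.ΓSpecIso (CommRingCat.of k)).commRingCatIsoToRingEquiv.symm.surjective)
    obtain ⟨n, hn⟩ := exists_ringKrullDim_le_of_finiteType _ h2'
    refine ⟨U, hxU, n, fun y hy => ?_⟩
    have := hU.isOpenImmersion_fromSpec
    have h3 := coheight_eq_of_isOpenImmersion (x := hU.primeIdealOf ⟨y, hy⟩) hU.fromSpec
    rw [hU.fromSpec_primeIdealOf ⟨y, hy⟩] at h3
    have h3' := idealHeight_eq_coheight Γ(X, U) (IsAffineOpen.primeIdealOf hU ⟨y, hy⟩)
    rw [show Order.coheight y = _ from h3.trans h3'.symm]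
    have h4 := Ideal.height_le_ringKrullDim_of_ne_top
      (I := (hU.primeIdealOf ⟨y, hy⟩).asIdeal) Ideal.IsPrime.ne_top'
    exact_mod_cast h4.trans hn
  choose U hxU n hn using h1
  obtain ⟨t, ht⟩ := hc.elim_nhds_subcover (fun x => (U x : Set X))
    fun x => (U x).isOpen.mem_nhds (hxU x)
  refine ⟨t.sup n + 1, ?_⟩
  have h5 : ∀ y : X, Order.coheight y ≤ ((t.sup n : ℕ) : ℕ∞) := by
    intro y
    have hy : y ∈ ⋃ x ∈ t, (U x : Set X) := ht ▸ Set.mem_univ y
    simp only [Set.mem_iUnion] at hy
    obtain ⟨x, hx, hy⟩ := hy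
    exact (hn x y hy).trans (by exact_mod_cast Finset.le_sup hx)
  have h6 : topologicalKrullDim X = Order.krullDim X :=
    Order.krullDim_eq_of_orderIso irreducibleSetEquivPoints
  rw [h6, Order.krullDim_eq_iSup_coheight]
  refine lt_of_le_of_lt (b := ((t.sup n : ℕ) : WithBot ℕ∞)) (iSup_le fun y => ?_) ?_
  · exact_mod_cast h5 y
  · exact_mod_cast Nat.lt_succ_self _

lemma Sm.exists_dimLT (X : Sm k) : ∃ N : ℕ, X.DimLT N := by
  have : LocallyOfFiniteType X.sch.hom := inferInstance
  exact exists_topologicalKrullDim_lt X.sch.hom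

lemma Sm.DimLT.isEmpty {X : Sm k} (h : X.DimLT 0) : IsEmpty X.sch.left := by
  rw [← not_nonempty_iff]
  intro hne
  have h1 : topologicalKrullDim X.sch.left = Order.krullDim X.sch.left :=
    Order.krullDim_eq_of_orderIso irreducibleSetEquivPoints
  have h2 : topologicalKrullDim X.sch.left < ((0 : ℕ) : WithBot ℕ∞) := h
  rw [h1] at h2
  exact absurd h2 (not_lt.2 (by simpa using Order.krullDim_nonneg))

instance (E : AlgClosedExt k) : Nonempty E.pt.left :=
  inferInstanceAs (Nonempty (PrimeSpectrum E.Ω))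

lemma ClosedSub.top_eq_bot_of_dimLT_zero {X : Sm k} (h : X.DimLT 0) :
    (⊤ : ClosedSub R X) = ⊥ := by
  refine le_bot_iff.1 fun U φ _ => ?_
  have hX := h.isEmpty
  have h0 : φ = (0 : Cor R U.sch X.sch) := by
    refine Cor.ext fun E x => Finsupp.ext fun y => ?_
    exact (hX.false (y.left (Classical.arbitrary E.pt.left))).elim
  rw [h0]
  exact Submodule.zero_mem _

lemma kerBelow_zero (X : Sm k) : kerBelow R 0 X = ⊤ := by
  refine top_le_iff.1 fun U φ _ => mem_kerBelow.2 fun Y hY γ => ?_
  rw [← ClosedSub.top_eq_bot_of_dimLT_zero hY]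
  exact ClosedSub.mem_top

/-- **Filtrations with (A), (B) and (D).** They exist if and only if for every `X`, of dimension
`d` say, the quotient of `h₀^{ét}(X)` by the common kernel of all correspondences to smooth schemes
of dimension less than `d` is generated by the images of the `h₀^{ét}(Y)` with `dim Y < d`. -/
theorem exists_isFiltrationABD_iff :
    (∃ F : ∀ X : Sm k, ℕ → ClosedSub R X, IsFiltrationABD F) ↔
      ∀ (d : ℕ) (X : Sm k), topologicalKrullDim X.sch.left = d →
        GeneratedBelow d (kerBelow R d X) := by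
  constructor
  · rintro ⟨F, hF⟩ d X hX
    have h1 : ∀ n, F X n ≤ kerBelow R n X := fun n U φ hφ => mem_kerBelow.2 fun Y hY γ => by
      have := hF.functorial X Y γ n U hφ
      rwa [hF.vanish Y n hY] at this
    cases d with
    | zero =>
      intro G hG _
      rw [kerBelow_zero] at hG
      exact top_le_iff.1 hG
    | succ d => exact (hF.generated X d).mono (h1 _)
  · intro h
    refine ⟨fun X n => kerBelow R n X, fun X n => kerBelow_anti (Nat.le_succ n) X,
      kerBelow_zero, fun X n hX => kerBelow_eq_bot hX, fun X Y γ n => kerBelow_functorial n X Y γ,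
      fun X n => ?_⟩
    obtain ⟨N, hN⟩ := X.exists_dimLT
    exact generatedBelow_kerBelow h N _ X hN

end Pool.Agent.H694_ABV
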