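import Pool.Agent.H694_ABV.Exist
import Pool.Agent.H694_ABV.Clopen

/-!
# Disjoint unions, and the criterion with one condition
-/

open CategoryTheory AlgebraicGeometry Limits

universe u

namespace Pool.Agent.H694_ABV

variable {k : Type u} [Field k] {R : Type u} [CommRing R]

set_option backward.isDefEq.respectTransparency.types false in
lemma smooth_coprodDesc {X Y S : Scheme.{u}} (f : X ⟶ S) (g : Y ⟶ S) [hf : Smooth f]
    [hg : Smooth g] : Smooth (coprod.desc f g) := by
  rw [IsZariskiLocalAtSource.iff_of_openCover (P := @Smooth) (coprodOpenCover.{_, 0} X Y)]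
  rintro (⟨⟨⟩⟩ | ⟨⟨⟩⟩)
  · have h : (coprodOpenCover.{_, 0} X Y).f (Sum.inl PUnit.unit) ≫ coprod.desc f g = f :=
      coprod.inl_desc f g
    rw [h]
    exact hf
  · have h : (coprodOpenCover.{_, 0} X Y).f (Sum.inr PUnit.unit) ≫ coprod.desc f g = g :=
      coprod.inr_desc f g
    rw [h]
    exact hg

lemma coprodDesc_eq {X Y S : Scheme.{u}} (f : X ⟶ S) (g : Y ⟶ S) :
    coprod.desc f g = coprod.map f g ≫ coprod.desc (𝟙 S) (𝟙 S) := by
  rw [coprod.map_desc, Category.comp_id, Category.comp_id]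

lemma isSeparated_coprodDesc {X Y S : Scheme.{u}} (f : X ⟶ S) (g : Y ⟶ S) [IsSeparated f]
    [IsSeparated g] : IsSeparated (coprod.desc f g) := by
  rw [coprodDesc_eq]
  have : IsSeparated (coprod.map f g) :=
    IsZariskiLocalAtTarget.coprodMap (P := @IsSeparated) f g inferInstance inferInstance
  infer_instance

set_option backward.isDefEq.respectTransparency.types false in
lemma quasiCompact_coprodDesc {X Y S : Scheme.{u}} (f : X ⟶ S) (g : Y ⟶ S) [QuasiCompact f]
    [QuasiCompact g] : QuasiCompact (coprod.desc f g) := by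
  rw [coprodDesc_eq]
  have : QuasiCompact (coprod.map f g) :=
    IsZariskiLocalAtTarget.coprodMap (P := @QuasiCompact) f g inferInstance inferInstance
  infer_instance

/-- The disjoint union of two smooth schemes. -/
noncomputable def Sm.coprod (X Y : Sm k) : Sm k where
  sch := Over.mk (Limits.coprod.desc X.sch.hom Y.sch.hom)
  smooth := smooth_coprodDesc _ _
  separated := isSeparated_coprodDesc _ _
  quasiCompact := quasiCompact_coprodDesc _ _

/-- The first inclusion. -/
noncomputable def Sm.inl (X Y : Sm k) : X.sch ⟶ (X.coprod Y).sch :=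
  Over.homMk (U := X.sch) (V := (X.coprod Y).sch)
    (show X.sch.left ⟶ X.sch.left ⨿ Y.sch.left from Limits.coprod.inl)
    (Limits.coprod.inl_desc _ _)

/-- The second inclusion. -/
noncomputable def Sm.inr (X Y : Sm k) : Y.sch ⟶ (X.coprod Y).sch :=
  Over.homMk (U := Y.sch) (V := (X.coprod Y).sch)
    (show Y.sch.left ⟶ X.sch.left ⨿ Y.sch.left from Limits.coprod.inr)
    (Limits.coprod.inr_desc _ _)

instance (X Y : Sm k) : IsOpenImmersion (Sm.inl X Y).left :=
  inferInstanceAs (IsOpenImmersion (coprod.inl : X.sch.left ⟶ X.sch.left ⨿ Y.sch.left))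

instance (X Y : Sm k) : IsOpenImmersion (Sm.inr X Y).left :=
  inferInstanceAs (IsOpenImmersion (coprod.inr : Y.sch.left ⟶ X.sch.left ⨿ Y.sch.left))

lemma Sm.inl_ne_inr (X Y : Sm k) (x : X.sch.left) (y : Y.sch.left) :
    (Sm.inl X Y).left x ≠ (Sm.inr X Y).left y :=
  AlgebraicGeometry.inl_ne_inr _ _ x y

lemma Sm.exists_of_coprod (X Y : Sm k) (z : (X.coprod Y).sch.left) :
    (∃ x, (Sm.inl X Y).left x = z) ∨ ∃ y, (Sm.inr X Y).left y = z := by
  obtain ⟨x | y, rfl⟩ := (coprodMk X.sch.left Y.sch.left).surjective z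
  · exact Or.inl ⟨x, (coprodMk_inl _ _ x).symm⟩
  · exact Or.inr ⟨y, (coprodMk_inr _ _ y).symm⟩

/-- The dimension of a disjoint union. -/
lemma Sm.dim_coprod {X Y : Sm k} {d : ℕ} (hX : topologicalKrullDim X.sch.left = d)
    (hY : Y.DimLT d) : topologicalKrullDim (X.coprod Y).sch.left = d := by
  have h0 : ∀ Z : Scheme.{u}, topologicalKrullDim Z = ⨆ z : Z, (Order.coheight z : WithBot ℕ∞) :=
    fun Z => (Order.krullDim_eq_of_orderIso irreducibleSetEquivPoints).trans
      Order.krullDim_eq_iSup_coheight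
  have hX' := (h0 X.sch.left).symm.trans hX
  have hY' : topologicalKrullDim Y.sch.left < d := hY
  rw [h0] at hY'
  rw [h0]
  refine le_antisymm (iSup_le fun z => ?_) ?_
  · rcases Sm.exists_of_coprod X Y z with ⟨x, rfl⟩ | ⟨y, rfl⟩
    · rw [coheight_eq_of_isOpenImmersion (x := x) (Sm.inl X Y).left, ← hX']
      exact le_iSup (fun x : X.sch.left => (Order.coheight x : WithBot ℕ∞)) x
    · rw [coheight_eq_of_isOpenImmersion (x := y) (Sm.inr X Y).left]
      exact (le_iSup (fun y : Y.sch.left => (Order.coheight y : WithBot ℕ∞)) y).trans hY'.le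
  · rw [← hX']
    refine iSup_le fun x => ?_
    rw [← coheight_eq_of_isOpenImmersion (x := x) (Sm.inl X Y).left]
    exact le_iSup (fun z : (X.coprod Y).sch.left => (Order.coheight z : WithBot ℕ∞)) _

/-- The retractions of a disjoint union onto its pieces. -/
lemma Sm.exists_retractions (R : Type u) [CommRing R] (X Y : Sm k) :
    ∃ (ρ₁ : Cor R (X.coprod Y).sch X.sch) (ρ₂ : Cor R (X.coprod Y).sch Y.sch),
      (Cor.graph (Sm.inl X Y)).comp ρ₁ = Cor.graph (𝟙 _) ∧
      (Cor.graph (Sm.inl X Y)).comp ρ₂ = 0 ∧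
      (Cor.graph (Sm.inr X Y)).comp ρ₁ = 0 ∧
      (Cor.graph (Sm.inr X Y)).comp ρ₂ = Cor.graph (𝟙 _) ∧
      ρ₁.comp (Cor.graph (Sm.inl X Y)) + ρ₂.comp (Cor.graph (Sm.inr X Y)) = Cor.graph (𝟙 _) := by
  let T : ULift.{u} Bool → KSch k := fun i => if i.down then X.sch else Y.sch
  let l : ∀ i, T i ⟶ (X.coprod Y).sch := fun i => match i with
    | ⟨true⟩ => Sm.inl X Y
    | ⟨false⟩ => Sm.inr X Y
  have hrl : IsClosed (Set.range (Sm.inl X Y).left) := by
    have h1 : (Set.range (Sm.inl X Y).left)ᶜ = Set.range (Sm.inr X Y).left := by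
      ext s
      simp only [Set.mem_compl_iff]
      constructor
      · intro h
        rcases Sm.exists_of_coprod X Y s with h' | h'
        · exact absurd h' h
        · exact h'
      · rintro ⟨y, rfl⟩ ⟨x, hx⟩
        exact Sm.inl_ne_inr X Y x y hx
    rw [← isOpen_compl_iff, h1]
    exact (Sm.inr X Y).left.isOpenEmbedding.isOpen_range
  have hrr : IsClosed (Set.range (Sm.inr X Y).left) := by
    have h1 : (Set.range (Sm.inr X Y).left)ᶜ = Set.range (Sm.inl X Y).left := by
      ext s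
      simp only [Set.mem_compl_iff]
      constructor
      · intro h
        rcases Sm.exists_of_coprod X Y s with h' | h'
        · exact h'
        · exact absurd h' h
      · rintro ⟨x, rfl⟩ ⟨y, hy⟩
        exact Sm.inl_ne_inr X Y x y hy.symm
    rw [← isOpen_compl_iff, h1]
    exact (Sm.inl X Y).left.isOpenEmbedding.isOpen_range
  have hfin : ∀ i, IsFinite (l i).left := by
    rintro ⟨_ | _⟩
    · exact isFinite_of_clopen (Sm.inr X Y) hrr
    · exact isFinite_of_clopen (Sm.inl X Y) hrl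
  have hsurj : ∀ z : (X.coprod Y).sch.left, ∃ (i : ULift.{u} Bool) (t : (T i).left),
      (l i).left t = z := by
    intro z
    rcases Sm.exists_of_coprod X Y z with ⟨x, hx⟩ | ⟨y, hy⟩
    · exact ⟨⟨true⟩, x, hx⟩
    · exact ⟨⟨false⟩, y, hy⟩
  have m1 : Mono (Sm.inl X Y) := (Over.forget _).mono_of_mono_map
    (show Mono (Sm.inl X Y).left from inferInstance)
  have m2 : Mono (Sm.inr X Y) := (Over.forget _).mono_of_mono_map
    (show Mono (Sm.inr X Y).left from inferInstance)
  have hne : ∀ (E : AlgClosedExt k) (v : Pts E X.sch) (w : Pts E Y.sch),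
      v ≫ Sm.inl X Y ≠ w ≫ Sm.inr X Y := by
    intro E v w h
    exact Sm.inl_ne_inr X Y (v.left E.pnt) (w.left E.pnt) (congrArg (fun g => g.left E.pnt) h)
  obtain ⟨ρ₁, h₁⟩ := exists_cor (R := R) (X := (X.coprod Y).sch) (Y := X.sch) T l hfin hsurj
    (fun i => match i with
      | ⟨true⟩ => Finsupp.single (𝟙 X.sch) 1
      | ⟨false⟩ => 0) (by
    rintro E ⟨_ | _⟩ ⟨_ | _⟩ v w h
    · simp
    · exact absurd h.symm (hne E w v)
    · exact absurd h (hne E v w)
    · rw [(cancel_mono (Sm.inl X Y)).1 h])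
  obtain ⟨ρ₂, h₂⟩ := exists_cor (R := R) (X := (X.coprod Y).sch) (Y := Y.sch) T l hfin hsurj
    (fun i => match i with
      | ⟨true⟩ => 0
      | ⟨false⟩ => Finsupp.single (𝟙 Y.sch) 1) (by
    rintro E ⟨_ | _⟩ ⟨_ | _⟩ v w h
    · rw [(cancel_mono (Sm.inr X Y)).1 h]
    · exact absurd h.symm (hne E w v)
    · exact absurd h (hne E v w)
    · simp)
  have a1 : (Cor.graph (Sm.inl X Y)).comp ρ₁ = Cor.graph (𝟙 _) := by
    refine Cor.ext fun E v => ?_
    rw [Cor.graph_comp_val, Cor.graph_val]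
    refine (h₁ E ⟨true⟩ v).trans ?_
    exact Finsupp.mapDomain_single
  have a2 : (Cor.graph (Sm.inl X Y)).comp ρ₂ = 0 := by
    refine Cor.ext fun E v => ?_
    rw [Cor.graph_comp_val, Cor.zero_val]
    refine (h₂ E ⟨true⟩ v).trans ?_
    exact Finsupp.mapDomain_zero
  have a3 : (Cor.graph (Sm.inr X Y)).comp ρ₁ = 0 := by
    refine Cor.ext fun E v => ?_
    rw [Cor.graph_comp_val, Cor.zero_val]
    refine (h₁ E ⟨false⟩ v).trans ?_
    exact Finsupp.mapDomain_zero
  have a4 : (Cor.graph (Sm.inr X Y)).comp ρ₂ = Cor.graph (𝟙 _) := by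
    refine Cor.ext fun E v => ?_
    rw [Cor.graph_comp_val, Cor.graph_val]
    refine (h₂ E ⟨false⟩ v).trans ?_
    exact Finsupp.mapDomain_single
  refine ⟨ρ₁, ρ₂, a1, a2, a3, a4, ?_⟩
  refine Cor.ext fun E z => ?_
  rcases Sm.exists_of_coprod X Y (z.left E.pnt) with hz | hz
  · obtain ⟨v, rfl⟩ := exists_lift_pt (Sm.inl X Y) E z hz
    have e : ∀ α : Cor R (X.coprod Y).sch (X.coprod Y).sch,
        α.val E (v ≫ Sm.inl X Y) = ((Cor.graph (Sm.inl X Y)).comp α).val E v := fun α =>
      (Cor.graph_comp_val _ _ _ _).symm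
    rw [e, e, Cor.comp_add, ← Cor.comp_assoc, ← Cor.comp_assoc, a1, a2]
    rw [Cor.id_comp, Cor.comp_id]
    have h0 : (0 : Cor R X.sch Y.sch).comp (Cor.graph (Sm.inr X Y)) = 0 :=
      map_zero (Cor.compRight (Cor.graph (Sm.inr X Y)))
    rw [h0, add_zero]
  · obtain ⟨v, rfl⟩ := exists_lift_pt (Sm.inr X Y) E z hz
    have e : ∀ α : Cor R (X.coprod Y).sch (X.coprod Y).sch,
        α.val E (v ≫ Sm.inr X Y) = ((Cor.graph (Sm.inr X Y)).comp α).val E v := fun α =>
      (Cor.graph_comp_val _ _ _ _).symm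
    rw [e, e, Cor.comp_add, ← Cor.comp_assoc, ← Cor.comp_assoc, a3, a4]
    rw [Cor.id_comp, Cor.comp_id]
    have h0 : (0 : Cor R Y.sch X.sch).comp (Cor.graph (Sm.inl X Y)) = 0 :=
      map_zero (Cor.compRight (Cor.graph (Sm.inl X Y)))
    rw [h0, zero_add]

/-- The kernel of a retraction onto a scheme of small dimension has a quotient which is generated
in small dimension. -/
lemma GeneratedBelow.of_retraction {d : ℕ} {Z Y : Sm k} (hY : Y.DimLT d)
    (i : Cor R Y.sch Z.sch) (π : Cor R Z.sch Y.sch) (h : i.comp π = Cor.graph (𝟙 _)) :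
    GeneratedBelow d (ClosedSub.comap π ⊥) := by
  intro G hG hG'
  refine ClosedSub.eq_top_of_id_mem ?_
  have h1 : Cor.graph (𝟙 Z.sch) = (Cor.graph (𝟙 Z.sch) - π.comp i) + π.comp i :=
    (sub_add_cancel _ _).symm
  rw [h1]
  refine Submodule.add_mem _ (hG Z ?_) (G.pull_mem π (hG' Y hY i))
  rw [ClosedSub.mem_comap]
  have h2 : (Cor.graph (𝟙 Z.sch) - π.comp i).comp π = 0 := by
    have h3 := map_sub (Cor.compRight (R := R) (X := Z.sch) π) (Cor.graph (𝟙 Z.sch)) (π.comp i)
    simp only [Cor.compRight_apply] at h3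
    rw [h3, Cor.id_comp, Cor.comp_assoc, h, Cor.comp_id, sub_self]
  rw [h2]
  exact Submodule.zero_mem _

/-- If the smallest subobjects have quotients generated in dimension less than `d`, for all schemes
of dimension `d`, then they are killed by all correspondences to schemes of smaller dimension. -/
theorem minBelow_le_kerBelow {d : ℕ} {X : Sm k} (hd : topologicalKrullDim X.sch.left = d)
    (h : ∀ Z : Sm k, topologicalKrullDim Z.sch.left = d → GeneratedBelow d (minBelow R d Z)) :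
    minBelow R d X ≤ kerBelow R d X := by
  intro U φ hφ
  refine mem_kerBelow.2 fun Y hY γ => ?_
  obtain ⟨ρ₁, ρ₂, a1, a2, a3, a4, a5⟩ := Sm.exists_retractions R X Y
  have hZ := h _ (Sm.dim_coprod hd hY)
  -- the smallest subobject of the disjoint union
  have b1 : minBelow R d (X.coprod Y) ≤ ClosedSub.comap ρ₂ ⊥ :=
    minBelow_le (.of_retraction hY (Cor.graph (Sm.inr X Y)) ρ₂ a4)
  have b2 : minBelow R d (X.coprod Y) ≤ ClosedSub.comap (ρ₂ + ρ₁.comp γ) ⊥ := by
    refine minBelow_le (.of_retraction hY (Cor.graph (Sm.inr X Y)) _ ?_)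
    rw [Cor.comp_add, a4, ← Cor.comp_assoc, a3]
    have h0 : (0 : Cor R Y.sch X.sch).comp γ = 0 := map_zero (Cor.compRight γ)
    rw [h0, add_zero]
  have b3 : ∀ {T : Sm k} {ψ : Cor R T.sch (X.coprod Y).sch},
      ψ ∈ (minBelow R d (X.coprod Y)).carrier T →
        (ψ.comp ρ₁).comp γ ∈ (⊥ : ClosedSub R Y).carrier T := by
    intro T ψ hψ
    have c1 := b1 T hψ
    have c2 := b2 T hψ
    rw [ClosedSub.mem_comap] at c1 c2
    rw [Cor.comp_add] at c2
    have c3 := Submodule.sub_mem _ c2 c1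
    rw [add_sub_cancel_left] at c3
    rwa [Cor.comp_assoc]
  have b4 : minBelow R d X ≤
      ClosedSub.comap (Cor.graph (Sm.inl X Y)) (minBelow R d (X.coprod Y)) := by
    refine minBelow_le fun G hG hG' => ?_
    have c1 : ClosedSub.comap ρ₁ G = ⊤ := by
      refine hZ _ (fun T ψ hψ => ?_) fun W hW ψ => ?_
      · rw [ClosedSub.mem_comap]
        refine hG T ?_
        rw [ClosedSub.mem_comap]
        have c2 : (ψ.comp ρ₁).comp (Cor.graph (Sm.inl X Y)) =
            ψ - (ψ.comp ρ₂).comp (Cor.graph (Sm.inr X Y)) := by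
          rw [eq_sub_iff_add_eq, Cor.comp_assoc, Cor.comp_assoc, ← Cor.comp_add, a5, Cor.comp_id]
        rw [c2]
        refine Submodule.sub_mem _ hψ ?_
        have c3 := b1 T hψ
        rw [ClosedSub.mem_comap] at c3
        exact ClosedSub.bot_le_comap _ _ c3
      · rw [ClosedSub.mem_comap]
        exact hG' W hW _
    refine ClosedSub.eq_top_of_id_mem ?_
    have c4 : Cor.graph (𝟙 _) ∈ (ClosedSub.comap ρ₁ G).carrier (X.coprod Y) := by
      rw [c1]
      exact ClosedSub.mem_top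
    rw [ClosedSub.mem_comap, Cor.id_comp] at c4
    have c5 := G.pull_mem (Cor.graph (Sm.inl X Y)) c4
    rwa [a1] at c5
  have c0 : φ.comp (Cor.graph (Sm.inl X Y)) ∈ (minBelow R d (X.coprod Y)).carrier U := b4 U hφ
  have c1 := b3 c0
  have c2 : (φ.comp (Cor.graph (Sm.inl X Y))).comp ρ₁ = φ := by
    rw [Cor.comp_assoc, a1, Cor.comp_id]
  rwa [c2] at c1

/-- **The criterion with one condition.** -/
theorem exists_filtration_of_minBelow [PerfectField k] {N : ℕ∞}
    (h : ∀ (d : ℕ) (X : Sm k), X.DimBelow N → topologicalKrullDim X.sch.left = d →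
      GeneratedBelow d (minBelow R d X)) :
    ∃ F : ∀ X : Sm k, ℕ → ClosedSub R X, IsFiltrationBelow N F := by
  refine ⟨_, isFiltrationBelow_genFilt (R := R) (N := N) (𝒢 := fun _ => True)
    (fun m Y _ hYN hm => ⟨h m Y hYN hm, minBelow_le_kerBelow hm fun Z hZ => h m Z ?_ hZ⟩)
    fun X _ => ⟨PUnit, fun _ => X, fun _ => 𝟙 _, fun _ => ?_, fun _ => trivial, ?_⟩⟩
  · have h1 : topologicalKrullDim Y.sch.left < N := hYN
    rw [hm, ← hZ] at h1
    exact h1
  · exact (inferInstance : Etale (𝟙 X.sch.left))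
  · intro G hG
    exact ClosedSub.eq_top_of_id_mem (hG ⟨⟩)

end Pool.Agent.H694_ABV
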