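import Pool.Agent.H694_ABV.Sm

/-!
# Étale morphisms do not increase dimensions
-/

open CategoryTheory AlgebraicGeometry Limits

universe u

namespace Pool.Agent.H694_ABV

variable {k : Type u} [Field k]

lemma locallyQuasiFinite_of_etale {X Y : Scheme.{u}} (f : X ⟶ Y) [hf : Etale f] :
    LocallyQuasiFinite f := by
  rw [HasRingHomProperty.iff_appLE (P := @LocallyQuasiFinite)]
  intro U V e
  have h1 : (f.appLE U V e).hom.Etale := HasRingHomProperty.appLE @Etale f hf U V e
  algebraize [(f.appLE U V e).hom]
  show Algebra.QuasiFinite _ _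
  infer_instance

lemma krullDim_le_of_locallyQuasiFinite {X Y : Scheme.{u}} (f : X ⟶ Y) [LocallyQuasiFinite f] :
    topologicalKrullDim X ≤ topologicalKrullDim Y := by
  have h1 : topologicalKrullDim X = Order.krullDim X :=
    Order.krullDim_eq_of_orderIso irreducibleSetEquivPoints
  have h2 : topologicalKrullDim Y = Order.krullDim Y :=
    Order.krullDim_eq_of_orderIso irreducibleSetEquivPoints
  rw [h1, h2]
  refine Order.krullDim_le_of_strictMono (fun x : X => f x) ?_
  intro x y hxy
  have h3 : y ⤳ x := Scheme.le_iff_specializes.mp hxy.le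
  have h4 : f y ⤳ f x := h3.map f.continuous
  refine lt_of_le_not_ge (Scheme.le_iff_specializes.2 h4) fun h5 => ?_
  have h5' : f x = f y := ((Scheme.le_iff_specializes.1 h5).antisymm h4).eq
  have h6 := f.isDiscrete_preimage_singleton (f y)
  have h7 : DiscreteTopology (f ⁻¹' {f y}) := isDiscrete_iff_discreteTopology.1 h6
  have h8 : (⟨y, rfl⟩ : (f ⁻¹' {f y} : Set X)) ⤳ ⟨x, h5'⟩ :=
    Topology.IsInducing.subtypeVal.specializes_iff.1 h3
  have h9 : y = x := congrArg Subtype.val h8.eq
  exact hxy.ne h9.symm

lemma topologicalKrullDim_le_of_etale {U V : Sm k} (f : V.sch ⟶ U.sch) (hf : Etale f.left) :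
    topologicalKrullDim V.sch.left ≤ topologicalKrullDim U.sch.left :=
  have := locallyQuasiFinite_of_etale f.left
  krullDim_le_of_locallyQuasiFinite f.left

end Pool.Agent.H694_ABV
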