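import Pool.Agent.H694_ABV.Lifts

/-!
# Lifting correspondences along étale coverings: the general case
-/

open CategoryTheory AlgebraicGeometry Limits TensorProduct

universe u

namespace Pool.Agent.H694_ABV

variable {k : Type u} [Field k] {R : Type u} [CommRing R]

/-- A finite injective homomorphism from a domain stays finite and surjective on spectra after a
flat base change. -/
lemma finite_surjective_baseChange {A B A' : Type u} [CommRing A] [IsDomain A] [CommRing B]
    [CommRing A'] [Algebra A B] [Algebra A A'] [Module.Finite A B] [Module.Flat A A']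
    (hs : Function.Surjective (PrimeSpectrum.comap (algebraMap A B))) :
    (Algebra.TensorProduct.includeRight : A' →ₐ[A] B ⊗[A] A').toRingHom.Finite ∧
      Function.Surjective (PrimeSpectrum.comap
        (Algebra.TensorProduct.includeRight : A' →ₐ[A] B ⊗[A] A').toRingHom) := by
  have hfin : (Algebra.TensorProduct.includeRight : A' →ₐ[A] B ⊗[A] A').toRingHom.Finite := by
    have h1 : (algebraMap A' (A' ⊗[A] B)).Finite := RingHom.finite_algebraMap.2 inferInstance
    have h2 : (Algebra.TensorProduct.comm A A' B).toAlgHom.toRingHom.Finite :=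
      RingHom.Finite.of_surjective _ (Algebra.TensorProduct.comm A A' B).surjective
    have h3 := h2.comp h1
    have h4 : (Algebra.TensorProduct.comm A A' B).toAlgHom.toRingHom.comp
        (algebraMap A' (A' ⊗[A] B)) =
          (Algebra.TensorProduct.includeRight : A' →ₐ[A] B ⊗[A] A').toRingHom := by
      refine RingHom.ext fun a => ?_
      simp [Algebra.TensorProduct.algebraMap_apply]
    rwa [h4] at h3
  refine ⟨hfin, ?_⟩
  have hinj : Function.Injective (algebraMap A B) := by
    rw [injective_iff_map_eq_zero]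
    intro a ha
    obtain ⟨P, hP⟩ := hs ⊥
    have h1 : a ∈ (PrimeSpectrum.comap (algebraMap A B) P).asIdeal := by
      show algebraMap A B a ∈ P.asIdeal
      rw [ha]
      exact P.asIdeal.zero_mem
    rw [hP] at h1
    exact h1
  have hinj' : Function.Injective
      (Algebra.TensorProduct.includeRight : A' →ₐ[A] B ⊗[A] A').toRingHom :=
    Algebra.TensorProduct.includeRight_injective hinj
  exact hfin.to_isIntegral.comap_surjective hinj'

/-- Étale liftings near a closed point. -/
theorem exists_etaleLift [PerfectField k] {X Y : Sm k} (α : Cor R X.sch Y.sch) {I : Type u}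
    {Z : I → Sm k} {g : ∀ i, (Z i).sch ⟶ Y.sch} (hg : IsEtaleCovering Z g) (x : X.sch.left)
    (hx : IsClosed {x}) : ∃ (W : Sm k) (f : W.sch ⟶ X.sch), Etale f.left ∧
      (∃ w, f.left w = x) ∧ (Cor.graph f).comp α ∈ through g W := by
  obtain ⟨A, _, _, _, _, g₀, hg₀, y, B, _, _, q, J, _, h, r, hy, hq, hqs, hα⟩ :=
    exists_local_rep α x
  have hmax : y.asIdeal.IsMaximal := isMaximal_of_isClosed g₀ hg₀ y x hy hx
  obtain ⟨C, _, _, p, hp, h', c, hcp, hch, hinj⟩ := exists_support q hq Y.separated
    (inferInstance : LocallyOfFiniteType Y.sch.hom) h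
  obtain ⟨T, _, D, _, _, ψ, s, e, hψ, he, hcov⟩ := exists_affine_covering h' hg
  let : Algebra A C := p.toRingHom.toAlgebra
  let : Algebra A B := q.toRingHom.toAlgebra
  let : ∀ t, Algebra C (D t) := fun t => (ψ t).toRingHom.toAlgebra
  have : ∀ t, Algebra.Etale C (D t) := hψ
  have : Module.Finite A C := hp
  have : Module.Finite A B := hq
  have : IsScalarTower k A C := IsScalarTower.of_algebraMap_eq fun a => (p.commutes a).symm
  have : IsScalarTower k A B := IsScalarTower.of_algebraMap_eq fun a => (q.commutes a).symm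
  have : ∀ t, IsScalarTower k C (D t) := fun t =>
    IsScalarTower.of_algebraMap_eq fun a => ((ψ t).commutes a).symm
  have hsurj : Function.Surjective (PrimeSpectrum.comap (algebraMap C (∀ t, D t))) := by
    intro z
    obtain ⟨t, w, hw⟩ := hcov z
    exact ⟨PrimeSpectrum.comap (Pi.evalRingHom D t) w, hw⟩
  obtain ⟨A', _, _, _, m', hm', hlies, ⟨l₀⟩⟩ := H694.etale_section (k := k) (R := A) (C := C)
    (D := ∀ t, D t) hsurj y.asIdeal
  let : Algebra k A' := ((algebraMap A A').comp (algebraMap k A)).toAlgebra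
  have : IsScalarTower k A A' := IsScalarTower.of_algebraMap_eq fun _ => rfl
  have : Algebra.Smooth k A' := Algebra.Smooth.comp k A A'
  have : Module.Flat A A' := inferInstance
  obtain ⟨hqfin, hqsurj⟩ := finite_surjective_baseChange (A := A) (B := B) (A' := A') hqs
  let l : (∀ t, D t) →ₐ[k] C ⊗[A] A' := l₀.restrictScalars k
  let ι : C →ₐ[k] C ⊗[A] A' := Algebra.TensorProduct.includeLeft
  have hι : ∀ a, ι a = l (fun t => ψ t a) := fun a => (l₀.commutes a).symm
  let ιB : B →ₐ[k] B ⊗[A] A' := Algebra.TensorProduct.includeLeft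
  let q' : A' →ₐ[k] B ⊗[A] A' :=
    (Algebra.TensorProduct.includeRight : A' →ₐ[A] B ⊗[A] A').restrictScalars k
  let p' : A' →ₐ[k] C ⊗[A] A' :=
    (Algebra.TensorProduct.includeRight : A' →ₐ[A] C ⊗[A] A').restrictScalars k
  let a₀ : A →ₐ[k] A' := IsScalarTower.toAlgHom k A A'
  have hqa : q'.comp a₀ = ιB.comp q := by
    refine AlgHom.ext fun a => ?_
    show (1 : B) ⊗ₜ[A] (algebraMap A A' a) = (algebraMap A B a) ⊗ₜ[A] (1 : A')
    rw [Algebra.algebraMap_eq_smul_one, Algebra.algebraMap_eq_smul_one, TensorProduct.tmul_smul,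
      TensorProduct.smul_tmul']
  have hpa : p'.comp a₀ = ι.comp p := by
    refine AlgHom.ext fun a => ?_
    show (1 : C) ⊗ₜ[A] (algebraMap A A' a) = (algebraMap A C a) ⊗ₜ[A] (1 : A')
    rw [Algebra.algebraMap_eq_smul_one, Algebra.algebraMap_eq_smul_one, TensorProduct.tmul_smul,
      TensorProduct.smul_tmul']
  let cA : J → (C →ₐ[A] B) := fun j =>
    { (c j) with commutes' := fun a => DFunLike.congr_fun (hcp j) a }
  let c' : J → (C ⊗[A] A' →ₐ[k] B ⊗[A] A') := fun j =>
    (Algebra.TensorProduct.map (cA j) (AlgHom.id A A')).restrictScalars k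
  have hc'p : ∀ j, (c' j).comp p' = q' := by
    intro j
    refine AlgHom.ext fun a => ?_
    show Algebra.TensorProduct.map (cA j) (AlgHom.id A A') ((1 : C) ⊗ₜ[A] a) = (1 : B) ⊗ₜ[A] a
    rw [Algebra.TensorProduct.map_tmul, map_one]
    rfl
  have hc'ι : ∀ j, (c' j).comp ι = ιB.comp (c j) := by
    intro j
    refine AlgHom.ext fun a => ?_
    show Algebra.TensorProduct.map (cA j) (AlgHom.id A A') (a ⊗ₜ[A] (1 : A')) =
      (c j a) ⊗ₜ[A] (1 : A')
    rw [Algebra.TensorProduct.map_tmul, map_one]
    rfl
  obtain ⟨β, hβ⟩ := exists_factor_joint (R := R)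
    ((Cor.graph (Aff.map a₀ ≫ g₀)).comp α) (Aff.map q') (Aff.isFinite_map q' hqfin) hqsurj
    (fun j => Aff.map ιB ≫ h j) r (fun E v => by
      have h1 : v ≫ Aff.map q' ≫ Aff.map a₀ ≫ g₀ = (v ≫ Aff.map ιB) ≫ Aff.map q ≫ g₀ := by
        rw [← Category.assoc (Aff.map q'), ← Aff.map_comp, hqa, Aff.map_comp]
        simp only [Category.assoc]
      rw [Cor.graph_comp_val, Category.assoc, h1, hα]
      simp only [Category.assoc])
    (Aff.map p') (Aff.map ι ≫ h') (fun j => Aff.map (c' j)) (fun j => by
      rw [← Aff.map_comp, hc'p]) (fun j => by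
      rw [← Category.assoc, ← Aff.map_comp, hc'ι, Aff.map_comp, Category.assoc, hch])
    (fun E w w' h1 h2 => by
      have h3 : w ≫ Aff.map ι = w' ≫ Aff.map ι := by
        refine hinj _ _ _ ?_ ?_
        · rw [Category.assoc, Category.assoc, ← Aff.map_comp, ← hpa, Aff.map_comp,
            ← Category.assoc, ← Category.assoc, h1]
        · rw [Category.assoc, Category.assoc, h2]
      obtain ⟨z, rfl⟩ := Aff.pt_surjective E w
      obtain ⟨z', rfl⟩ := Aff.pt_surjective E w'
      rw [← Aff.pt_comp, ← Aff.pt_comp] at h1 h3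
      have h4 := Aff.pt_injective E h1
      have h5 := Aff.pt_injective E h3
      congr 1
      refine AlgHom.ext fun t => ?_
      induction t with
      | zero => simp
      | add a b ha hb => rw [map_add, map_add, ha, hb]
      | tmul a b =>
        have h6 : a ⊗ₜ[A] b = ι a * p' b := by
          show a ⊗ₜ[A] b = (a ⊗ₜ[A] (1 : A')) * ((1 : C) ⊗ₜ[A] b)
          rw [Algebra.TensorProduct.tmul_mul_tmul, mul_one, one_mul]
        rw [h6, map_mul, map_mul]
        exact congrArg₂ _ (DFunLike.congr_fun h5 a) (DFunLike.congr_fun h4 b))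
  refine ⟨Sm.aff k A', Aff.map a₀ ≫ g₀, ?_, ?_, ?_⟩
  · have h1 : Etale (Aff.map a₀).left :=
      (HasRingHomProperty.Spec_iff (P := @Etale)).2 (RingHom.etale_algebraMap.2 ‹_›)
    have h2 : Etale ((Aff.map a₀).left ≫ g₀.left) := inferInstance
    exact h2
  · refine ⟨(⟨m', hm'⟩ : PrimeSpectrum A'), ?_⟩
    have h1 : PrimeSpectrum.comap a₀.toRingHom ⟨m', hm'⟩ = y :=
      PrimeSpectrum.ext (m'.over_def y.asIdeal).symm
    exact (congrArg g₀.left h1).trans hy
  · have h9 : β.comp (Cor.graph (Aff.map ι ≫ h')) ∈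
        throughK (T := fun i => (Z i).sch) g (Aff k A') :=
      comp_mem_throughK β (graph_mem_throughK h' D ψ s e he l ι hι)
    rw [hβ] at h9
    exact h9

/-- **Étale liftings.** Over a perfect field, correspondences can be lifted along étale coverings,
étale locally on the source. -/
theorem etaleLift [PerfectField k] : EtaleLift k R := by
  intro X Y α I Z g hg
  choose W f hf hw hα using fun x : {x : X.sch.left // IsClosed {x}} =>
    exists_etaleLift (R := R) α hg x.1 x.2
  exact ⟨_, W, f, isEtaleCovering_of_closedPoints hf hw, hα⟩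

end Pool.Agent.H694_ABV
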