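import Pool.Agent.H694_ABV.Explicit
import Pool.Agent.H694_ABV.Dim
import Pool.Agent.H694_ABV.EtaleDim

/-!
# The criterion, from the geometric inputs
-/

open CategoryTheory AlgebraicGeometry Limits

universe u

namespace Pool.Agent.H694_ABV

variable {k : Type u} [Field k] {R : Type u} [CommRing R]

/-! ### Étale morphisms and dimension -/

lemma Sm.DimLT.of_etale {U V : Sm k} {n : ℕ} (h : U.DimLT n) (f : V.sch ⟶ U.sch)
    (hf : Etale f.left) : V.DimLT n :=
  lt_of_le_of_lt (topologicalKrullDim_le_of_etale f hf) h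

/-! ### The smallest subobjects with `n`-generated quotient -/

lemma minBelow_le {n : ℕ} {X : Sm k} {K : ClosedSub R X} (h : GeneratedBelow n K) :
    minBelow R n X ≤ K := sInf_le h

lemma minBelow_eq_bot {n : ℕ} {X : Sm k} (h : X.DimLT n) : minBelow R n X = ⊥ :=
  le_bot_iff.1 (minBelow_le (.of_dimLT h _))

variable (k R) in
/-- The criterion. -/
def Criterion : Prop :=
  ∀ (d : ℕ) (X : Sm k), topologicalKrullDim X.sch.left = d →
    GeneratedBelow d (minBelow R d X) ∧ minBelow R d X ≤ kerBelow R d X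

/-- The filtration generated by the images of the smallest subobjects. -/
noncomputable def topFilt (R : Type u) [CommRing R] (X : Sm k) (n : ℕ) : ClosedSub R X :=
  sSup {L | ∃ (Y : Sm k) (m : ℕ) (β : Cor R Y.sch X.sch), n ≤ m ∧
    topologicalKrullDim Y.sch.left = m ∧ L = ClosedSub.map β (minBelow R m Y)}

lemma le_topFilt {X Y : Sm k} {n m : ℕ} (β : Cor R Y.sch X.sch) (hnm : n ≤ m)
    (hY : topologicalKrullDim Y.sch.left = m) :
    ClosedSub.map β (minBelow R m Y) ≤ topFilt R X n :=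
  le_sSup ⟨Y, m, β, hnm, hY, rfl⟩

lemma topFilt_le {X : Sm k} {n : ℕ} {K : ClosedSub R X}
    (h : ∀ (Y : Sm k) (m : ℕ) (β : Cor R Y.sch X.sch), n ≤ m →
      topologicalKrullDim Y.sch.left = m → ClosedSub.map β (minBelow R m Y) ≤ K) :
    topFilt R X n ≤ K := by
  refine sSup_le ?_
  rintro _ ⟨Y, m, β, hnm, hY, rfl⟩
  exact h Y m β hnm hY

lemma ClosedSub.map_comp_le {X Y Z : Sm k} (β : Cor R Y.sch X.sch) (γ : Cor R X.sch Z.sch)
    (K : ClosedSub R Y) : ClosedSub.map (β.comp γ) K ≤ ClosedSub.map γ (ClosedSub.map β K) := by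
  refine ClosedSub.map_le_iff.2 fun U φ hφ => ?_
  rw [ClosedSub.mem_comap, ← Cor.comp_assoc]
  exact ClosedSub.le_comap_map γ _ U (ClosedSub.le_comap_map β K U hφ)

lemma ClosedSub.map_map {X Y Z : Sm k} (β : Cor R Y.sch X.sch) (γ : Cor R X.sch Z.sch)
    (K : ClosedSub R Y) : ClosedSub.map γ (ClosedSub.map β K) = ClosedSub.map (β.comp γ) K := by
  refine le_antisymm ?_ (ClosedSub.map_comp_le β γ K)
  refine ClosedSub.map_le_iff.2 (ClosedSub.map_le_iff.2 fun U φ hφ => ?_)
  rw [ClosedSub.mem_comap, ClosedSub.mem_comap, Cor.comp_assoc]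
  exact ClosedSub.le_comap_map _ K U hφ

lemma topFilt_functorial {X Z : Sm k} (γ : Cor R X.sch Z.sch) (n : ℕ) :
    topFilt R X n ≤ ClosedSub.comap γ (topFilt R Z n) := by
  refine topFilt_le fun Y m β hnm hY => ?_
  rw [← ClosedSub.map_le_iff, ClosedSub.map_map]
  exact le_topFilt _ hnm hY

lemma topFilt_anti {X : Sm k} {m n : ℕ} (h : m ≤ n) : topFilt R X n ≤ topFilt R X m :=
  topFilt_le fun _ _ β hnl hY => le_topFilt β (h.trans hnl) hY

lemma ClosedSub.bot_le_comap {X Y : Sm k} (γ : Cor R X.sch Y.sch) (K : ClosedSub R Y) {U : Sm k}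
    {φ : Cor R U.sch X.sch} (h : φ ∈ (⊥ : ClosedSub R X).carrier U) :
    φ.comp γ ∈ K.carrier U :=
  (bot_le : (⊥ : ClosedSub R X) ≤ ClosedSub.comap γ K) U h

section

variable (hC : Criterion k R)
include hC

lemma topFilt_vanish {X : Sm k} {n : ℕ} (hX : X.DimLT n) : topFilt R X n = ⊥ := by
  refine le_bot_iff.1 (topFilt_le fun Y m β hnm hY => ?_)
  refine ClosedSub.map_le_iff.2 (((hC m Y hY).2).trans ?_)
  exact sInf_le ⟨X, hX.mono hnm, β, rfl⟩

/-- The key induction. -/
lemma topFilt_generated (N : ℕ) (n : ℕ) (X : Sm k) (hX : X.DimLT N) :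
    GeneratedBelow n (topFilt R X n) := by
  induction N generalizing n X with
  | zero => exact .of_dimLT (hX.mono (Nat.zero_le _)) _
  | succ N ih =>
    by_cases hN : X.DimLT N
    · exact ih n X hN
    have hdim : topologicalKrullDim X.sch.left = N :=
      le_antisymm (le_of_lt_natCast_succ hX) (not_lt.1 hN)
    by_cases hn : X.DimLT n
    · exact .of_dimLT hn _
    have hnN : n ≤ N := by
      by_contra hlt
      exact hn (hX.mono (not_le.1 hlt))
    intro F hF hF'
    have h0 : minBelow R N X ≤ F := by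
      refine le_trans ?_ hF
      refine le_trans (fun U φ hφ => ?_) (le_topFilt (Cor.graph (𝟙 X.sch)) hnN hdim)
      have := ClosedSub.le_comap_map (Cor.graph (𝟙 X.sch)) (minBelow R N X) U hφ
      rwa [ClosedSub.mem_comap, Cor.comp_id] at this
    refine (hC N X hdim).1 F h0 fun Y hY β => ?_
    have h1 : ClosedSub.comap β F = ⊤ :=
      ih n Y hY _ (fun U φ hφ => hF U (topFilt_functorial β n U hφ)) fun Z hZ φ => hF' Z hZ _
    have h2 : Cor.graph (𝟙 Y.sch) ∈ (ClosedSub.comap β F).carrier Y := by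
      rw [h1]; exact ClosedSub.mem_top
    rw [ClosedSub.mem_comap, Cor.id_comp] at h2
    exact h2

lemma topFilt_generated' (n : ℕ) (X : Sm k) : GeneratedBelow n (topFilt R X n) := by
  obtain ⟨N, hN⟩ := X.exists_dimLT
  exact topFilt_generated hC N n X hN

lemma topFilt_zero (X : Sm k) : topFilt R X 0 = ⊤ :=
  topFilt_generated' hC 0 X _ le_rfl fun Y hY φ => by
    have := ClosedSub.top_eq_bot_of_dimLT_zero (R := R) hY
    have h1 : Cor.graph (𝟙 Y.sch) ∈ (⊤ : ClosedSub R Y).carrier Y := ClosedSub.mem_top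
    rw [this] at h1
    have h2 := ClosedSub.bot_le_comap φ (topFilt R X 0) h1
    rwa [Cor.id_comp] at h2

/-- The smallest subobject is covered by the smallest subobjects of the members of an étale
covering. -/
lemma minBelow_le_iSup {m : ℕ} {Y : Sm k} (hY : topologicalKrullDim Y.sch.left = m) {I : Type u}
    {V : I → Sm k} {g : ∀ i, (V i).sch ⟶ Y.sch} (hg : IsEtaleCovering V g) :
    minBelow R m Y ≤ ⨆ i, ClosedSub.map (Cor.graph (g i)) (minBelow R m (V i)) := by
  refine minBelow_le fun F hF hF' => ClosedSub.eq_top_of_id_mem (F.local_mem g hg fun i => ?_)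
  rw [Cor.comp_id]
  by_cases hV : (V i).DimLT m
  · exact hF' (V i) hV _
  have hVdim : topologicalKrullDim (V i).sch.left = m :=
    le_antisymm ((topologicalKrullDim_le_of_etale (g i) (hg.etale i)).trans hY.le) (not_lt.1 hV)
  have h1 : ClosedSub.comap (Cor.graph (g i)) F = ⊤ := by
    refine (hC m (V i) hVdim).1 _ ?_ fun Z hZ φ => hF' Z hZ _
    rw [← ClosedSub.map_le_iff]
    exact (le_iSup (fun i => ClosedSub.map (Cor.graph (g i)) (minBelow R m (V i))) i).trans hF
  have h2 : Cor.graph (𝟙 (V i).sch) ∈ (ClosedSub.comap (Cor.graph (g i)) F).carrier (V i) := by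
    rw [h1]; exact ClosedSub.mem_top
  rw [ClosedSub.mem_comap, Cor.id_comp] at h2
  exact h2

lemma topFilt_strict (hEL : EtaleLift k R) (hDE : DenseEpi k R) (U X : Sm k)
    (j : U.sch ⟶ X.sch) (hj : IsOpenImmersion j.left) (hj' : Dense (Set.range j.left)) (n : ℕ) :
    ClosedSub.map (Cor.graph j) (topFilt R U n) =
      ClosedSub.map (Cor.graph j) ⊤ ⊓ topFilt R X n := by
  have htop : ClosedSub.map (R := R) (Cor.graph j) ⊤ = ⊤ := by
    refine hDE X U j hj hj' _ ?_
    have := ClosedSub.le_comap_map (R := R) (Cor.graph j) ⊤ U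
      (x := Cor.graph (𝟙 U.sch)) ClosedSub.mem_top
    rwa [ClosedSub.mem_comap, Cor.id_comp] at this
  rw [htop, top_inf_eq]
  refine le_antisymm (ClosedSub.map_le_iff.2 (topFilt_functorial _ n)) ?_
  refine topFilt_le fun Y m β hnm hY => ?_
  -- lift `β` to `U`, étale locally
  obtain ⟨I, V, g, hg, hg'⟩ := exists_covering_of_generates hEL (⊥ : ClosedSub R X)
    (fun T => LinearMap.range (Cor.compRight (R := R) (X := T.sch) (Cor.graph j)))
    (by
      rintro T T' δ _ ⟨ε, rfl⟩
      exact ⟨δ.comp ε, by simp [Cor.comp_assoc]⟩)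
    (fun F _ hF => hDE X U j hj hj' F (hF U ⟨Cor.graph (𝟙 _), by simp⟩)) Y β
  refine ClosedSub.map_le_iff.2 ((minBelow_le_iSup hC hY hg).trans ?_)
  refine iSup_le fun i => ?_
  rw [← ClosedSub.map_le_iff, ClosedSub.map_map, ClosedSub.map_le_iff]
  intro T φ hφ
  rw [ClosedSub.mem_comap]
  by_cases hV : (V i).DimLT m
  · rw [minBelow_eq_bot hV] at hφ
    exact ClosedSub.bot_le_comap _ _ hφ
  have hVdim : topologicalKrullDim (V i).sch.left = m :=
    le_antisymm ((topologicalKrullDim_le_of_etale (g i) (hg.etale i)).trans hY.le) (not_lt.1 hV)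
  obtain ⟨a, ha, _, ⟨ε, rfl⟩, hab⟩ := Submodule.mem_sup.1 (hg' i)
  rw [← hab, Cor.comp_add]
  refine Submodule.add_mem _ ?_ ?_
  · -- the part which is zero in `h₀`
    have h1 := (⊥ : ClosedSub R X).pull_mem φ ha
    exact (bot_le : (⊥ : ClosedSub R X) ≤ _) T h1
  · rw [Cor.compRight_apply, ← Cor.comp_assoc]
    refine ClosedSub.le_comap_map (Cor.graph j) (topFilt R U n) T ?_
    refine le_topFilt ε hnm hVdim T ?_
    exact ClosedSub.le_comap_map ε _ T hφ

/-- The criterion implies the existence of the filtrations. -/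
theorem isFiltration_topFilt (hEL : EtaleLift k R) (hDE : DenseEpi k R) :
    IsFiltration (fun (X : Sm k) n => topFilt R X n) where
  antitone _ n := topFilt_anti (Nat.le_succ n)
  zero := topFilt_zero hC
  vanish _ _ hX := topFilt_vanish hC hX
  functorial _ _ γ n := topFilt_functorial γ n
  generated X n := topFilt_generated' hC (n + 1) X
  strict := topFilt_strict hC hEL hDE

end

/-! ### The converse -/

section

variable {F : ∀ X : Sm k, ℕ → ClosedSub R X} (hF : IsFiltration F)
include hF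

lemma IsFiltration.generatedBelow (X : Sm k) (n : ℕ) : GeneratedBelow n (F X n) := by
  cases n with
  | zero =>
    intro G hG _
    rw [hF.zero] at hG
    exact top_le_iff.1 hG
  | succ n => exact hF.generated X n

lemma IsFiltration.le_iSup_map (hDE : DenseEpi k R) (hET : EtaleTransfer k R) (n : ℕ) {U : Sm k}
    {I : Type u} {V : I → Sm k} {f : ∀ i, (V i).sch ⟶ U.sch} (hf : IsEtaleCovering V f) :
    F U n ≤ ⨆ i, ClosedSub.map (Cor.graph (f i)) (F (V i) n) := by
  obtain ⟨U₀, j, hj, hj', hj''⟩ := hET U I V f hf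
  have htop : ClosedSub.map (R := R) (Cor.graph j) ⊤ = ⊤ := by
    refine hDE U U₀ j hj hj' _ ?_
    have := ClosedSub.le_comap_map (R := R) (Cor.graph j) ⊤ U₀
      (x := Cor.graph (𝟙 U₀.sch)) ClosedSub.mem_top
    rwa [ClosedSub.mem_comap, Cor.id_comp] at this
  have h1 := hF.strict U₀ U j hj hj' n
  rw [htop, top_inf_eq] at h1
  rw [← h1]
  refine ClosedSub.map_le_iff.2 fun T φ hφ => ?_
  rw [ClosedSub.mem_comap]
  set K := ⨆ i, ClosedSub.map (Cor.graph (f i)) (F (V i) n) with hK
  have h2 : through (R := R) f U₀ ≤ (K.carrier T).comap (Cor.compLeft φ) := by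
    refine through_le fun i δ => ?_
    rw [Submodule.mem_comap, Cor.compLeft_apply, ← Cor.comp_assoc]
    have h3 : ClosedSub.map (Cor.graph (f i)) (F (V i) n) ≤ K :=
      le_iSup (fun i => ClosedSub.map (Cor.graph (f i)) (F (V i) n)) i
    refine h3 T (ClosedSub.le_comap_map (Cor.graph (f i)) (F (V i) n) T ?_)
    exact hF.functorial U₀ (V i) δ n T hφ
  exact h2 hj''

/-- The filtration is given by the smallest subobjects. -/
theorem IsFiltration.eq_minBelow (hEL : EtaleLift k R) (hDE : DenseEpi k R)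
    (hET : EtaleTransfer k R) (X : Sm k) (n : ℕ) : F X n = minBelow R n X := by
  refine le_antisymm ?_ (minBelow_le (hF.generatedBelow X n))
  refine le_sInf fun K hK => ?_
  -- the correspondences which factor through small dimensions
  let S : ∀ U : Sm k, Submodule R (Cor R U.sch X.sch) := fun U =>
    Submodule.span R {φ | ∃ (Y : Sm k) (_ : Y.DimLT n) (δ : Cor R U.sch Y.sch)
      (β : Cor R Y.sch X.sch), φ = δ.comp β}
  obtain ⟨I, V, f, hf, hf'⟩ := exists_covering_of_generates hEL K S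
    (by
      intro U V δ φ hφ
      have : S U ≤ (S V).comap (Cor.compLeft δ) := by
        refine Submodule.span_le.2 ?_
        rintro _ ⟨Y, hY, ε, β, rfl⟩
        exact Submodule.subset_span ⟨Y, hY, δ.comp ε, β, by simp [Cor.comp_assoc]⟩
      exact this hφ)
    (fun G hKG hG => hK G hKG fun Y hY φ => hG Y
      (Submodule.subset_span ⟨Y, hY, Cor.graph (𝟙 _), φ, by simp⟩)) X (Cor.graph (𝟙 X.sch))
  refine (hF.le_iSup_map hDE hET n hf).trans (iSup_le fun i => ClosedSub.map_le_iff.2 ?_)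
  intro T φ hφ
  rw [ClosedSub.mem_comap]
  have h1 := hf' i
  rw [Cor.comp_id] at h1
  have h2 : K.carrier (V i) ⊔ S (V i) ≤ (K.carrier T).comap (Cor.compLeft φ) := by
    refine sup_le (fun ψ hψ => K.pull_mem φ hψ) (Submodule.span_le.2 ?_)
    rintro _ ⟨Y, hY, δ, β, rfl⟩
    show φ.comp (δ.comp β) ∈ K.carrier T
    rw [← Cor.comp_assoc]
    refine ClosedSub.bot_le_comap _ _ ?_
    have := hF.functorial (V i) Y δ n T hφ
    rwa [hF.vanish Y n hY] at this
  exact h2 h1

theorem IsFiltration.criterion (hEL : EtaleLift k R) (hDE : DenseEpi k R)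
    (hET : EtaleTransfer k R) : Criterion k R := by
  intro d X hX
  rw [← hF.eq_minBelow hEL hDE hET X d]
  refine ⟨hF.generatedBelow X d, le_sInf ?_⟩
  rintro _ ⟨Y, hY, γ, rfl⟩
  have := hF.functorial X Y γ d
  rwa [hF.vanish Y d hY] at this

end

/-- The criterion. -/
theorem exists_isFiltration_iff (hEL : EtaleLift k R) (hDE : DenseEpi k R)
    (hET : EtaleTransfer k R) :
    (∃ F : ∀ X : Sm k, ℕ → ClosedSub R X, IsFiltration F) ↔ Criterion k R :=
  ⟨fun ⟨_, hF⟩ => hF.criterion hEL hDE hET, fun hC => ⟨_, isFiltration_topFilt hC hEL hDE⟩⟩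

end Pool.Agent.H694_ABV
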