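import Pool.Agent.H694_ABV.Crit
import Pool.Agent.H694_ABV.Main

/-!
# Construction of the filtrations
-/

open CategoryTheory AlgebraicGeometry Limits

universe u

namespace Pool.Agent.H694_ABV

variable {k : Type u} [Field k] {R : Type u} [CommRing R]

/-- The family of morphisms `f` induces an epimorphism from the sum of the `h₀^{ét}(V i)` to
`h₀^{ét}(X)`. -/
def EpiFamily (R : Type u) [CommRing R] {X : Sm k} {I : Type u} {V : I → Sm k}
    (f : ∀ i, (V i).sch ⟶ X.sch) : Prop :=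
  ∀ G : ClosedSub R X, (∀ i, Cor.graph (f i) ∈ G.carrier (V i)) → G = ⊤

lemma IsEtaleCovering.epiFamily {X : Sm k} {I : Type u} {V : I → Sm k}
    {f : ∀ i, (V i).sch ⟶ X.sch} (hf : IsEtaleCovering V f) : EpiFamily R f := fun G hG =>
  ClosedSub.eq_top_of_id_mem (G.local_mem f hf fun i => by
    rw [Cor.comp_id]
    exact hG i)

lemma EpiFamily.comp {X : Sm k} {I : Type u} {V : I → Sm k} {f : ∀ i, (V i).sch ⟶ X.sch}
    (hf : EpiFamily R f) {J : I → Type u} {W : ∀ i, J i → Sm k}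
    {g : ∀ i j, (W i j).sch ⟶ (V i).sch} (hg : ∀ i, EpiFamily R (g i)) :
    EpiFamily R (V := fun p : Σ i, J i => W p.1 p.2) (fun p => g p.1 p.2 ≫ f p.1) := by
  intro G hG
  refine hf G fun i => ?_
  have h1 : ClosedSub.comap (Cor.graph (f i)) G = ⊤ := hg i _ fun j => by
    rw [ClosedSub.mem_comap, Cor.graph_comp_graph]
    exact hG ⟨i, j⟩
  have h2 : Cor.graph (𝟙 (V i).sch) ∈ (ClosedSub.comap (Cor.graph (f i)) G).carrier (V i) := by
    rw [h1]
    exact ClosedSub.mem_top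
  rwa [ClosedSub.mem_comap, Cor.id_comp] at h2

/-- The filtration generated by the images of the smallest subobjects, for a class `𝒢` of smooth
schemes. -/
noncomputable def genFilt (R : Type u) [CommRing R] (N : ℕ∞) (𝒢 : Sm k → Prop) (X : Sm k) (n : ℕ) :
    ClosedSub R X :=
  sSup {L | ∃ (Y : Sm k) (m : ℕ) (β : Cor R Y.sch X.sch), 𝒢 Y ∧ Y.DimBelow N ∧ n ≤ m ∧
    topologicalKrullDim Y.sch.left = m ∧ L = ClosedSub.map β (minBelow R m Y)}

section

variable {N : ℕ∞} {𝒢 : Sm k → Prop}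

lemma le_genFilt {X Y : Sm k} {n m : ℕ} (β : Cor R Y.sch X.sch) (hGY : 𝒢 Y)
    (hYN : Y.DimBelow N) (hnm : n ≤ m) (hY : topologicalKrullDim Y.sch.left = m) :
    ClosedSub.map β (minBelow R m Y) ≤ genFilt R N 𝒢 X n :=
  le_sSup ⟨Y, m, β, hGY, hYN, hnm, hY, rfl⟩

lemma genFilt_le {X : Sm k} {n : ℕ} {K : ClosedSub R X}
    (h : ∀ (Y : Sm k) (m : ℕ) (β : Cor R Y.sch X.sch), 𝒢 Y → Y.DimBelow N → n ≤ m →
      topologicalKrullDim Y.sch.left = m → ClosedSub.map β (minBelow R m Y) ≤ K) :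
    genFilt R N 𝒢 X n ≤ K := by
  refine sSup_le ?_
  rintro _ ⟨Y, m, β, hGY, hYN, hnm, hY, rfl⟩
  exact h Y m β hGY hYN hnm hY

lemma genFilt_functorial {X Z : Sm k} (γ : Cor R X.sch Z.sch) (n : ℕ) :
    genFilt R N 𝒢 X n ≤ ClosedSub.comap γ (genFilt R N 𝒢 Z n) := by
  refine genFilt_le fun Y m β hGY hYN hnm hY => ?_
  rw [← ClosedSub.map_le_iff, ClosedSub.map_map]
  exact le_genFilt _ hGY hYN hnm hY

lemma genFilt_anti {X : Sm k} {m n : ℕ} (h : m ≤ n) :
    genFilt R N 𝒢 X n ≤ genFilt R N 𝒢 X m :=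
  genFilt_le fun _ _ β hGY hYN hnl hY => le_genFilt β hGY hYN (h.trans hnl) hY

lemma exists_dim {X : Sm k} (n : ℕ) (hX : ¬ X.DimLT n) :
    ∃ m : ℕ, n ≤ m ∧ topologicalKrullDim X.sch.left = m := by
  obtain ⟨M, hM⟩ := X.exists_dimLT
  have h1 : ∀ M : ℕ, X.DimLT M → ∃ m : ℕ, n ≤ m ∧ topologicalKrullDim X.sch.left = m := by
    intro M
    induction M with
    | zero => exact fun h => absurd (h.mono (Nat.zero_le n)) hX
    | succ M ih =>
      intro h
      by_cases hM : X.DimLT M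
      · exact ih hM
      · have h2 : topologicalKrullDim X.sch.left = M :=
          le_antisymm (le_of_lt_natCast_succ h) (not_lt.1 hM)
        refine ⟨M, ?_, h2⟩
        by_contra hlt
        exact hX (h.mono (not_le.1 hlt))
  exact h1 M hM

variable (hC : ∀ (m : ℕ) (Y : Sm k), 𝒢 Y → Y.DimBelow N → topologicalKrullDim Y.sch.left = m →
    Crit R m Y)
include hC

lemma genFilt_vanish {X : Sm k} {n : ℕ} (hX : X.DimLT n) : genFilt R N 𝒢 X n = ⊥ := by
  refine le_bot_iff.1 (genFilt_le fun Y m β hGY hYN hnm hY => ?_)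
  refine ClosedSub.map_le_iff.2 (((hC m Y hGY hYN hY).2).trans ?_)
  exact sInf_le ⟨X, hX.mono hnm, β, rfl⟩

/-- The key induction. -/
lemma genFilt_generated (hcov : ∀ X : Sm k, X.DimBelow N → ∃ (I : Type u) (V : I → Sm k)
      (f : ∀ i, (V i).sch ⟶ X.sch), (∀ i, Etale (f i).left) ∧ (∀ i, 𝒢 (V i)) ∧ EpiFamily R f)
    (M : ℕ) (n : ℕ) (X : Sm k) (hXN : X.DimBelow N) (hX : X.DimLT M) :
    GeneratedBelow n (genFilt R N 𝒢 X n) := by
  induction M generalizing n X with
  | zero => exact .of_dimLT (hX.mono (Nat.zero_le _)) _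
  | succ M ih =>
    intro F hF hF'
    obtain ⟨I, V, f, hf, hG, hepi⟩ := hcov X hXN
    refine hepi F fun i => ?_
    by_cases hn : (V i).DimLT n
    · exact hF' (V i) hn _
    obtain ⟨m, hnm, hm⟩ := exists_dim n hn
    have hVN : (V i).DimBelow N := hXN.of_etale (f i) (hf i)
    have hVM : (V i).DimLT (M + 1) :=
      lt_of_le_of_lt (topologicalKrullDim_le_of_etale (f i) (hf i)) hX
    have hmM : m ≤ M := by
      have h1 : ((m : ℕ) : WithBot ℕ∞) < ((M + 1 : ℕ) : WithBot ℕ∞) := hm ▸ hVM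
      exact Nat.lt_succ_iff.1 (by exact_mod_cast h1)
    have h0 : ClosedSub.comap (Cor.graph (f i)) F = ⊤ := by
      refine (hC m (V i) (hG i) hVN hm).1 _ ?_ fun Y hY β => ?_
      · rw [← ClosedSub.map_le_iff]
        exact (le_genFilt _ (hG i) hVN hnm hm).trans hF
      · have hYN : Y.DimBelow N := hVN.of_dimLT hm hY
        have h1 : ClosedSub.comap (β.comp (Cor.graph (f i))) F = ⊤ :=
          ih n Y hYN (hY.mono hmM) _ (fun U φ hφ => hF U (genFilt_functorial _ n U hφ))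
            fun Z hZ φ => hF' Z hZ _
        have h2 : Cor.graph (𝟙 Y.sch) ∈
            (ClosedSub.comap (β.comp (Cor.graph (f i))) F).carrier Y := by
          rw [h1]; exact ClosedSub.mem_top
        rwa [ClosedSub.mem_comap, Cor.id_comp] at h2
    have h2 : Cor.graph (𝟙 (V i).sch) ∈ (ClosedSub.comap (Cor.graph (f i)) F).carrier (V i) := by
      rw [h0]; exact ClosedSub.mem_top
    rwa [ClosedSub.mem_comap, Cor.id_comp] at h2

/-- The smallest subobject is covered by the smallest subobjects of the members of an epimorphic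
étale family. -/
lemma minBelow_le_iSup' {m : ℕ} {Y : Sm k} (hYN : Y.DimBelow N)
    (hY : topologicalKrullDim Y.sch.left = m) {I : Type u}
    {V : I → Sm k} {g : ∀ i, (V i).sch ⟶ Y.sch} (hg : ∀ i, Etale (g i).left)
    (hG : ∀ i, 𝒢 (V i)) (hepi : EpiFamily R g) :
    minBelow R m Y ≤ ⨆ i, ClosedSub.map (Cor.graph (g i)) (minBelow R m (V i)) := by
  refine minBelow_le fun F hF hF' => hepi F fun i => ?_
  by_cases hV : (V i).DimLT m
  · exact hF' (V i) hV _
  have hVdim : topologicalKrullDim (V i).sch.left = m :=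
    le_antisymm ((topologicalKrullDim_le_of_etale (g i) (hg i)).trans hY.le) (not_lt.1 hV)
  have h1 : ClosedSub.comap (Cor.graph (g i)) F = ⊤ := by
    refine (hC m (V i) (hG i) (hYN.of_etale (g i) (hg i)) hVdim).1 _ ?_ fun Z hZ φ => hF' Z hZ _
    rw [← ClosedSub.map_le_iff]
    exact (le_iSup (fun i => ClosedSub.map (Cor.graph (g i)) (minBelow R m (V i))) i).trans hF
  have h2 : Cor.graph (𝟙 (V i).sch) ∈ (ClosedSub.comap (Cor.graph (g i)) F).carrier (V i) := by
    rw [h1]; exact ClosedSub.mem_top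
  rw [ClosedSub.mem_comap, Cor.id_comp] at h2
  exact h2

lemma genFilt_strict [PerfectField k]
    (hcov : ∀ X : Sm k, X.DimBelow N → ∃ (I : Type u) (V : I → Sm k)
      (f : ∀ i, (V i).sch ⟶ X.sch), (∀ i, Etale (f i).left) ∧ (∀ i, 𝒢 (V i)) ∧ EpiFamily R f)
    (U X : Sm k) (j : U.sch ⟶ X.sch) (hj : IsDenseOpen j) (n : ℕ) :
    ClosedSub.map (Cor.graph j) (genFilt R N 𝒢 U n) =
      ClosedSub.map (Cor.graph j) ⊤ ⊓ genFilt R N 𝒢 X n := by
  rw [ClosedSub.map_top_of_dense hj, top_inf_eq]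
  refine le_antisymm (ClosedSub.map_le_iff.2 (genFilt_functorial _ n)) ?_
  refine genFilt_le fun Y m β hGY hYN hnm hY => ?_
  -- lift `β` to `U`, étale locally
  obtain ⟨I, V, g, hg, hg'⟩ := exists_covering_of_generates etaleLift (⊥ : ClosedSub R X)
    (fun T => LinearMap.range (Cor.compRight (R := R) (X := T.sch) (Cor.graph j)))
    (by
      rintro T T' δ _ ⟨ε, rfl⟩
      exact ⟨δ.comp ε, by simp [Cor.comp_assoc]⟩)
    (fun F _ hF => F.eq_top_of_dense hj (hF U ⟨Cor.graph (𝟙 _), by simp⟩)) Y β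
  choose J W f hf hGW hepi using fun i => hcov (V i) (hYN.of_etale (g i) (hg.etale i))
  have het : ∀ p : Σ i, J i, Etale (f p.1 p.2 ≫ g p.1).left := by
    rintro ⟨i, l⟩
    have h1 := hf i l
    have h2 := hg.etale i
    exact (inferInstance : Etale ((f i l).left ≫ (g i).left))
  refine ClosedSub.map_le_iff.2 ((minBelow_le_iSup' hC hYN hY
    (V := fun p : Σ i, J i => W p.1 p.2) (g := fun p => f p.1 p.2 ≫ g p.1) het
    (fun p => hGW p.1 p.2) (hg.epiFamily.comp hepi)).trans ?_)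
  refine iSup_le fun p => ?_
  rw [← ClosedSub.map_le_iff, ClosedSub.map_map, ClosedSub.map_le_iff]
  intro T φ hφ
  rw [ClosedSub.mem_comap]
  by_cases hV : (W p.1 p.2).DimLT m
  · rw [minBelow_eq_bot hV] at hφ
    exact ClosedSub.bot_le_comap _ _ hφ
  have hVdim : topologicalKrullDim (W p.1 p.2).sch.left = m :=
    le_antisymm ((topologicalKrullDim_le_of_etale (f p.1 p.2 ≫ g p.1) (het p)).trans hY.le)
      (not_lt.1 hV)
  have hVN : (W p.1 p.2).DimBelow N := hYN.of_etale (f p.1 p.2 ≫ g p.1) (het p)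
  obtain ⟨a, ha, _, ⟨ε, rfl⟩, hab⟩ := Submodule.mem_sup.1 (hg' p.1)
  have hab' : (Cor.graph (f p.1 p.2 ≫ g p.1)).comp β = (Cor.graph (f p.1 p.2)).comp a +
      (Cor.graph (f p.1 p.2)).comp (Cor.compRight (Cor.graph j) ε) := by
    rw [← Cor.graph_comp_graph, Cor.comp_assoc, ← hab, Cor.comp_add]
  rw [hab', Cor.comp_add]
  refine Submodule.add_mem _ ?_ ?_
  · -- the part which is zero in `h₀`
    have h1 := (⊥ : ClosedSub R X).pull_mem φ
      ((⊥ : ClosedSub R X).pull_mem (Cor.graph (f p.1 p.2)) ha)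
    exact (bot_le : (⊥ : ClosedSub R X) ≤ _) T h1
  · rw [Cor.compRight_apply, ← Cor.comp_assoc, ← Cor.comp_assoc]
    refine ClosedSub.le_comap_map (Cor.graph j) (genFilt R N 𝒢 U n) T ?_
    rw [Cor.comp_assoc]
    refine le_genFilt ((Cor.graph (f p.1 p.2)).comp ε) (hGW p.1 p.2) hVN hnm hVdim T ?_
    exact ClosedSub.le_comap_map ((Cor.graph (f p.1 p.2)).comp ε)
      (minBelow R m (W p.1 p.2)) T hφ

/-- The criterion for a class of smooth schemes implies the existence of the filtrations. -/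
theorem isFiltrationBelow_genFilt [PerfectField k]
    (hcov : ∀ X : Sm k, X.DimBelow N → ∃ (I : Type u) (V : I → Sm k)
      (f : ∀ i, (V i).sch ⟶ X.sch), (∀ i, Etale (f i).left) ∧ (∀ i, 𝒢 (V i)) ∧ EpiFamily R f) :
    IsFiltrationBelow N (fun (X : Sm k) n => genFilt R N 𝒢 X n) where
  antitone _ _ n := genFilt_anti (Nat.le_succ n)
  zero X hX := by
    obtain ⟨M, hM⟩ := X.exists_dimLT
    refine genFilt_generated hC hcov M 0 X hX hM _ le_rfl fun Y hY φ => ?_
    have := ClosedSub.top_eq_bot_of_dimLT_zero (R := R) hY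
    have h1 : Cor.graph (𝟙 Y.sch) ∈ (⊤ : ClosedSub R Y).carrier Y := ClosedSub.mem_top
    rw [this] at h1
    have h2 := ClosedSub.bot_le_comap φ (genFilt R N 𝒢 X 0) h1
    rwa [Cor.id_comp] at h2
  vanish _ _ _ hX := genFilt_vanish hC hX
  functorial _ _ _ _ γ n := genFilt_functorial γ n
  generated X hX n := by
    obtain ⟨M, hM⟩ := X.exists_dimLT
    exact genFilt_generated hC hcov M (n + 1) X hX hM
  strict U X _ j hj n := genFilt_strict hC hcov U X j hj n

end

end Pool.Agent.H694_ABV
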