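import Pool.Agent.H694_ABV.TopStep

/-!
# Étale coverings and the closed subfunctor generated by a subfunctor
-/

open CategoryTheory AlgebraicGeometry Limits

universe u

namespace Pool.Agent.H694_ABV

variable {k : Type u} [Field k] {R : Type u} [CommRing R]

/-! ### Composition of étale coverings -/

lemma IsEtaleCovering.id (U : Sm k) :
    IsEtaleCovering (U := U) (fun _ : PUnit.{u + 1} => U) (fun _ => 𝟙 U.sch) where
  etale _ := by
    dsimp
    infer_instance
  surjective x := ⟨⟨⟩, x, rfl⟩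

lemma IsEtaleCovering.comp {U : Sm k} {I : Type u} {V : I → Sm k} {f : ∀ i, (V i).sch ⟶ U.sch}
    (hf : IsEtaleCovering V f) {J : I → Type u} {W : ∀ i, J i → Sm k}
    {g : ∀ i j, (W i j).sch ⟶ (V i).sch} (hg : ∀ i, IsEtaleCovering (W i) (g i)) :
    IsEtaleCovering (U := U) (fun p : Σ i, J i => W p.1 p.2) (fun p => g p.1 p.2 ≫ f p.1) where
  etale p := by
    have h1 := hf.etale p.1
    have h2 := (hg p.1).etale p.2
    rw [Over.comp_left]
    infer_instance
  surjective x := by
    obtain ⟨i, y, hy⟩ := hf.surjective x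
    obtain ⟨j, z, hz⟩ := (hg i).surjective y
    refine ⟨⟨i, j⟩, z, ?_⟩
    rw [Over.comp_left, Scheme.Hom.comp_apply, hz, hy]

/-- The submodule of the correspondences from `T` to `U` which are sums of correspondences that
factor through the members of a family of morphisms to `U`. -/
noncomputable def through {U : Sm k} {I : Type u} {V : I → Sm k} (f : ∀ i, (V i).sch ⟶ U.sch)
    (T : Sm k) : Submodule R (Cor R T.sch U.sch) :=
  ⨆ i, LinearMap.range (Cor.compRight (R := R) (X := T.sch) (Cor.graph (f i)))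

lemma through_le {U : Sm k} {I : Type u} {V : I → Sm k} {f : ∀ i, (V i).sch ⟶ U.sch} {T : Sm k}
    {N : Submodule R (Cor R T.sch U.sch)}
    (h : ∀ i (δ : Cor R T.sch (V i).sch), δ.comp (Cor.graph (f i)) ∈ N) : through f T ≤ N := by
  refine iSup_le fun i => ?_
  rintro _ ⟨δ, rfl⟩
  exact h i δ

variable (k R) in
/-- Correspondences can be lifted along étale coverings, étale locally on the source. -/
def EtaleLift : Prop :=
  ∀ (X Y : Sm k) (α : Cor R X.sch Y.sch) (I : Type u) (Z : I → Sm k)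
    (g : ∀ i, (Z i).sch ⟶ Y.sch), IsEtaleCovering Z g →
    ∃ (J : Type u) (W : J → Sm k) (f : ∀ j, (W j).sch ⟶ X.sch), IsEtaleCovering W f ∧
      ∀ j, (Cor.graph (f j)).comp α ∈ through g (W j)

variable (k R) in
/-- `h₀^{ét}(U) → h₀^{ét}(X)` is an epimorphism for dense open `U`. -/
def DenseEpi : Prop :=
  ∀ (X U : Sm k) (j : U.sch ⟶ X.sch), IsOpenImmersion j.left → Dense (Set.range j.left) →
    ∀ K : ClosedSub R X, Cor.graph j ∈ K.carrier U → K = ⊤

variable (k R) in
/-- Generic transfers for étale coverings. -/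
def EtaleTransfer : Prop :=
  ∀ (U : Sm k) (I : Type u) (V : I → Sm k) (f : ∀ i, (V i).sch ⟶ U.sch), IsEtaleCovering V f →
    ∃ (U₀ : Sm k) (j : U₀.sch ⟶ U.sch), IsOpenImmersion j.left ∧ Dense (Set.range j.left) ∧
      Cor.graph (R := R) j ∈ through f U₀

variable {X : Sm k}

/-- The étale closure of a subfunctor which contains the homotopies. -/
noncomputable def etaleClosure (hEL : EtaleLift k R)
    (T : ∀ U : Sm k, Submodule R (Cor R U.sch X.sch))
    (hT : ∀ (U V : Sm k) (δ : Cor R V.sch U.sch) (φ : Cor R U.sch X.sch), φ ∈ T U →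
      δ.comp φ ∈ T V)
    (hT' : ∀ (U : Sm k) (φ : Cor R U.timesA1.sch X.sch),
      (Cor.graph (U.const 0)).comp φ - (Cor.graph (U.const 1)).comp φ ∈ T U) :
    ClosedSub R X where
  carrier U :=
    { carrier := {φ | ∃ (I : Type u) (V : I → Sm k) (f : ∀ i, (V i).sch ⟶ U.sch),
        IsEtaleCovering V f ∧ ∀ i, (Cor.graph (f i)).comp φ ∈ T (V i)}
      zero_mem' := ⟨PUnit, _, _, IsEtaleCovering.id U, fun i => by
        rw [Cor.id_comp]
        exact Submodule.zero_mem _⟩
      add_mem' := by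
        rintro φ ψ ⟨I, V, f, hf, hφ⟩ ⟨I', V', f', hf', hψ⟩
        choose J W g hg hg' using fun i => hEL (V i) U (Cor.graph (f i)) I' V' f' hf'
        refine ⟨_, _, _, hf.comp hg, fun p => ?_⟩
        rw [Cor.comp_add]
        refine Submodule.add_mem _ ?_ ?_
        · rw [← Cor.graph_comp_graph, Cor.comp_assoc]
          exact hT _ _ _ _ (hφ p.1)
        · rw [← Cor.graph_comp_graph]
          have h1 : through f' (W p.1 p.2) ≤ (T (W p.1 p.2)).comap (Cor.compRight ψ) := by
            refine through_le fun i δ => ?_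
            rw [Submodule.mem_comap, Cor.compRight_apply, Cor.comp_assoc]
            exact hT _ _ _ _ (hψ i)
          exact h1 (hg' p.1 p.2)
      smul_mem' := by
        rintro r φ ⟨I, V, f, hf, hφ⟩
        refine ⟨I, V, f, hf, fun i => ?_⟩
        rw [Cor.comp_smul]
        exact Submodule.smul_mem _ _ (hφ i) }
  pull_mem := by
    rintro U V δ φ ⟨I, U', f, hf, hφ⟩
    obtain ⟨J, W, g, hg, hg'⟩ := hEL V U δ I U' f hf
    refine ⟨J, W, g, hg, fun j => ?_⟩
    rw [← Cor.comp_assoc]
    have h1 : through f (W j) ≤ (T (W j)).comap (Cor.compRight φ) := by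
      refine through_le fun i δ => ?_
      rw [Submodule.mem_comap, Cor.compRight_apply, Cor.comp_assoc]
      exact hT _ _ _ _ (hφ i)
    exact h1 (hg' j)
  local_mem := by
    intro U I V f hf φ hφ
    choose J W g hg hg' using hφ
    refine ⟨_, _, _, hf.comp hg, fun p => ?_⟩
    rw [← Cor.graph_comp_graph, Cor.comp_assoc]
    exact hg' p.1 p.2
  homotopy_mem := by
    intro U φ
    refine ⟨PUnit, _, _, IsEtaleCovering.id U, fun i => ?_⟩
    rw [Cor.id_comp]
    exact hT' U φ

lemma mem_etaleClosure {hEL : EtaleLift k R} {T : ∀ U : Sm k, Submodule R (Cor R U.sch X.sch)}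
    {hT : ∀ (U V : Sm k) (δ : Cor R V.sch U.sch) (φ : Cor R U.sch X.sch), φ ∈ T U →
      δ.comp φ ∈ T V}
    {hT' : ∀ (U : Sm k) (φ : Cor R U.timesA1.sch X.sch),
      (Cor.graph (U.const 0)).comp φ - (Cor.graph (U.const 1)).comp φ ∈ T U}
    {U : Sm k} {φ : Cor R U.sch X.sch} :
    φ ∈ (etaleClosure hEL T hT hT').carrier U ↔ ∃ (I : Type u) (V : I → Sm k)
      (f : ∀ i, (V i).sch ⟶ U.sch), IsEtaleCovering V f ∧
        ∀ i, (Cor.graph (f i)).comp φ ∈ T (V i) := Iff.rfl

/-- If a closed subfunctor `K` and a subfunctor `S` generate everything, then every correspondence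
is étale locally the sum of one in `K` and one in `S`. -/
lemma exists_covering_of_generates (hEL : EtaleLift k R) (K : ClosedSub R X)
    (S : ∀ U : Sm k, Submodule R (Cor R U.sch X.sch))
    (hS : ∀ (U V : Sm k) (δ : Cor R V.sch U.sch) (φ : Cor R U.sch X.sch), φ ∈ S U →
      δ.comp φ ∈ S V)
    (h : ∀ F : ClosedSub R X, K ≤ F → (∀ U, S U ≤ F.carrier U) → F = ⊤)
    (U : Sm k) (φ : Cor R U.sch X.sch) :
    ∃ (I : Type u) (V : I → Sm k) (f : ∀ i, (V i).sch ⟶ U.sch), IsEtaleCovering V f ∧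
      ∀ i, (Cor.graph (f i)).comp φ ∈ K.carrier (V i) ⊔ S (V i) := by
  have hT : ∀ (U V : Sm k) (δ : Cor R V.sch U.sch) (φ : Cor R U.sch X.sch),
      φ ∈ K.carrier U ⊔ S U → δ.comp φ ∈ K.carrier V ⊔ S V := by
    intro U V δ φ hφ
    obtain ⟨a, ha, b, hb, rfl⟩ := Submodule.mem_sup.1 hφ
    rw [Cor.comp_add]
    exact Submodule.add_mem_sup (K.pull_mem δ ha) (hS _ _ δ b hb)
  have hT' : ∀ (U : Sm k) (φ : Cor R U.timesA1.sch X.sch),
      (Cor.graph (U.const 0)).comp φ - (Cor.graph (U.const 1)).comp φ ∈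
        K.carrier U ⊔ S U := fun U φ => Submodule.mem_sup_left (K.homotopy_mem U φ)
  have key := h (etaleClosure hEL (fun U => K.carrier U ⊔ S U) hT hT')
    (fun U φ hφ => mem_etaleClosure.2 ⟨PUnit, _, _, IsEtaleCovering.id U, fun i => by
      rw [Cor.id_comp]; exact Submodule.mem_sup_left hφ⟩)
    (fun U φ hφ => mem_etaleClosure.2 ⟨PUnit, _, _, IsEtaleCovering.id U, fun i => by
      rw [Cor.id_comp]; exact Submodule.mem_sup_right hφ⟩)
  have h1 : φ ∈ (⊤ : ClosedSub R X).carrier U := ClosedSub.mem_top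
  rw [← key] at h1
  exact mem_etaleClosure.1 h1

end Pool.Agent.H694_ABV
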