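import Pool.Agent.H694_ABV.Closed

/-!
# The filtrations of the problem
-/

open CategoryTheory AlgebraicGeometry Limits

universe u

namespace Pool.Agent.H694_ABV

variable {k : Type u} [Field k] {R : Type u} [CommRing R]

/-- The quotient of `h₀^{ét}(X)` by the subobject `K` is generated by the images of the sheaves
`h₀^{ét}(Y)` with `dim Y < n`: every subobject which contains `K` and all correspondences `Y ⇝ X`
with `dim Y < n` is the whole of `h₀^{ét}(X)`. -/
def GeneratedBelow (n : ℕ) {X : Sm k} (K : ClosedSub R X) : Prop :=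
  ∀ F : ClosedSub R X, K ≤ F →
    (∀ Y : Sm k, Y.DimLT n → ∀ φ : Cor R Y.sch X.sch, φ ∈ F.carrier Y) → F = ⊤

/-- The conditions (A), (B) and (D). The quotients in (D) are required to be `n`-generated; by (A)
and (B) they are then `n`-motivic. -/
structure IsFiltrationABD (F : ∀ X : Sm k, ℕ → ClosedSub R X) : Prop where
  antitone : ∀ X n, F X (n + 1) ≤ F X n
  zero : ∀ X, F X 0 = ⊤
  vanish : ∀ X n, X.DimLT n → F X n = ⊥
  functorial : ∀ (X Y : Sm k) (γ : Cor R X.sch Y.sch) (n : ℕ),
    F X n ≤ ClosedSub.comap γ (F Y n)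
  generated : ∀ X n, GeneratedBelow (n + 1) (F X (n + 1))

/-- The conditions (A), (B), (C) and (D). The quotients in (D) are required to be `n`-generated; by
(A) and (B) they are then `n`-motivic. -/
structure IsFiltration (F : ∀ X : Sm k, ℕ → ClosedSub R X) : Prop extends IsFiltrationABD F where
  strict : ∀ (U X : Sm k) (j : U.sch ⟶ X.sch), IsOpenImmersion j.left →
    Dense (Set.range j.left) → ∀ n : ℕ,
    ClosedSub.map (Cor.graph j) (F U n) = ClosedSub.map (Cor.graph j) ⊤ ⊓ F X n

/-- The intersection of all subobjects of `h₀^{ét}(X)` whose quotient is generated by the images of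
the sheaves `h₀^{ét}(Y)` with `dim Y < n`. -/
noncomputable def minBelow (R : Type u) [CommRing R] (n : ℕ) (X : Sm k) : ClosedSub R X :=
  sInf {K | GeneratedBelow n K}

/-- The common kernel of the maps `h₀^{ét}(X) → h₀^{ét}(Y)` induced by all correspondences from `X`
to smooth schemes `Y` of dimension less than `n`. -/
noncomputable def kerBelow (R : Type u) [CommRing R] (n : ℕ) (X : Sm k) : ClosedSub R X :=
  sInf {K | ∃ (Y : Sm k) (_ : Y.DimLT n) (γ : Cor R X.sch Y.sch), K = ClosedSub.comap γ ⊥}

end Pool.Agent.H694_ABV
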