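import Pool.Agent.H694_ABV.ScalarExt

/-!
# The equivalence
-/

open CategoryTheory AlgebraicGeometry Limits

universe u

namespace Pool.Agent.H694_ABV

variable {k : Type u} [Field k]

/-! ### Rational coefficients -/

lemma decomp_ulift {R : Type u} [CommRing R] [Algebra ℚ R] [Nontrivial R] {d : ℕ} {X : Sm k}
    (h : GenericDecomposition R d X) : GenericDecomposition (ULift.{u} ℚ) d X := by
  let : Algebra (ULift.{u} ℚ) R :=
    ((algebraMap ℚ R).comp (ULift.ringEquiv.{0, u} (R := ℚ)).toRingHom).toAlgebra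
  exact h.descend

lemma decomp_of_ulift [PerfectField k] {R : Type u} [CommRing R] [Algebra ℚ R] {d : ℕ} {X : Sm k}
    (h : GenericDecomposition (ULift.{u} ℚ) d X) : GenericDecomposition R d X := by
  let : Algebra (ULift.{u} ℚ) R :=
    ((algebraMap ℚ R).comp (ULift.ringEquiv.{0, u} (R := ℚ)).toRingHom).toAlgebra
  exact h.extend

/-- A torsion-free ring is contained in a `ℚ`-algebra all whose elements have a nonzero multiple in
the ring. -/
lemma exists_rational (R : Type u) [CommRing R] [Nontrivial R] [IsAddTorsionFree R] :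
    ∃ (R' : Type u) (_ : CommRing R') (_ : Algebra ℚ R') (f : R →+* R'),
      Nontrivial R' ∧ Function.Injective f ∧
      ∀ x : R', ∃ n : ℕ, n ≠ 0 ∧ ∃ r, f r = n • x := by
  have h0 : ∀ (n : ℕ) (x : R), n ≠ 0 → (n : R) * x = 0 → x = 0 := by
    intro n x hn hx
    have h1 : n • x = n • (0 : R) := by rw [nsmul_eq_mul, hx, smul_zero]
    exact IsAddTorsionFree.nsmul_right_injective hn h1
  let M : Submonoid R :=
    { carrier := {x | ∃ n : ℕ, n ≠ 0 ∧ (n : R) = x}
      one_mem' := ⟨1, one_ne_zero, by simp⟩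
      mul_mem' := by
        rintro _ _ ⟨m, hm, rfl⟩ ⟨n, hn, rfl⟩
        exact ⟨m * n, mul_ne_zero hm hn, by push_cast; ring⟩ }
  have hM : M ≤ nonZeroDivisors R := by
    rintro _ ⟨n, hn, rfl⟩
    rw [mem_nonZeroDivisors_iff_right]
    intro x hx
    exact h0 n x hn (by rwa [mul_comm])
  have hinj : Function.Injective (algebraMap R (Localization M)) :=
    IsLocalization.injective (Localization M) hM
  have hunit : ∀ z : nonZeroDivisors ℤ, IsUnit (algebraMap ℤ (Localization M) z) := by
    intro z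
    have hz : (z : ℤ) ≠ 0 := nonZeroDivisors.ne_zero z.2
    have h1 : ((z : ℤ).natAbs : R) ∈ M := ⟨_, Int.natAbs_ne_zero.2 hz, rfl⟩
    have h2 := IsLocalization.map_units (Localization M) (⟨_, h1⟩ : M)
    simp only [map_natCast] at h2
    rcases Int.natAbs_eq (z : ℤ) with h3 | h3
    · rw [h3]
      simpa using h2
    · rw [h3]
      simpa using h2
  let g : ℚ →+* Localization M := IsLocalization.lift (M := nonZeroDivisors ℤ) (S := ℚ) hunit
  refine ⟨Localization M, inferInstance, g.toAlgebra, algebraMap R (Localization M),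
    hinj.nontrivial, hinj, fun x => ?_⟩
  obtain ⟨r, ⟨_, n, hn, rfl⟩, rfl⟩ := IsLocalization.exists_mk'_eq M x
  refine ⟨n, hn, r, ?_⟩
  rw [nsmul_eq_mul]
  have h4 : ((n : ℕ) : Localization M) = algebraMap R (Localization M) (n : R) := by
    rw [map_natCast]
  rw [h4, mul_comm]
  exact (IsLocalization.mk'_spec (Localization M) r (⟨(n : R), n, hn, rfl⟩ : M)).symm

/-- The filtrations over a torsion-free ring of coefficients give the decompositions over all
`ℚ`-algebras. -/
theorem decomposition_of_filtration [PerfectField k] {N : ℕ∞} {R S : Type u} [CommRing R]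
    [Nontrivial R] [IsAddTorsionFree R] [CommRing S] [Algebra ℚ S]
    {F : ∀ X : Sm k, ℕ → ClosedSub R X} (hF : IsFiltrationBelow N F) (d : ℕ) (X : Sm k)
    (hX : X.DimBelow N) (hd : topologicalKrullDim X.sch.left = d) :
    GenericDecomposition S d X := by
  obtain ⟨R', _, _, f, hR', hinj, hf⟩ := exists_rational R
  have hF' := hF.extend f (fun X Y γ => by
    have := X.isNoetherian
    obtain ⟨n, hn, β, hβ⟩ := Cor.exists_nsmul_mem_range f hinj hf γ
    have h1 : γ = (algebraMap ℚ R' (n : ℚ)⁻¹) • Cor.mapCoeff (f : R →+ R') β := by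
      rw [hβ, ← Nat.cast_smul_eq_nsmul R', smul_smul, ← map_natCast (algebraMap ℚ R'), ← map_mul,
        inv_mul_cancel₀ (by exact_mod_cast hn), map_one, one_smul]
    rw [h1]
    exact Submodule.smul_mem _ _ (Submodule.subset_span ⟨β, rfl⟩))
  exact decomp_of_ulift (decomp_ulift (hF'.genericDecomposition hX hd))

/-! ### Étale neighbourhoods of the generic points -/

lemma epiFamily_of_etale [PerfectField k] {R : Type u} [CommRing R] {X V : Sm k}
    (hX : IrreducibleSpace X.sch.left) (f : V.sch ⟶ X.sch) (hf : Etale f.left)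
    (hV : Nonempty V.sch.left) : EpiFamily R (V := fun _ : PUnit.{u + 1} => V) (fun _ => f) := by
  intro G hG
  let W : X.sch.left.Opens := ⟨Set.range f.left, f.left.isOpenMap.isOpen_range⟩
  let ιW : (X.opens W).sch ⟶ X.sch := opensι X.sch W
  have hι : IsOpenImmersion ιW.left := inferInstanceAs (IsOpenImmersion W.ι)
  have hW : IsDenseOpen ιW := by
    refine ⟨hι, ?_⟩
    have h1 : Set.range ιW.left = (W : Set X.sch.left) := by
      ext y
      constructor
      · rintro ⟨w, rfl⟩
        exact w.2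
      · intro hy
        exact ⟨⟨y, hy⟩, rfl⟩
    rw [h1]
    obtain ⟨v⟩ := hV
    exact W.isOpen.dense ⟨f.left v, v, rfl⟩
  refine G.eq_top_of_dense hW ?_
  let g : V.sch ⟶ (X.opens W).sch := liftOpens f W fun y => ⟨y, rfl⟩
  have hg : g ≫ ιW = f := liftOpens_ι _ _ _
  have hgl : g.left ≫ ιW.left = f.left := congrArg (fun t => t.left) hg
  have hge : Etale g.left := by
    have h2 : Etale (g.left ≫ ιW.left) := by rw [hgl]; exact hf
    have h3 : Etale ιW.left := inferInstance
    exact MorphismProperty.of_postcomp (W := @Etale) (W' := @Etale) _ ιW.left h3 h2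
  have hcov : IsEtaleCovering (U := X.opens W) (fun _ : PUnit.{u + 1} => V) (fun _ => g) := by
    refine ⟨fun _ => hge, fun x => ?_⟩
    obtain ⟨v, hv⟩ := x.2
    refine ⟨⟨⟩, v, ?_⟩
    apply ιW.left.isOpenEmbedding.injective
    have h3 : ιW.left (g.left v) = f.left v := by rw [← hgl]; rfl
    exact h3.trans hv
  refine G.local_mem (U := X.opens W) (fun _ => g) hcov fun i => ?_
  exact G.mem_of_eq (hG ⟨⟩) ((congrArg _ hg.symm).trans (Cor.graph_comp_graph _ _).symm)

lemma exists_epiFamily [PerfectField k] {R : Type u} [CommRing R] {N : ℕ∞} {𝒢 : Sm k → Prop}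
    (h𝒢 : ∀ X : Sm k, X.DimBelow N → IsIntegral X.sch.left → IsAffine X.sch.left →
      ∃ (V : Sm k) (f : V.sch ⟶ X.sch), Etale f.left ∧ Nonempty V.sch.left ∧ 𝒢 V)
    (X : Sm k) (hX : X.DimBelow N) : ∃ (I : Type u) (V : I → Sm k)
      (f : ∀ i, (V i).sch ⟶ X.sch), (∀ i, Etale (f i).left) ∧ (∀ i, 𝒢 (V i)) ∧
        EpiFamily R f := by
  choose A i1 i2 i3 i4 g₀ hg y hy using fun x : X.sch.left => exists_chart X x
  let g : ∀ x, (Sm.aff k (A x)).sch ⟶ X.sch := g₀
  have hge : ∀ x, Etale (g x).left := fun x => by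
    have h1 : IsOpenImmersion (g x).left := hg x
    infer_instance
  have hcov : IsEtaleCovering (U := X) (fun x => Sm.aff k (A x)) g :=
    ⟨hge, fun x => ⟨x, y x, hy x⟩⟩
  choose V f hf hV hGV using fun x => h𝒢 (Sm.aff k (A x)) (hX.of_etale (g x) (hge x))
    (inferInstanceAs (IsIntegral (Spec (CommRingCat.of (A x)))))
    (inferInstanceAs (IsAffine (Spec (CommRingCat.of (A x)))))
  have hirr : ∀ x, IrreducibleSpace (Sm.aff k (A x)).sch.left := fun x =>
    inferInstanceAs (IrreducibleSpace (PrimeSpectrum (A x)))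
  refine ⟨Σ _ : X.sch.left, PUnit.{u + 1}, fun p => V p.1, fun p => f p.1 ≫ g p.1, fun p => ?_,
    fun p => hGV p.1, hcov.epiFamily.comp (W := fun x (_ : PUnit.{u + 1}) => V x)
      (g := fun x _ => f x) fun x => epiFamily_of_etale (hirr x) (f x) (hf x) (hV x)⟩
  have h1 := hf p.1
  have h2 := hge p.1
  exact (inferInstance : Etale ((f p.1).left ≫ (g p.1).left))

/-- The decompositions, for one ring of coefficients and for some nonempty scheme étale over every
affine integral scheme, give the filtrations. -/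
theorem filtration_of_decomposition [PerfectField k] {N : ℕ∞} {R S : Type u} [CommRing R]
    [Algebra ℚ R] [CommRing S] [Algebra ℚ S] [Nontrivial S]
    (h : ∀ X : Sm k, X.DimBelow N → IsIntegral X.sch.left → IsAffine X.sch.left →
      ∃ (V : Sm k) (f : V.sch ⟶ X.sch), Etale f.left ∧ Nonempty V.sch.left ∧
        ∀ d : ℕ, topologicalKrullDim V.sch.left = d → GenericDecomposition S d V) :
    ∃ F : ∀ X : Sm k, ℕ → ClosedSub R X, IsFiltrationBelow N F :=
  ⟨_, isFiltrationBelow_genFilt (R := R) (N := N)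
    (𝒢 := fun V => ∀ d : ℕ, topologicalKrullDim V.sch.left = d → GenericDecomposition S d V)
    (fun m Y hY _ hm => (decomp_of_ulift (decomp_ulift (hY m hm))).crit)
    fun X hX => exists_epiFamily h X hX⟩

end Pool.Agent.H694_ABV
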