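import Pool.Agent.H694_ABV.Clopen
import Pool.Agent.H694_ABV.DenseEpi
import Pool.Agent.H694_ABV.Alg.I

/-!
# Generic transfers for étale coverings
-/

open CategoryTheory AlgebraicGeometry Limits TensorProduct

universe u

namespace Pool.Agent.H694_ABV

variable {k : Type u} [Field k] {R : Type u} [CommRing R]

section

variable {A D T Ω : Type u} [CommRing A] [CommRing D] [CommRing T] [Algebra A D] [Algebra A T]
  [Field Ω] {m : ℕ} (e : T ⊗[A] D ≃ₐ[T] (Fin m → T)) (y : T →+* Ω)

include e

lemma splitting_injective (s s' : Fin m)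
    (h : ∀ d : D, y (e (1 ⊗ₜ d) s) = y (e (1 ⊗ₜ d) s')) : s = s' := by
  by_contra hs
  have h1 : ∀ x : T ⊗[A] D, y (e x s) = y (e x s') := by
    intro x
    induction x with
    | zero => simp
    | add a b ha hb => simp only [map_add, Pi.add_apply, ha, hb]
    | tmul t d =>
      have h2 : t ⊗ₜ[A] d = t • ((1 : T) ⊗ₜ[A] d) := by
        rw [TensorProduct.smul_tmul', smul_eq_mul, mul_one]
      rw [h2, map_smul, Pi.smul_apply, Pi.smul_apply, smul_eq_mul, smul_eq_mul, map_mul, map_mul, h]
  have h2 := h1 (e.symm (Pi.single s 1))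
  rw [AlgEquiv.apply_symm_apply, Pi.single_eq_same, Pi.single_eq_of_ne (Ne.symm hs), map_one,
    map_zero] at h2
  exact one_ne_zero h2

lemma splitting_surjective (z : D →+* Ω)
    (hz : z.comp (algebraMap A D) = y.comp (algebraMap A T)) :
    ∃ s, ∀ d : D, z d = y (e (1 ⊗ₜ d) s) := by
  let : Algebra A Ω := (y.comp (algebraMap A T)).toAlgebra
  let y' : T →ₐ[A] Ω := ⟨y, fun _ => rfl⟩
  let z' : D →ₐ[A] Ω := ⟨z, fun a => DFunLike.congr_fun hz a⟩
  let l : T ⊗[A] D →ₐ[A] Ω := Algebra.TensorProduct.productMap y' z'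
  have hl1 : ∀ t, l (t ⊗ₜ 1) = y t := fun t => by
    simp [l, y']
  have hl2 : ∀ d, l (1 ⊗ₜ d) = z d := fun d => by
    simp [l, z']
  obtain ⟨s, hs⟩ : ∃ s, l (e.symm (Pi.single s 1)) ≠ 0 := by
    by_contra hcon
    simp only [not_exists, not_not] at hcon
    have h1 : (1 : Fin m → T) = ∑ s, Pi.single s 1 := by
      rw [← Finset.univ_sum_single (1 : Fin m → T)]
      rfl
    have h2 : l (e.symm 1) = 0 := by
      rw [h1, map_sum, map_sum]
      exact Finset.sum_eq_zero fun s _ => hcon s
    rw [map_one, map_one] at h2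
    exact one_ne_zero h2
  refine ⟨s, fun d => ?_⟩
  have h1 : e (1 ⊗ₜ d) * Pi.single s 1 = e ((e (1 ⊗ₜ d) s) ⊗ₜ 1) * Pi.single s 1 := by
    have h2 : (e ((e (1 ⊗ₜ d) s) ⊗ₜ 1)) = algebraMap T _ (e (1 ⊗ₜ d) s) :=
      e.commutes (e (1 ⊗ₜ d) s)
    rw [h2]
    funext i
    by_cases hi : i = s
    · subst hi
      simp
    · simp [Pi.single_eq_of_ne hi]
  have h3 : (1 ⊗ₜ d : T ⊗[A] D) * e.symm (Pi.single s 1) =
      ((e (1 ⊗ₜ d) s) ⊗ₜ 1) * e.symm (Pi.single s 1) := by
    apply e.injective
    rw [map_mul, map_mul, AlgEquiv.apply_symm_apply, h1]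
  have h4 := congrArg l h3
  rw [map_mul, map_mul, hl1, hl2] at h4
  exact mul_right_cancel₀ hs h4

end

/-- Over a nonempty open subscheme the identity factors through an étale morphism. -/
lemma exists_affine_transfer [Algebra ℚ R] {A D : Type u} [CommRing A] [IsDomain A] [CommRing D]
    [Nontrivial D] [Algebra k A] [Algebra k D] (ψ : A →ₐ[k] D) (hψ : ψ.toRingHom.Etale) :
    ∃ (g : A) (_ : g ≠ 0) (τ : Cor R (Aff k (Localization.Away g)) (Aff k D)),
      τ.comp (Cor.graph (Aff.map ψ)) =
        Cor.graph (Aff.map (IsScalarTower.toAlgHom k A (Localization.Away g))) := by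
  let : Algebra A D := ψ.toRingHom.toAlgebra
  have : IsScalarTower k A D := IsScalarTower.of_algebraMap_eq fun c => (ψ.commutes c).symm
  have : Algebra.Etale A D := hψ
  obtain ⟨g, hg, T, _, _, _, _, _, hsurj, m, hm, ⟨e⟩⟩ := H694.generic_splitting (A := A) (D := D)
  let : Algebra k T := ((algebraMap A T).comp (algebraMap k A)).toAlgebra
  have : IsScalarTower k A T := IsScalarTower.of_algebraMap_eq fun _ => rfl
  have : IsScalarTower k (Localization.Away g) T := IsScalarTower.of_algebraMap_eq fun c => by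
    rw [IsScalarTower.algebraMap_apply k A (Localization.Away g),
      ← IsScalarTower.algebraMap_apply A (Localization.Away g) T]
    rfl
  let q : Localization.Away g →ₐ[k] T := IsScalarTower.toAlgHom k (Localization.Away g) T
  have hq : q.toRingHom.Finite := RingHom.finite_algebraMap.2 inferInstance
  let σ : Fin m → (D →ₐ[k] T) := fun s =>
    { toFun := fun d => e (1 ⊗ₜ d) s
      map_one' := by
        rw [← Algebra.TensorProduct.one_def, map_one]; rfl
      map_mul' := fun a b => by
        have h1 : ((1 : T) ⊗ₜ[A] (a * b) : T ⊗[A] D) = (1 ⊗ₜ a) * (1 ⊗ₜ b) := by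
          rw [Algebra.TensorProduct.tmul_mul_tmul, mul_one]
        rw [h1, map_mul, Pi.mul_apply]
      map_zero' := by
        rw [TensorProduct.tmul_zero, map_zero]; rfl
      map_add' := fun a b => by
        rw [TensorProduct.tmul_add, map_add, Pi.add_apply]
      commutes' := fun c => by
        have h1 : ((1 : T) ⊗ₜ[A] (algebraMap k D c) : T ⊗[A] D) =
            (algebraMap k T c) ⊗ₜ 1 := by
          rw [IsScalarTower.algebraMap_apply k A D, IsScalarTower.algebraMap_apply k A T,
            Algebra.algebraMap_eq_smul_one, Algebra.algebraMap_eq_smul_one (A := T),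
            TensorProduct.tmul_smul, TensorProduct.smul_tmul']
        rw [h1]
        exact congrFun (e.commutes (algebraMap k T c)) s }
  have hσψ : ∀ s, (σ s).comp ψ = IsScalarTower.toAlgHom k A T := by
    intro s
    refine AlgHom.ext fun a => ?_
    show e (1 ⊗ₜ (algebraMap A D a)) s = algebraMap A T a
    have h1 : ((1 : T) ⊗ₜ[A] (algebraMap A D a) : T ⊗[A] D) = (algebraMap A T a) ⊗ₜ 1 := by
      rw [Algebra.algebraMap_eq_smul_one, Algebra.algebraMap_eq_smul_one (A := T),
        TensorProduct.tmul_smul, TensorProduct.smul_tmul']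
    rw [h1]
    exact congrFun (e.commutes (algebraMap A T a)) s
  have hqA : q.comp (IsScalarTower.toAlgHom k A (Localization.Away g)) =
      IsScalarTower.toAlgHom k A T := by
    refine AlgHom.ext fun a => ?_
    exact (IsScalarTower.algebraMap_apply A (Localization.Away g) T a).symm
  obtain ⟨τ, hτ⟩ := exists_transfer (R := R) q hq hsurj σ (by
    intro E y y' hyy'
    have hA : y.comp (IsScalarTower.toAlgHom k A T) = y'.comp (IsScalarTower.toAlgHom k A T) := by
      rw [← hqA, ← AlgHom.comp_assoc, ← AlgHom.comp_assoc, hyy']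
    have h1 : ∀ s, ∃ s', y'.comp (σ s) = y.comp (σ s') := by
      intro s
      obtain ⟨s', hs'⟩ := splitting_surjective e y.toRingHom (y'.comp (σ s)).toRingHom (by
        refine RingHom.ext fun a => ?_
        have h2 : (y'.comp ((σ s).comp ψ)) a = (y.comp (IsScalarTower.toAlgHom k A T)) a := by
          rw [hσψ, hA]
        exact h2)
      exact ⟨s', AlgHom.ext fun d => hs' d⟩
    choose π hπ using h1
    have hinj : Function.Injective π := by
      intro s s' hs
      refine splitting_injective e y'.toRingHom s s' fun d => ?_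
      have h2 : y'.comp (σ s) = y'.comp (σ s') := by rw [hπ, hπ, hs]
      exact DFunLike.congr_fun h2 d
    have hbij : Function.Bijective π := Finite.injective_iff_bijective.1 hinj
    symm
    refine Fintype.sum_bijective π hbij _ _ fun s => ?_
    rw [hπ])
  refine ⟨g, hg, (algebraMap ℚ R (m : ℚ)⁻¹) • τ, Cor.ext fun E x => ?_⟩
  obtain ⟨y, rfl⟩ : ∃ y : T →ₐ[k] E.Ω, Aff.pt E (y.comp q) = x := by
    have h0 : IsFinite (Aff.map q).left := Aff.isFinite_map q hq
    obtain ⟨v, hv⟩ := exists_lift_pt (Aff.map q) E x (hsurj _)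
    obtain ⟨y, rfl⟩ := Aff.pt_surjective E v
    exact ⟨y, by rw [Aff.pt_comp, hv]⟩
  rw [Cor.comp_graph_val, Cor.smul_val, hτ, Finsupp.mapDomain_smul, Finsupp.mapDomain_finsetSum,
    Cor.graph_val]
  have h1 : ∀ s, Aff.pt E (y.comp (σ s)) ≫ Aff.map ψ = Aff.pt E (y.comp q) ≫
      Aff.map (IsScalarTower.toAlgHom k A (Localization.Away g)) := by
    intro s
    rw [← Aff.pt_comp, ← Aff.pt_comp, AlgHom.comp_assoc, AlgHom.comp_assoc, hσψ, hqA]
  simp only [Finsupp.mapDomain_single, h1, Finset.sum_const, Finset.card_univ, Fintype.card_fin]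
  rw [← Nat.cast_smul_eq_nsmul R, smul_smul, Finsupp.smul_single, smul_eq_mul, mul_one]
  congr 1
  rw [← map_natCast (algebraMap ℚ R), ← map_mul, inv_mul_cancel₀, map_one]
  exact_mod_cast hm.ne'

end Pool.Agent.H694_ABV
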