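import Pool.Agent.H694_ABV.Explicit

/-!
# Lifting geometric points, and construction of correspondences
-/

open CategoryTheory AlgebraicGeometry Limits

universe u

namespace Pool.Agent.H694_ABV

variable {k : Type u} [Field k] {R : Type u} [CommRing R]

lemma exists_lift_of_mem_range {V S : Scheme.{u}} (f : V ⟶ S) [LocallyOfFiniteType f]
    {Ω : Type u} [Field Ω] [IsAlgClosed Ω] (s : Spec (CommRingCat.of Ω) ⟶ S)
    (hs : s default ∈ Set.range f) : ∃ v : Spec (CommRingCat.of Ω) ⟶ V, v ≫ f = s := by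
  obtain ⟨y, hy⟩ := hs
  obtain ⟨z, -, -⟩ := Scheme.Pullback.exists_preimage_pullback (f := s) (g := f) default y hy.symm
  have : JacobsonSpace ↥(pullback s f) := LocallyOfFiniteType.jacobsonSpace (pullback.fst s f)
  have hne : (closedPoints ↥(pullback s f)).Nonempty := by
    by_contra h
    rw [Set.not_nonempty_iff_eq_empty] at h
    have := JacobsonSpace.closure_inter_closedPoints_eq_closure
      (X := ↥(pullback s f)) (S := Set.univ) isOpen_univ.isLocallyClosed
    rw [h, Set.inter_empty, closure_empty, closure_univ] at this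
    exact this.symm.subset (Set.mem_univ z)
  obtain ⟨w, hw⟩ := hne
  refine ⟨pointOfClosedPoint (pullback.fst s f) w hw ≫ pullback.snd s f, ?_⟩
  rw [Category.assoc, ← pullback.condition]
  exact pointOfClosedPoint_comp_assoc _ _ _ _

/-- The point of the spectrum of an algebraically closed extension. -/
noncomputable def AlgClosedExt.pnt (E : AlgClosedExt k) : E.pt.left :=
  (default : Spec (CommRingCat.of E.Ω))

lemma AlgClosedExt.eq_pnt (E : AlgClosedExt k) (x : E.pt.left) : x = E.pnt :=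
  Unique.eq_default (α := ↥(Spec (CommRingCat.of E.Ω))) x

lemma exists_lift_pt {V X : KSch k} (f : V ⟶ X) [LocallyOfFiniteType f.left]
    (E : AlgClosedExt k) (x : Pts E X) (hx : x.left E.pnt ∈ Set.range f.left) :
    ∃ v : Pts E V, v ≫ f = x := by
  obtain ⟨v, hv⟩ := exists_lift_of_mem_range f.left (Ω := E.Ω) x.left hx
  have hv' : (show E.pt.left ⟶ V.left from v) ≫ f.left = x.left := hv
  refine ⟨Over.homMk (show E.pt.left ⟶ V.left from v) ?_, ?_⟩
  · rw [← Over.w f, ← Category.assoc, hv']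
    exact Over.w x
  · ext1
    exact hv'

/-- The coverings of `finTop` are the sieves which contain a jointly surjective family of finite
morphisms. -/
lemma mem_finTop_iff {X : KSch k} {S : Sieve X} :
    S ∈ finTop k X ↔ ∃ (I : Type u) (V : I → KSch k) (q : ∀ i, V i ⟶ X),
      (∀ i, IsFinite (q i).left) ∧
      (∀ x : X.left, ∃ (i : I) (v : (V i).left), (q i).left v = x) ∧ ∀ i, S.arrows (q i) := by
  rw [finTop, GrothendieckTopology.mem_over_iff]
  refine (Scheme.mem_grothendieckTopology_iff (P := @IsFinite)).trans ?_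
  constructor
  · rintro ⟨𝒰, h𝒰⟩
    refine ⟨𝒰.I₀, fun i => Over.mk (𝒰.f i ≫ X.hom), fun i => Over.homMk (𝒰.f i), fun i => ?_,
      fun x => ?_, fun i => ?_⟩
    · exact 𝒰.map_prop i
    · obtain ⟨i, y, hy⟩ := ((Scheme.ofArrows_mem_precoverage_iff _).1 𝒰.mem₀).1 x
      exact ⟨i, y, hy⟩
    · have := h𝒰 _ _ ⟨i⟩
      rwa [Sieve.overEquiv_iff] at this
  · rintro ⟨I, V, q, hq, hsurj, hS⟩
    refine ⟨⟨⟨I, fun i => (V i).left, fun i => (q i).left⟩, ?_⟩, ?_⟩
    · refine (Scheme.ofArrows_mem_precoverage_iff _).2 ⟨fun x => ?_, hq⟩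
      obtain ⟨i, v, hv⟩ := hsurj x
      exact ⟨i, v, hv⟩
    · rintro _ _ ⟨i⟩
      exact ⟨V i, q i, 𝟙 _, hS i, by simp⟩

/-- Construction of correspondences from a jointly surjective family of finite morphisms. -/
theorem exists_cor {X Y : KSch k} {I : Type u} (V : I → KSch k) (q : ∀ i, V i ⟶ X)
    (hq : ∀ i, IsFinite (q i).left)
    (hsurj : ∀ x : X.left, ∃ (i : I) (v : (V i).left), (q i).left v = x)
    (b : ∀ i, (V i ⟶ Y) →₀ R)
    (hb : ∀ (E : AlgClosedExt k) (i i' : I) (v : Pts E (V i)) (v' : Pts E (V i')),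
      v ≫ q i = v' ≫ q i' → (b i).mapDomain (v ≫ ·) = (b i').mapDomain (v' ≫ ·)) :
    ∃ α : Cor R X Y, ∀ (E : AlgClosedExt k) (i : I) (v : Pts E (V i)),
      α.val E (v ≫ q i) = (b i).mapDomain (v ≫ ·) := by
  have hlift : ∀ (E : AlgClosedExt k) (x : Pts E X), ∃ (i : I) (v : Pts E (V i)),
      v ≫ q i = x := by
    intro E x
    obtain ⟨i, v, hv⟩ := hsurj (x.left E.pnt)
    have := hq i
    obtain ⟨w, hw⟩ := exists_lift_pt (q i) E x ⟨v, hv⟩
    exact ⟨i, w, hw⟩
  choose ι w hw using hlift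
  let α : PreCor R X Y := fun E x => (b (ι E x)).mapDomain (w E x ≫ ·)
  have hα : ∀ (E : AlgClosedExt k) (i : I) (v : Pts E (V i)),
      α E (v ≫ q i) = (b i).mapDomain (v ≫ ·) := fun E i v => hb E _ _ _ _ (hw E (v ≫ q i))
  exact ⟨⟨α, mem_finTop_iff.2 ⟨I, V, q, hq, hsurj, fun i => ⟨b i, fun E v => hα E i v⟩⟩⟩, hα⟩

/-- Every correspondence is represented on a jointly surjective family of finite morphisms. -/
lemma Cor.exists_family {X Y : KSch k} (α : Cor R X Y) :
    ∃ (I : Type u) (V : I → KSch k) (q : ∀ i, V i ⟶ X) (b : ∀ i, (V i ⟶ Y) →₀ R),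
      (∀ i, IsFinite (q i).left) ∧
      (∀ x : X.left, ∃ (i : I) (v : (V i).left), (q i).left v = x) ∧
      ∀ (E : AlgClosedExt k) (i : I) (v : Pts E (V i)),
        α.val E (v ≫ q i) = (b i).mapDomain (v ≫ ·) := by
  obtain ⟨I, V, q, hq, hsurj, h⟩ := mem_finTop_iff.1 α.2
  choose b hb using h
  exact ⟨I, V, q, b, hq, hsurj, fun E i v => hb i E v⟩

end Pool.Agent.H694_ABV
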