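import Pool.Agent.H694_ABV.Support
import Pool.Agent.H694_ABV.Alg.H3

/-!
# Lifting correspondences along étale coverings
-/

open CategoryTheory AlgebraicGeometry Limits TensorProduct

universe u

namespace Pool.Agent.H694_ABV

variable {k : Type u} [Field k] {R : Type u} [CommRing R]

/-- Locally on the source, a correspondence is a combination of morphisms on one finite cover. -/
theorem exists_local_rep {X : Sm k} {Y : KSch k} (α : Cor R X.sch Y) (x : X.sch.left) :
    ∃ (A : Type u) (_ : CommRing A) (_ : IsDomain A) (_ : Algebra k A) (_ : Algebra.Smooth k A)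
      (g : Aff k A ⟶ X.sch) (_ : IsOpenImmersion g.left) (y : PrimeSpectrum A)
      (B : Type u) (_ : CommRing B) (_ : Algebra k B) (q : A →ₐ[k] B)
      (J : Type u) (_ : Fintype J) (h : J → (Aff k B ⟶ Y)) (r : J → R),
      g.left (show (Aff k A).left from y) = x ∧ q.toRingHom.Finite ∧
      Function.Surjective (PrimeSpectrum.comap q.toRingHom) ∧
      ∀ (E : AlgClosedExt k) (v : Pts E (Aff k B)),
        α.val E (v ≫ Aff.map q ≫ g) = ∑ j, Finsupp.single (v ≫ h j) (r j) := by
  obtain ⟨A, _, _, _, _, g, hg, y, hy⟩ := exists_chart X x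
  obtain ⟨I, V, q, b, hq, hsurj, hα⟩ := α.exists_family
  obtain ⟨i, v, hv⟩ := hsurj (g.left (show (Aff k A).left from (⊥ : PrimeSpectrum A)))
  obtain ⟨z, hz, -⟩ := exists_pbk g (q i) (show (Aff k A).left from (⊥ : PrimeSpectrum A)) v hv.symm
  have hfin : IsFinite (pbkFst g (q i)).left := isFinite_pbkFst g (q i) (hq i)
  have hsurj' : Function.Surjective (pbkFst g (q i)).left := by
    have hc : IsClosed (Set.range (pbkFst g (q i)).left) :=
      (pbkFst g (q i)).left.isClosedMap.isClosed_range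
    intro w
    have h1 : (show PrimeSpectrum A from w) ∈ closure {(⊥ : PrimeSpectrum A)} := by
      rw [← PrimeSpectrum.le_iff_mem_closure]
      exact bot_le
    exact hc.closure_subset_iff.2 (Set.singleton_subset_iff.2 ⟨z, hz⟩) h1
  have haff : IsAffine (pbk g (q i)).left := by
    have : IsAffine (Aff k A).left := inferInstanceAs (IsAffine (Spec (CommRingCat.of A)))
    exact isAffine_of_isAffineHom (pbkFst g (q i)).left
  obtain ⟨inst, c, hc⟩ := exists_aff (pbk g (q i)) Γ((pbk g (q i)).left, ⊤)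
    (pbk g (q i)).left.isoSpec.inv
  have hciso : IsIso c.left := by
    rw [hc]
    exact Iso.isIso_inv _
  obtain ⟨q', hq'⟩ := Aff.exists_map (c ≫ pbkFst g (q i))
  have hleft : (Aff.map q').left = c.left ≫ (pbkFst g (q i)).left :=
    congrArg (fun t => t.left) hq'
  refine ⟨A, inferInstance, inferInstance, inferInstance, inferInstance, g, hg, y,
    Γ((pbk g (q i)).left, ⊤), inferInstance, inst, q', ↥(b i).support, inferInstance,
    fun j => c ≫ pbkSnd g (q i) ≫ j.1, fun j => b i j.1, hy, ?_, ?_, ?_⟩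
  · refine (IsFinite.SpecMap_iff (CommRingCat.ofHom q'.toRingHom)).1 ?_
    have h2 : IsFinite c.left := inferInstance
    have h1 : IsFinite (c.left ≫ (pbkFst g (q i)).left) :=
      MorphismProperty.comp_mem (@IsFinite) _ _ h2 hfin
    rw [← hleft] at h1
    exact h1
  · intro w
    obtain ⟨z, hz⟩ := hsurj' (show (Aff k A).left from w)
    obtain ⟨z', rfl⟩ := c.left.surjective z
    refine ⟨z', ?_⟩
    have h1 : (Aff.map q').left z' = (pbkFst g (q i)).left (c.left z') := by
      rw [hleft, Scheme.Hom.comp_apply]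
    exact h1.trans hz
  · intro E v
    have h1 : v ≫ Aff.map q' ≫ g = (v ≫ c ≫ pbkSnd g (q i)) ≫ q i := by
      rw [hq']
      simp only [Category.assoc, pbk_condition]
    rw [h1, hα, Finsupp.mapDomain, Finsupp.sum,
      ← Finset.sum_coe_sort (b i).support (fun j =>
        Finsupp.single ((v ≫ c ≫ pbkSnd g (q i)) ≫ j) (b i j))]
    refine Finset.sum_congr rfl fun j _ => ?_
    simp only [Category.assoc]

/-- Factorisation of a correspondence through its support. -/
theorem exists_factor_joint {V X W Y : KSch k} (α : Cor R X Y) (q : V ⟶ X) (hq : IsFinite q.left)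
    (hq' : Function.Surjective q.left) {J : Type*} [Fintype J] (h : J → (V ⟶ Y)) (r : J → R)
    (hα : ∀ (E : AlgClosedExt k) (v : Pts E V),
      α.val E (v ≫ q) = ∑ j, Finsupp.single (v ≫ h j) (r j))
    (p : W ⟶ X) (h' : W ⟶ Y) (c : J → (V ⟶ W)) (hcp : ∀ j, c j ≫ p = q)
    (hch : ∀ j, c j ≫ h' = h j)
    (hinj : ∀ (E : AlgClosedExt k) (w w' : Pts E W), w ≫ p = w' ≫ p → w ≫ h' = w' ≫ h' →
      w = w') :
    ∃ β : Cor R X W, β.comp (Cor.graph h') = α := by
  have key : ∀ (E : AlgClosedExt k) (v : Pts E V),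
      (∑ j, Finsupp.single (v ≫ c j) (r j)).mapDomain (fun w : Pts E W => (w ≫ p, w ≫ h')) =
        (α.val E (v ≫ q)).mapDomain (fun z : Pts E Y => (v ≫ q, z)) := by
    intro E v
    rw [hα, Finsupp.mapDomain_finsetSum, Finsupp.mapDomain_finsetSum]
    refine Finset.sum_congr rfl fun j _ => ?_
    rw [Finsupp.mapDomain_single, Finsupp.mapDomain_single, Category.assoc, Category.assoc, hcp,
      hch]
  have hmap : ∀ (E : AlgClosedExt k) (v : Pts E V),
      (∑ j, Finsupp.single (c j) (r j)).mapDomain (v ≫ ·) =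
        ∑ j, Finsupp.single (v ≫ c j) (r j) := by
    intro E v
    rw [Finsupp.mapDomain_finsetSum]
    refine Finset.sum_congr rfl fun j _ => ?_
    rw [Finsupp.mapDomain_single]
  obtain ⟨β, hβ⟩ := exists_cor (R := R) (X := X) (Y := W) (I := PUnit) (fun _ => V) (fun _ => q)
    (fun _ => hq) (fun x => by
      obtain ⟨v, hv⟩ := hq' x
      exact ⟨⟨⟩, v, hv⟩) (fun _ => ∑ j, Finsupp.single (c j) (r j)) (by
      rintro E - - v v' hv
      rw [hmap, hmap]
      refine Finsupp.mapDomain_injective (f := fun w : Pts E W => (w ≫ p, w ≫ h'))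
        (fun w w' hw => hinj E w w' (congrArg Prod.fst hw) (congrArg Prod.snd hw)) ?_
      rw [key, key, hv])
  refine ⟨β, Cor.ext fun E x => ?_⟩
  obtain ⟨v₀, hv₀⟩ := hq' (x.left E.pnt)
  obtain ⟨v, rfl⟩ := exists_lift_pt q E x ⟨v₀, hv₀⟩
  rw [Cor.comp_graph_val, hβ E ⟨⟩, hmap, hα, Finsupp.mapDomain_finsetSum]
  refine Finset.sum_congr rfl fun j _ => ?_
  rw [Finsupp.mapDomain_single, Category.assoc, hch]

/-- An étale covering, pulled back to an affine scheme, is refined by a finite family of affine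
étale morphisms. -/
theorem exists_affine_covering {C : Type u} [CommRing C] [Algebra k C] {Y : Sm k}
    (h' : Aff k C ⟶ Y.sch) {I : Type u} {Z : I → Sm k} {g : ∀ i, (Z i).sch ⟶ Y.sch}
    (hg : IsEtaleCovering Z g) :
    ∃ (T : Type u) (_ : Finite T) (D : T → Type u) (_ : ∀ t, CommRing (D t))
      (_ : ∀ t, Algebra k (D t)) (ψ : ∀ t, C →ₐ[k] D t) (s : T → I)
      (e : ∀ t, Aff k (D t) ⟶ (Z (s t)).sch),
      (∀ t, (ψ t).toRingHom.Etale) ∧ (∀ t, e t ≫ g (s t) = Aff.map (ψ t) ≫ h') ∧
      ∀ y : PrimeSpectrum C, ∃ (t : T) (z : PrimeSpectrum (D t)),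
        PrimeSpectrum.comap (ψ t).toRingHom z = y := by
  have key : ∀ y : PrimeSpectrum C, ∃ (D : Type u) (_ : CommRing D) (_ : Algebra k D)
      (ψ : C →ₐ[k] D) (i : I) (e : Aff k D ⟶ (Z i).sch), ψ.toRingHom.Etale ∧
      e ≫ g i = Aff.map ψ ≫ h' ∧ y ∈ Set.range (PrimeSpectrum.comap ψ.toRingHom) := by
    intro y
    obtain ⟨i, v, hv⟩ := hg.surjective (h'.left (show (Aff k C).left from y))
    obtain ⟨z, hz, -⟩ := exists_pbk h' (g i) (show (Aff k C).left from y) v hv.symm
    obtain ⟨D, _, _, c, hc, w, hw⟩ := exists_affine_chart (pbk h' (g i)) z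
    obtain ⟨ψ, hψ⟩ := Aff.exists_map (c ≫ pbkFst h' (g i))
    have het : Etale (pbkFst h' (g i)).left := by
      have := hg.etale i
      exact (inferInstance : Etale (pullback.fst h'.left (g i).left))
    have het' : Etale (c ≫ pbkFst h' (g i)).left := by
      rw [Over.comp_left]
      infer_instance
    rw [← hψ] at het'
    refine ⟨D, inferInstance, inferInstance, ψ, i, c ≫ pbkSnd h' (g i),
      (HasRingHomProperty.Spec_iff (P := @Etale)).1 het', ?_, w, ?_⟩
    · rw [hψ, Category.assoc, Category.assoc, pbk_condition]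
    · have h1 : (Aff.map ψ).left w = (pbkFst h' (g i)).left (c.left w) :=
        congrArg (fun t => t.left w) hψ
      exact h1.trans ((congrArg (pbkFst h' (g i)).left hw).trans hz)
  choose D instD instA ψ s e hψ he hy using key
  have hopen : ∀ y, IsOpen (Set.range (PrimeSpectrum.comap (ψ y).toRingHom)) := by
    intro y
    have h1 : Etale (Aff.map (ψ y)).left := (HasRingHomProperty.Spec_iff (P := @Etale)).2 (hψ y)
    exact (Aff.map (ψ y)).left.isOpenMap.isOpen_range
  obtain ⟨F, hF⟩ := isCompact_univ.elim_finite_subcover _ hopen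
    (fun y _ => Set.mem_iUnion.2 ⟨y, hy y⟩)
  refine ⟨↥F, inferInstance, fun t => D t.1, fun t => instD t.1, fun t => instA t.1,
    fun t => ψ t.1, fun t => s t.1, fun t => e t.1, fun t => hψ t.1, fun t => he t.1,
    fun y => ?_⟩
  obtain ⟨t, ht, z, hz⟩ := Set.mem_iUnion₂.1 (hF (Set.mem_univ y))
  exact ⟨⟨t, ht⟩, z, hz⟩

/-- The lift of a morphism along an étale covering, given a section over the base. -/
theorem graph_mem_throughK {C C' : Type u} [CommRing C] [Algebra k C] [CommRing C'] [Algebra k C']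
    {Y : Sm k} (h' : Aff k C ⟶ Y.sch) {I : Type u} {Z : I → Sm k}
    {g : ∀ i, (Z i).sch ⟶ Y.sch} {T : Type u} [Finite T] (D : T → Type u) [∀ t, CommRing (D t)]
    [∀ t, Algebra k (D t)] (ψ : ∀ t, C →ₐ[k] D t) (s : T → I)
    (e : ∀ t, Aff k (D t) ⟶ (Z (s t)).sch) (he : ∀ t, e t ≫ g (s t) = Aff.map (ψ t) ≫ h')
    (l : (∀ t, D t) →ₐ[k] C') (ι : C →ₐ[k] C') (hι : ∀ c, ι c = l (fun t => ψ t c)) :
    Cor.graph (R := R) (Aff.map ι ≫ h') ∈
      throughK (T := fun i => (Z i).sch) g (Aff k C') := by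
  let P : T → KSch k := fun t => pbk (Aff.map l) (Aff.incl D t)
  let L : ∀ t, P t ⟶ Aff k C' := fun t => pbkFst (Aff.map l) (Aff.incl D t)
  have hincl : ∀ t, IsOpenImmersion (Aff.incl (k := k) D t).left := by
    intro t
    have h1 : IsOpenImmersion (Spec.map (CommRingCat.ofHom (Pi.evalRingHom D t))) :=
      inferInstance
    exact h1
  have hbij := PrimeSpectrum.sigmaToPi_bijective D
  have hcond : ∀ t (x : (P t).left), (Aff.map l).left ((L t).left x) =
      (Aff.incl D t).left ((pbkSnd (Aff.map l) (Aff.incl D t)).left x) := fun t x =>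
    congrArg (fun f => f.left x) (pbk_condition (Aff.map l) (Aff.incl D t))
  refine mem_throughK_of_id_mem (l := L) (id_mem_throughK L (fun t => ?_) (fun t t' x x' h => ?_)
    fun y => ?_) _ fun t => ?_
  · exact (inferInstance : IsOpenImmersion (pullback.fst (Aff.map l).left (Aff.incl D t).left))
  · have h1 := (hcond t x).symm.trans ((congrArg (Aff.map l).left h).trans (hcond t' x'))
    have h2 := hbij.1 (a₁ := ⟨t, (pbkSnd (Aff.map l) (Aff.incl D t)).left x⟩)
      (a₂ := ⟨t', (pbkSnd (Aff.map l) (Aff.incl D t')).left x'⟩) h1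
    exact congrArg Sigma.fst h2
  · obtain ⟨⟨t, z⟩, hz⟩ := hbij.2 ((Aff.map l).left y)
    obtain ⟨w, hw, -⟩ := exists_pbk (Aff.map l) (Aff.incl D t) y z hz.symm
    exact ⟨t, w, hw⟩
  · rw [Cor.graph_comp_graph]
    have hιl : ι = l.comp (AlgHom.pi ψ) := AlgHom.ext fun c => hι c
    have h1 : L t ≫ Aff.map ι ≫ h' = (pbkSnd (Aff.map l) (Aff.incl D t) ≫ e t) ≫ g (s t) := by
      rw [hιl, Aff.map_comp]
      have h2 : Aff.incl D t ≫ Aff.map (AlgHom.pi ψ) = Aff.map (ψ t) := by
        rw [Aff.incl, ← Aff.map_comp]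
        congr 1
      have h3 : L t ≫ Aff.map l = pbkSnd (Aff.map l) (Aff.incl D t) ≫ Aff.incl D t :=
        pbk_condition _ _
      have h4 : (pbkSnd (Aff.map l) (Aff.incl D t) ≫ e t) ≫ g (s t) =
          pbkSnd (Aff.map l) (Aff.incl D t) ≫ Aff.incl D t ≫ Aff.map (AlgHom.pi ψ) ≫ h' := by
        rw [Category.assoc, he, ← h2, Category.assoc]
      rw [h4, Category.assoc, ← Category.assoc (L t), h3, Category.assoc]
    rw [h1, ← Cor.graph_comp_graph]
    exact comp_graph_mem_throughK (l := g) (s t) _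

end Pool.Agent.H694_ABV
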