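import Pool.Agent.H694_ABV.Decomp
import Pool.Agent.H694_ABV.A1
import Pool.Agent.H694_ABV.EtaleLift
import Pool.Agent.H694_ABV.EtaleDim
import Pool.Agent.H694_ABV.Dim

/-!
# Working on dense open subschemes
-/

open CategoryTheory AlgebraicGeometry Limits

universe u

namespace Pool.Agent.H694_ABV

variable {k : Type u} [Field k] {R : Type u} [CommRing R]

section

variable {X Y U V W : Sm k}

lemma IsDenseOpen.id (X : Sm k) : IsDenseOpen (𝟙 X.sch) where
  isOpenImmersion := (inferInstance : IsOpenImmersion (𝟙 X.sch.left))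
  dense := by
    have h : Set.range (𝟙 X.sch : X.sch ⟶ X.sch).left = Set.univ :=
      Set.range_eq_univ.2 fun x => ⟨x, rfl⟩
    rw [h]
    exact dense_univ

lemma IsDenseOpen.comp {i : W.sch ⟶ U.sch} {j : U.sch ⟶ X.sch} (hi : IsDenseOpen i)
    (hj : IsDenseOpen j) : IsDenseOpen (i ≫ j) where
  isOpenImmersion := by
    have := hi.isOpenImmersion
    have := hj.isOpenImmersion
    exact (inferInstance : IsOpenImmersion (i.left ≫ j.left))
  dense := by
    have h1 : DenseRange i.left := hi.dense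
    have h2 : DenseRange j.left := hj.dense
    exact h2.comp h1 j.left.continuous

lemma IsDenseOpen.etale {j : U.sch ⟶ X.sch} (hj : IsDenseOpen j) : Etale j.left := by
  have := hj.isOpenImmersion
  infer_instance

lemma Sm.DimBelow.of_etale {N : ℕ∞} (h : X.DimBelow N) (f : U.sch ⟶ X.sch) (hf : Etale f.left) :
    U.DimBelow N :=
  lt_of_le_of_lt (topologicalKrullDim_le_of_etale f hf) h

lemma Sm.DimBelow.of_dimLT {N : ℕ∞} {d : ℕ} (h : X.DimBelow N)
    (hd : topologicalKrullDim X.sch.left = d) (hY : Y.DimLT d) : Y.DimBelow N := by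
  refine lt_trans hY ?_
  have h1 : topologicalKrullDim X.sch.left < N := h
  rwa [hd] at h1

lemma Sm.dimBelow_top (X : Sm k) : X.DimBelow ⊤ := by
  obtain ⟨N, hN⟩ := X.exists_dimLT
  refine lt_of_lt_of_le hN ?_
  exact_mod_cast (le_top : ((N : ℕ) : ℕ∞) ≤ ⊤)

/-! ### Null-homotopic correspondences -/

lemma mem_nullHomotopic {φ : Cor R U.sch X.sch} :
    φ ∈ nullHomotopic R U X ↔ ∃ ψ : Cor R U.timesA1.sch X.sch,
      (Cor.graph (U.const 0)).comp ψ - (Cor.graph (U.const 1)).comp ψ = φ := Iff.rfl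

lemma comp_mem_nullHomotopic (δ : Cor R V.sch U.sch) {φ : Cor R U.sch X.sch}
    (h : φ ∈ nullHomotopic R U X) : δ.comp φ ∈ nullHomotopic R V X := by
  obtain ⟨ψ, rfl⟩ := mem_nullHomotopic.1 h
  obtain ⟨ε, hε⟩ := δ.exists_timesA1'
  refine mem_nullHomotopic.2 ⟨ε.comp ψ, ?_⟩
  rw [← Cor.comp_assoc, ← Cor.comp_assoc, hε, hε, Cor.comp_assoc, Cor.comp_assoc]
  exact (map_sub (Cor.compLeft δ) _ _).symm

lemma nullHomotopic_comp_mem {φ : Cor R U.sch X.sch} (h : φ ∈ nullHomotopic R U X)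
    (γ : Cor R X.sch Y.sch) : φ.comp γ ∈ nullHomotopic R U Y := by
  obtain ⟨ψ, rfl⟩ := mem_nullHomotopic.1 h
  refine mem_nullHomotopic.2 ⟨ψ.comp γ, ?_⟩
  rw [← Cor.comp_assoc, ← Cor.comp_assoc]
  exact (map_sub (Cor.compRight γ) _ _).symm

lemma nullHomotopic_le (K : ClosedSub R X) (U : Sm k) : nullHomotopic R U X ≤ K.carrier U := by
  rintro _ ⟨ψ, rfl⟩
  exact K.homotopy_mem U ψ

/-! ### Dense open subschemes -/

/-- Membership can be checked on a dense open subscheme. -/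
lemma ClosedSub.mem_of_dense [PerfectField k] (K : ClosedSub R X) {i : V.sch ⟶ U.sch}
    (hi : IsDenseOpen i) {φ : Cor R U.sch X.sch} (h : (Cor.graph i).comp φ ∈ K.carrier V) :
    φ ∈ K.carrier U := by
  have h1 : ClosedSub.comap φ K = ⊤ :=
    denseEpi U V i hi.isOpenImmersion hi.dense _ (by rwa [ClosedSub.mem_comap])
  have h2 : Cor.graph (𝟙 U.sch) ∈ (ClosedSub.comap φ K).carrier U := by
    rw [h1]
    exact ClosedSub.mem_top
  rwa [ClosedSub.mem_comap, Cor.id_comp] at h2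

lemma ClosedSub.eq_top_of_dense [PerfectField k] (K : ClosedSub R X) {j : U.sch ⟶ X.sch}
    (hj : IsDenseOpen j) (h : Cor.graph j ∈ K.carrier U) : K = ⊤ :=
  denseEpi X U j hj.isOpenImmersion hj.dense K h

lemma ClosedSub.map_top_of_dense [PerfectField k] {j : U.sch ⟶ X.sch} (hj : IsDenseOpen j) :
    ClosedSub.map (R := R) (Cor.graph j) ⊤ = ⊤ := by
  refine ClosedSub.eq_top_of_dense _ hj ?_
  have := ClosedSub.le_comap_map (R := R) (Cor.graph j) ⊤ U
    (x := Cor.graph (𝟙 U.sch)) ClosedSub.mem_top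
  rwa [ClosedSub.mem_comap, Cor.id_comp] at this

/-- With rational coefficients, étale coverings can be replaced by dense open subschemes. -/
lemma exists_denseOpen_of_covering [Algebra ℚ R]
    (T : ∀ U : Sm k, Submodule R (Cor R U.sch X.sch))
    (hT : ∀ (U V : Sm k) (δ : Cor R V.sch U.sch) (φ : Cor R U.sch X.sch), φ ∈ T U →
      δ.comp φ ∈ T V) {I : Type u} {V : I → Sm k} {f : ∀ i, (V i).sch ⟶ U.sch}
    (hf : IsEtaleCovering V f) {φ : Cor R U.sch X.sch}
    (h : ∀ i, (Cor.graph (f i)).comp φ ∈ T (V i)) :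
    ∃ (U' : Sm k) (j : U'.sch ⟶ U.sch), IsDenseOpen j ∧ (Cor.graph j).comp φ ∈ T U' := by
  obtain ⟨U', j, hj, hj', hj''⟩ := etaleTransfer (R := R) U I V f hf
  refine ⟨U', j, ⟨hj, hj'⟩, ?_⟩
  have h1 : through f U' ≤ (T U').comap (Cor.compRight φ) := by
    refine through_le fun i δ => ?_
    rw [Submodule.mem_comap, Cor.compRight_apply, Cor.comp_assoc]
    exact hT _ _ _ _ (h i)
  exact h1 hj''

/-- Elements of the closed subfunctor generated by a subfunctor. -/
lemma exists_denseOpen_of_mem [PerfectField k] [Algebra ℚ R]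
    (T : ∀ U : Sm k, Submodule R (Cor R U.sch X.sch))
    (hT : ∀ (U V : Sm k) (δ : Cor R V.sch U.sch) (φ : Cor R U.sch X.sch), φ ∈ T U →
      δ.comp φ ∈ T V) {φ : Cor R U.sch X.sch}
    (h : ∀ G : ClosedSub R X, (∀ U, T U ≤ G.carrier U) → φ ∈ G.carrier U) :
    ∃ (U' : Sm k) (j : U'.sch ⟶ U.sch), IsDenseOpen j ∧
      (Cor.graph j).comp φ ∈ T U' ⊔ nullHomotopic R U' X := by
  have hT₁ : ∀ (U V : Sm k) (δ : Cor R V.sch U.sch) (φ : Cor R U.sch X.sch),
      φ ∈ T U ⊔ nullHomotopic R U X → δ.comp φ ∈ T V ⊔ nullHomotopic R V X := by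
    intro U V δ φ hφ
    obtain ⟨a, ha, b, hb, rfl⟩ := Submodule.mem_sup.1 hφ
    rw [Cor.comp_add]
    exact Submodule.add_mem_sup (hT _ _ δ a ha) (comp_mem_nullHomotopic δ hb)
  have key := h (etaleClosure etaleLift (fun U => T U ⊔ nullHomotopic R U X) hT₁
    fun U φ => Submodule.mem_sup_right (mem_nullHomotopic.2 ⟨φ, rfl⟩))
    (fun U φ hφ => mem_etaleClosure.2 ⟨PUnit, _, _, IsEtaleCovering.id U, fun i => by
      rw [Cor.id_comp]; exact Submodule.mem_sup_left hφ⟩)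
  obtain ⟨I, V, f, hf, hf'⟩ := mem_etaleClosure.1 key
  exact exists_denseOpen_of_covering _ hT₁ hf hf'

lemma exists_denseOpen_of_mem_bot [PerfectField k] [Algebra ℚ R] {φ : Cor R U.sch X.sch}
    (h : φ ∈ (⊥ : ClosedSub R X).carrier U) :
    ∃ (U' : Sm k) (j : U'.sch ⟶ U.sch), IsDenseOpen j ∧
      (Cor.graph j).comp φ ∈ nullHomotopic R U' X := by
  obtain ⟨U', j, hj, h1⟩ := exists_denseOpen_of_mem (R := R) (X := X) (fun _ => ⊥)
    (fun U V δ φ hφ => by
      rw [Submodule.mem_bot] at hφ ⊢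
      rw [hφ]
      exact map_zero (Cor.compLeft δ))
    (φ := φ) (fun G _ => (bot_le : (⊥ : ClosedSub R X) ≤ G) U h)
  rw [bot_sup_eq] at h1
  exact ⟨U', j, hj, h1⟩

end

end Pool.Agent.H694_ABV
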