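import Pool.Agent.H694_ABV.Pbk
import Pool.Agent.H694_ABV.Alg.F
import Pool.Agent.H694_ABV.Alg.G

/-!
# The local moving lemma
-/

open CategoryTheory AlgebraicGeometry Limits

universe u

namespace Pool.Agent.H694_ABV

variable {k : Type u} [Field k] {R : Type u} [CommRing R]

lemma isIntegral_of_adjoin {L A : Type u} [Field L] [CommRing A] [Algebra L A] {d : ℕ}
    (t : Fin d → A) (a : A) (h : IsIntegral (Algebra.adjoin L (Set.range t)) a) :
    (MvPolynomial.aeval (R := L) t).toRingHom.IsIntegralElem a := by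
  obtain ⟨p, hp, hpa⟩ := h
  have hr : Algebra.adjoin L (Set.range t) = (MvPolynomial.aeval (R := L) t).range :=
    Algebra.adjoin_range_eq_range_aeval L t
  let f : MvPolynomial (Fin d) L →+* Algebra.adjoin L (Set.range t) :=
    (MvPolynomial.aeval (R := L) t).toRingHom.codRestrict
      (Algebra.adjoin L (Set.range t)).toSubring (fun x => by
        show MvPolynomial.aeval t x ∈ Algebra.adjoin L (Set.range t)
        rw [hr]
        exact ⟨x, rfl⟩)
  have hf : Function.Surjective f := by
    rintro ⟨y, hy⟩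
    rw [hr] at hy
    obtain ⟨x, hx⟩ := hy
    exact ⟨x, Subtype.ext hx⟩
  obtain ⟨p', hp', -, hm⟩ := Polynomial.lifts_and_natDegree_eq_and_monic (f := f) (p := p)
    ((Polynomial.mem_lifts p).2 (Polynomial.map_surjective f hf p)) hp
  refine ⟨p', hm, ?_⟩
  rw [← hp', Polynomial.eval₂_map] at hpa
  exact hpa

section

variable {L A : Type u} [Field L] [CommRing A] [IsDomain A] [Algebra k L] [Algebra k A]
  [Algebra L A] [IsScalarTower k L A] [Algebra.FiniteType k A]

/-- The transfer for a finite morphism to affine space, and its relation to the identity. -/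
theorem exists_transfer_data {d : ℕ} (t : Fin d → A) (ht : AlgebraicIndependent L t)
    (hint : ∀ a : A, IsIntegral (Algebra.adjoin L (Set.range t)) a) :
    ∃ (B : Type u) (_ : CommRing B) (_ : IsDomain B) (_ : Algebra k B)
      (ιP : MvPolynomial (Fin d) L →ₐ[k] A) (q : MvPolynomial (Fin d) L →ₐ[k] B)
      (S : Type u) (_ : Fintype S) (σ : S → (A →ₐ[k] B)) (_ : S)
      (τ : Cor R (Aff k (MvPolynomial (Fin d) L)) (Aff k A)),
      (∀ p, ιP p = MvPolynomial.aeval t p) ∧ (∀ s, (σ s).comp ιP = q) ∧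
      q.toRingHom.Finite ∧ Function.Surjective (PrimeSpectrum.comap q.toRingHom) ∧
      (∀ s, Function.Injective (σ s)) ∧
      (∀ (M : Ideal A) (Q : Ideal B) (_ : Q ≠ ⊤) (s s' : S),
        (∀ a : A, ∃ c : L, a - algebraMap L A c ∈ M) → (∀ i, t i ∈ M) →
        M ≤ Ideal.span (Set.range t) ⊔ M ^ 2 → (∀ a ∈ M, σ s a ∈ Q) → (∀ a ∈ M, σ s' a ∈ Q) →
        s = s') ∧
      ∀ (E : AlgClosedExt k) (v : Pts E (Aff k B)),
        τ.val E (v ≫ Aff.map q) = ∑ s, Finsupp.single (v ≫ Aff.map (σ s)) 1 := by
  classical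
  let P := MvPolynomial (Fin d) L
  let : Algebra P A := (MvPolynomial.aeval (R := L) t).toRingHom.toAlgebra
  have hPA : ∀ p : P, algebraMap P A p = MvPolynomial.aeval t p := fun p => rfl
  have : IsScalarTower L P A := IsScalarTower.of_algebraMap_eq fun l => by
    rw [hPA, MvPolynomial.algebraMap_eq, MvPolynomial.aeval_C]
  have : IsScalarTower k P A := IsScalarTower.of_algebraMap_eq fun c => by
    rw [IsScalarTower.algebraMap_apply k L P, ← IsScalarTower.algebraMap_apply L P A,
      ← IsScalarTower.algebraMap_apply k L A]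
  have hinj : Function.Injective (algebraMap P A) := ht
  have : Algebra.FiniteType P A := Algebra.FiniteType.of_restrictScalars_finiteType k P A
  have : Algebra.IsIntegral P A := ⟨fun a => isIntegral_of_adjoin t a (hint a)⟩
  have : Module.Finite P A := Algebra.IsIntegral.finite
  obtain ⟨B, _, _, _, _, hB, ⟨s₀⟩, hfin, htrans⟩ := H694.galois_closure (P := P) (A := A) hinj
  let : Algebra k B := ((algebraMap P B).comp (algebraMap k P)).toAlgebra
  have : IsScalarTower k P B := IsScalarTower.of_algebraMap_eq fun _ => rfl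
  let : Fintype (A →ₐ[P] B) := Fintype.ofFinite _
  let q : P →ₐ[k] B := IsScalarTower.toAlgHom k P B
  let ιP : P →ₐ[k] A := IsScalarTower.toAlgHom k P A
  let σ : (A →ₐ[P] B) → (A →ₐ[k] B) := fun s => s.restrictScalars k
  have hσq : ∀ s, (σ s).comp ιP = q := fun s => AlgHom.ext fun p => s.commutes p
  have hqfin : q.toRingHom.Finite := RingHom.finite_algebraMap.2 inferInstance
  have hqint : q.toRingHom.IsIntegral := hqfin.to_isIntegral
  have hqsurj : Function.Surjective (PrimeSpectrum.comap q.toRingHom) :=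
    hqint.comap_surjective hB
  obtain ⟨τ, hτ⟩ := exists_transfer (R := R) q hqfin hqsurj σ (by
    intro E y y' hyy'
    obtain ⟨g, hg⟩ := htrans E.Ω y.toRingHom y'.toRingHom
      (RingHom.ext fun p => DFunLike.congr_fun hyy' p)
    let e : (A →ₐ[P] B) ≃ (A →ₐ[P] B) :=
      { toFun := fun s => g.toAlgHom.comp s
        invFun := fun s => g.symm.toAlgHom.comp s
        left_inv := fun s => by ext a; simp
        right_inv := fun s => by ext a; simp }
    refine (Fintype.sum_equiv e _ _ fun s => ?_).symm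
    congr 2
    refine AlgHom.ext fun a => ?_
    exact DFunLike.congr_fun hg (s a))
  refine ⟨B, inferInstance, inferInstance, inferInstance, ιP, q, (A →ₐ[P] B), inferInstance, σ, s₀,
    τ, hPA, hσq, hqfin, hqsurj, ?_, ?_, ?_⟩
  · intro s
    refine (injective_iff_map_eq_zero (σ s)).2 fun a ha => ?_
    have h1 : RingHom.ker (σ s).toRingHom = ⊥ := by
      refine Ideal.eq_bot_of_comap_eq_bot (R := P) ?_
      refine eq_bot_iff.2 fun p hp => ?_
      have h2 : q p = 0 := by
        rw [← hσq s]
        exact hp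
      have h3 : algebraMap P B p = algebraMap P B 0 := by rw [map_zero]; exact h2
      exact hB h3
    have h4 : a ∈ RingHom.ker (σ s).toRingHom := ha
    rwa [h1] at h4
  · intro M Q hQ s s' hML htM hMt hs hs'
    have hspan : (Ideal.span (Set.range (MvPolynomial.X : Fin d → P))).map (algebraMap P A) =
        Ideal.span (Set.range t) := by
      rw [Ideal.map_span]
      congr 1
      rw [← Set.range_comp]
      congr 1
      funext i
      exact MvPolynomial.aeval_X t i
    refine H694.rigidity s s' M (fun a => ?_)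
      (Ideal.span (Set.range (MvPolynomial.X : Fin d → P))) ?_ Q hQ hs hs' ?_
    · obtain ⟨c, hc⟩ := hML a
      refine ⟨MvPolynomial.C c, ?_⟩
      rwa [hPA, MvPolynomial.aeval_C]
    · rw [hspan]
      exact hMt
    · intro p hp
      have h1 : algebraMap P A p ∈ M := by
        have h2 : Ideal.span (Set.range t) ≤ M := Ideal.span_le.2 (by
          rintro _ ⟨i, rfl⟩
          exact htM i)
        exact h2 (hspan ▸ Ideal.mem_map_of_mem _ hp)
      have h3 := hs _ h1
      have h4 : s (algebraMap P A p) = algebraMap P B p := s.commutes p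
      rwa [← h4]
  · intro E v
    obtain ⟨y, rfl⟩ := Aff.pt_surjective E v
    rw [← Aff.pt_comp, hτ]
    simp only [Aff.pt_comp]

lemma ClosedSub.mem_of_eq {X U : Sm k} (K : ClosedSub R X) {φ ψ : Cor R U.sch X.sch}
    (h : φ ∈ K.carrier U) (e : φ = ψ) : ψ ∈ K.carrier U := e ▸ h

/-- **The local moving lemma.** If a closed subfunctor of `Cor(-, Spec A)` contains the inclusion of
`D(f)`, it contains the inclusion of an open neighbourhood of `M`. -/
theorem local_move [Algebra.Smooth k A] (f : A) (M : Ideal A) [hMp : M.IsPrime] {d : ℕ}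
    (t : Fin d → A) (b : Fin d → L) (G : MvPolynomial (Fin d) L)
    (hML : ∀ a : A, ∃ c : L, a - algebraMap L A c ∈ M) (ht : AlgebraicIndependent L t)
    (hint : ∀ a : A, IsIntegral (Algebra.adjoin L (Set.range t)) a)
    (htM : ∀ i, t i ∈ M) (hMt : M ≤ Ideal.span (Set.range t) ⊔ M ^ 2)
    (hZ : ∀ q : Ideal A, q.IsPrime → f ∈ q → (∀ i, t i ∈ q) → M ≤ q)
    (hG : MvPolynomial.eval b G ≠ 0) (hGf : MvPolynomial.aeval t G ∈ Ideal.span {f})
    (K : ClosedSub R (Sm.aff k A)) (W : (Aff k A).left.Opens)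
    (hW : ∀ x : PrimeSpectrum A, f ∉ x.asIdeal → (show (Aff k A).left from x) ∈ W)
    (hK : Cor.graph (opensι (Aff k A) W) ∈ K.carrier ((Sm.aff k A).opens W)) :
    ∃ V : (Aff k A).left.Opens, (show (Aff k A).left from (⟨M, hMp⟩ : PrimeSpectrum A)) ∈ V ∧
      Cor.graph (opensι (Aff k A) V) ∈ K.carrier ((Sm.aff k A).opens V) := by
  classical
  obtain ⟨B, _, _, _, ιP, q, S, _, σ, s₀, τ, hιP, hσq, hqfin, hqsurj, hσinj, hrig, hτ⟩ :=
    exists_transfer_data (k := k) (R := R) t ht hint
  -- the finite surjective morphism to `Spec A`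
  have hσfin : ∀ s, (σ s).toRingHom.Finite := fun s => by
    refine RingHom.Finite.of_comp_finite (f := ιP.toRingHom) ?_
    have : (σ s).toRingHom.comp ιP.toRingHom = q.toRingHom := by
      rw [← hσq s]; rfl
    rw [this]
    exact hqfin
  -- `α`, the composition of the projection and its transpose
  let α : Cor R (Aff k A) (Aff k A) := (Cor.graph (Aff.map ιP)).comp τ
  have hα : ∀ (E : AlgClosedExt k) (v : Pts E (Aff k B)),
      α.val E (v ≫ Aff.map (σ s₀)) = ∑ s, Finsupp.single (v ≫ Aff.map (σ s)) 1 := by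
    intro E v
    show ((Cor.graph (Aff.map ιP)).comp τ).val E (v ≫ Aff.map (σ s₀)) = _
    rw [Cor.graph_comp_val, Category.assoc, ← Aff.map_comp, hσq, hτ]
  -- `α` is in `K`
  have hαK : α ∈ K.carrier (Sm.aff k A) := by
    let evb : MvPolynomial (Fin d) L →ₐ[k] A :=
      (MvPolynomial.aeval (R := L) fun i => algebraMap L A (b i)).restrictScalars k
    let H : MvPolynomial (Fin d) L →ₐ[k] MvPolynomial PUnit.{u + 1} A :=
      (MvPolynomial.aeval (R := L) fun i => (MvPolynomial.C (t i) + MvPolynomial.X ⟨⟩ *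
        MvPolynomial.C (algebraMap L A (b i) - t i) :
          MvPolynomial PUnit.{u + 1} A)).restrictScalars k
    have key := K.aff_homotopy H ιP evb (fun p => by
        rw [hιP]
        have h0 : (((MvPolynomial.aeval (fun _ => (0 : A)) :
            MvPolynomial PUnit.{u + 1} A →ₐ[A] A).restrictScalars L).comp
            (MvPolynomial.aeval (R := L) fun i => (MvPolynomial.C (t i) + MvPolynomial.X ⟨⟩ *
              MvPolynomial.C (algebraMap L A (b i) - t i) : MvPolynomial PUnit.{u + 1} A))) =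
            MvPolynomial.aeval t := by
          refine MvPolynomial.algHom_ext fun i => ?_
          simp
        exact DFunLike.congr_fun h0 p) (fun p => by
        have h0 : (((MvPolynomial.aeval (fun _ => (1 : A)) :
            MvPolynomial PUnit.{u + 1} A →ₐ[A] A).restrictScalars L).comp
            (MvPolynomial.aeval (R := L) fun i => (MvPolynomial.C (t i) + MvPolynomial.X ⟨⟩ *
              MvPolynomial.C (algebraMap L A (b i) - t i) : MvPolynomial PUnit.{u + 1} A))) =
            MvPolynomial.aeval fun i => algebraMap L A (b i) := by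
          refine MvPolynomial.algHom_ext fun i => ?_
          simp
        exact DFunLike.congr_fun h0 p) τ
    obtain ⟨γ, hγ⟩ := exists_factor_pbk (opensι (Aff k A) W) τ (Aff.map evb) (Aff.map q)
      (Aff.isFinite_map q hqfin) hqsurj (fun s => Aff.map (σ s)) hτ (fun s => by
        refine ⟨liftOpens (pbkSnd (Aff.map evb) (Aff.map q) ≫ Aff.map (σ s)) W fun z => ?_,
          liftOpens_ι _ _ _⟩
        let y : PrimeSpectrum B := (pbkSnd (Aff.map evb) (Aff.map q)).left z
        let x : PrimeSpectrum A := (pbkFst (Aff.map evb) (Aff.map q)).left z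
        have hxy : PrimeSpectrum.comap evb.toRingHom x = PrimeSpectrum.comap q.toRingHom y := by
          have h1 := congrArg (fun g => g.left z) (pbk_condition (Aff.map evb) (Aff.map q))
          exact h1
        refine hW (PrimeSpectrum.comap (σ s).toRingHom y) fun hf => ?_
        have hf' : σ s f ∈ y.asIdeal := hf
        obtain ⟨h', hh'⟩ := Ideal.mem_span_singleton'.1 hGf
        have h2 : q G ∈ y.asIdeal := by
          rw [← hσq s, AlgHom.comp_apply, hιP, ← hh', map_mul]
          exact Ideal.mul_mem_left _ _ hf'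
        have h3 : G ∈ (PrimeSpectrum.comap q.toRingHom y).asIdeal := h2
        rw [← hxy] at h3
        have h4 : evb G ∈ x.asIdeal := h3
        have h5 : evb G = algebraMap L A (MvPolynomial.eval b G) := by
          show MvPolynomial.aeval (fun i => algebraMap L A (b i)) G = _
          exact (MvPolynomial.aeval_algebraMap_apply A b G).trans
            (congrArg _ (MvPolynomial.aeval_eq_eval b ▸ rfl))
        rw [h5] at h4
        exact x.2.ne_top (Ideal.eq_top_of_isUnit_mem _ h4
          ((isUnit_iff_ne_zero.2 hG).map (algebraMap L A))))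
    have h6 : (Cor.graph (Aff.map evb)).comp τ ∈ K.carrier (Sm.aff k A) := by
      rw [← hγ]
      exact K.pull_mem _ hK
    have h8 : α = ((Cor.graph (Aff.map ιP)).comp τ - (Cor.graph (Aff.map evb)).comp τ) +
        (Cor.graph (Aff.map evb)).comp τ := (sub_add_cancel _ _).symm
    rw [h8]
    exact Submodule.add_mem _ key h6
  -- the bad locus
  have hf0 : IsFinite (Aff.map (σ s₀)).left := Aff.isFinite_map _ (hσfin s₀)
  let ZB : Set (PrimeSpectrum B) :=
    ⋃ s : {s : S // s ≠ s₀}, PrimeSpectrum.zeroLocus {σ s.1 f}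
  have hZB : IsClosed ZB := isClosed_iUnion_of_finite fun s => PrimeSpectrum.isClosed_zeroLocus _
  have hZ' : IsClosed ((Aff.map (σ s₀)).left '' ZB) :=
    (Aff.map (σ s₀)).left.isClosedMap ZB hZB
  let V : (Aff k A).left.Opens := ⟨((Aff.map (σ s₀)).left '' ZB)ᶜ, hZ'.isOpen_compl⟩
  have hMV : (show (Aff k A).left from (⟨M, hMp⟩ : PrimeSpectrum A)) ∈ V := by
    rintro ⟨y, hy, hyM⟩
    obtain ⟨⟨s, hs⟩, hy⟩ := Set.mem_iUnion.1 hy
    have hfy : σ s f ∈ y.asIdeal := hy rfl
    have hM0 : ∀ a ∈ M, σ s₀ a ∈ y.asIdeal := by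
      intro a ha
      have h1 : (PrimeSpectrum.comap (σ s₀).toRingHom y) = (⟨M, hMp⟩ : PrimeSpectrum A) := hyM
      have h2 : a ∈ (PrimeSpectrum.comap (σ s₀).toRingHom y).asIdeal := by
        rw [h1]; exact ha
      exact h2
    have ht' : ∀ i, σ s (t i) = σ s₀ (t i) := by
      intro i
      have h1 : t i = ιP (MvPolynomial.X i) := by rw [hιP, MvPolynomial.aeval_X]
      rw [h1]
      have h2 := DFunLike.congr_fun (hσq s) (MvPolynomial.X i)
      have h3 := DFunLike.congr_fun (hσq s₀) (MvPolynomial.X i)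
      exact h2.trans h3.symm
    have hMs : ∀ a ∈ M, σ s a ∈ y.asIdeal := by
      intro a ha
      exact hZ (PrimeSpectrum.comap (σ s).toRingHom y).asIdeal
        (PrimeSpectrum.comap (σ s).toRingHom y).2 hfy
        (fun i => by
          show σ s (t i) ∈ y.asIdeal
          rw [ht']
          exact hM0 _ (htM i)) ha
    exact hs (hrig M y.asIdeal y.2.ne_top s s₀ hML htM hMt hMs hM0)
  refine ⟨V, hMV, ?_⟩
  -- the difference of `α` and the identity, over `V`
  obtain ⟨g, hg⟩ : ∃ g : {s : S // s ≠ s₀} →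
      (pbk (opensι (Aff k A) V) (Aff.map (σ s₀)) ⟶ opens (Aff k A) W),
      ∀ s, g s ≫ opensι (Aff k A) W =
        pbkSnd (opensι (Aff k A) V) (Aff.map (σ s₀)) ≫ Aff.map (σ s.1) := by
    refine ⟨fun s => liftOpens (pbkSnd (opensι (Aff k A) V) (Aff.map (σ s₀)) ≫ Aff.map (σ s.1)) W
      fun z => ?_, fun s => liftOpens_ι _ _ _⟩
    let y : PrimeSpectrum B := (pbkSnd (opensι (Aff k A) V) (Aff.map (σ s₀))).left z
    refine hW (PrimeSpectrum.comap (σ s.1).toRingHom y) fun hf => ?_
    have h1 : (Aff.map (σ s₀)).left y ∈ V := by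
      have h2 := congrArg (fun g => g.left z) (pbk_condition (opensι (Aff k A) V) (Aff.map (σ s₀)))
      have h3 : (opensι (Aff k A) V).left ((pbkFst (opensι (Aff k A) V) (Aff.map (σ s₀))).left z) =
        (Aff.map (σ s₀)).left y := h2
      rw [← h3]
      exact ((pbkFst (opensι (Aff k A) V) (Aff.map (σ s₀))).left z).2
    exact h1 ⟨y, Set.mem_iUnion.2 ⟨s, by
      rintro a ha
      rw [Set.mem_singleton_iff.1 ha]
      exact hf⟩, rfl⟩
  obtain ⟨γ, hγ⟩ := exists_factor (R := R) (opensι (Aff k A) W)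
    ((Cor.graph (opensι (Aff k A) V)).comp α - Cor.graph (opensι (Aff k A) V))
    (I := PUnit.{u + 1}) (fun _ => pbk (opensι (Aff k A) V) (Aff.map (σ s₀)))
    (fun _ => pbkFst _ _) (fun _ => isFinite_pbkFst _ _ hf0) (fun x => by
      have h1 : Function.Surjective (PrimeSpectrum.comap (σ s₀).toRingHom) :=
        (hσfin s₀).to_isIntegral.comap_surjective (hσinj s₀)
      obtain ⟨y, hy⟩ := h1 ((opensι (Aff k A) V).left x)
      obtain ⟨z, hz, -⟩ := exists_pbk (opensι (Aff k A) V) (Aff.map (σ s₀)) x y hy.symm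
      exact ⟨⟨⟩, z, hz⟩) (fun _ => ∑ s, Finsupp.single (g s) 1) (by
      rintro E - v
      have h1 : v ≫ pbkFst (opensι (Aff k A) V) (Aff.map (σ s₀)) ≫ opensι (Aff k A) V =
        (v ≫ pbkSnd (opensι (Aff k A) V) (Aff.map (σ s₀))) ≫ Aff.map (σ s₀) := by
        rw [pbk_condition, Category.assoc]
      rw [Cor.sub_val, Cor.graph_comp_val, Cor.graph_val, Category.assoc, h1, hα,
        Fintype.sum_eq_add_sum_subtype_ne _ s₀, add_sub_cancel_left, Finsupp.mapDomain_finsetSum]
      refine Finset.sum_congr rfl fun s _ => ?_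
      rw [Finsupp.mapDomain_single, hg, Category.assoc])
  have h1 : (Cor.graph (opensι (Aff k A) V)).comp α - Cor.graph (opensι (Aff k A) V) ∈
      K.carrier ((Sm.aff k A).opens V) :=
    K.mem_of_eq (K.pull_mem (U := (Sm.aff k A).opens W) (V := (Sm.aff k A).opens V) γ hK) hγ
  have h2 : (Cor.graph (opensι (Aff k A) V)).comp α ∈ K.carrier ((Sm.aff k A).opens V) :=
    K.pull_mem (U := Sm.aff k A) (V := (Sm.aff k A).opens V) (Cor.graph (opensι (Aff k A) V)) hαK
  have h3 : Cor.graph (R := R) (opensι (Aff k A) V) = (Cor.graph (opensι (Aff k A) V)).comp α -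
      ((Cor.graph (opensι (Aff k A) V)).comp α - Cor.graph (opensι (Aff k A) V)) :=
    (sub_sub_cancel _ _).symm
  exact K.mem_of_eq (Submodule.sub_mem _ h2 h1) h3.symm

end

end Pool.Agent.H694_ABV
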