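import Pool.Agent.H694_ABV.Coeff

/-!
# Finite representations of correspondences, and decomposition of coefficients
-/

open CategoryTheory AlgebraicGeometry Limits

universe u

namespace Pool.Agent.H694_ABV

variable {k : Type u} [Field k] {R R' S : Type u} [CommRing R] [CommRing R'] [CommRing S]

/-- On a noetherian scheme, a jointly surjective family of finite morphisms has a finite jointly
surjective subfamily. -/
lemma exists_finite_subfamily {X : Scheme.{u}} [IsNoetherian X] {I : Type u} {V : I → Scheme.{u}}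
    (q : ∀ i, V i ⟶ X) (hq : ∀ i, IsFinite (q i))
    (hs : ∀ x : X, ∃ (i : I) (v : V i), q i v = x) :
    ∃ F : Finset I, ∀ x : X, ∃ i ∈ F, ∃ v : V i, q i v = x := by
  classical
  have hfin : Finite (irreducibleComponents X) :=
    TopologicalSpace.NoetherianSpace.finite_irreducibleComponents (α := X)
  have h1 : ∀ Z : irreducibleComponents X, ∃ i : I, Z.1 ⊆ Set.range (q i) := by
    rintro ⟨Z, hZ⟩
    have hirr : IsIrreducible Z := hZ.1
    have hcl : IsClosed Z := isClosed_of_mem_irreducibleComponents Z hZ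
    obtain ⟨i, v, hv⟩ := hs hirr.genericPoint
    refine ⟨i, ?_⟩
    have h2 : IsClosed (Set.range (q i)) := (q i).isClosedMap.isClosed_range
    have h3 : closure {hirr.genericPoint} = Z := by
      rw [hirr.closure_genericPoint hcl]
    exact h3.symm.subset.trans
      (h2.closure_subset_iff.2 (Set.singleton_subset_iff.2 ⟨v, hv⟩))
  choose c hc using h1
  have : Fintype (irreducibleComponents X) := Fintype.ofFinite _
  refine ⟨Finset.univ.image c, fun x => ?_⟩
  obtain ⟨v, hv⟩ := hc ⟨irreducibleComponent x, irreducibleComponent_mem_irreducibleComponents x⟩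
    mem_irreducibleComponent
  exact ⟨_, Finset.mem_image_of_mem c (Finset.mem_univ _), v, hv⟩

/-- A correspondence from a noetherian scheme is represented on a finite jointly surjective family
of finite morphisms. -/
lemma Cor.exists_finite_family {X Y : KSch k} [IsNoetherian X.left] (α : Cor R X Y) :
    ∃ (I : Type u) (_ : Finite I) (V : I → KSch k) (q : ∀ i, V i ⟶ X)
      (b : ∀ i, (V i ⟶ Y) →₀ R), (∀ i, IsFinite (q i).left) ∧
      (∀ x : X.left, ∃ (i : I) (v : (V i).left), (q i).left v = x) ∧
      ∀ (E : AlgClosedExt k) (i : I) (v : Pts E (V i)),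
        α.val E (v ≫ q i) = (b i).mapDomain (v ≫ ·) := by
  obtain ⟨I, V, q, b, hq, hs, hα⟩ := α.exists_family
  obtain ⟨F, hF⟩ := exists_finite_subfamily (fun i => (q i).left) hq hs
  refine ⟨↥F, inferInstance, fun i => V i.1, fun i => q i.1, fun i => b i.1, fun i => hq i.1,
    fun x => ?_, fun E i v => hα E i.1 v⟩
  obtain ⟨i, hi, v, hv⟩ := hF x
  exact ⟨⟨i, hi⟩, v, hv⟩

/-- Over a field of coefficients `S`, correspondences with coefficients in an `S`-algebra `R` are
`R`-linear combinations of correspondences with coefficients in `S`. -/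
theorem Cor.mem_span_mapCoeff {S : Type u} [Field S] [Algebra S R] {X Y : KSch k}
    [IsNoetherian X.left] (α : Cor R X Y) :
    α ∈ Submodule.span R
      (Set.range (Cor.mapCoeff (X := X) (Y := Y) (algebraMap S R : S →+ R))) := by
  classical
  obtain ⟨I, _, V, q, b, hq, hs, hα⟩ := α.exists_finite_family
  have := Fintype.ofFinite I
  let e := Module.Basis.ofVectorSpace S R
  let J := Finset.univ.biUnion fun i => (b i).support.biUnion fun y => (e.repr (b i y)).support
  have hJ : ∀ (E : AlgClosedExt k) (x : Pts E X) (z : Pts E Y) (j), j ∉ J →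
      e.repr (α.val E x z) j = 0 := by
    intro E x z j hj
    obtain ⟨i, t, ht⟩ := hs (x.left E.pnt)
    have := hq i
    obtain ⟨v, rfl⟩ := exists_lift_pt (q i) E x ⟨t, ht⟩
    have h1 : ∀ y ∈ (b i).support, e.repr (b i y) j = 0 := by
      intro y hy
      by_contra hne
      exact hj (Finset.mem_biUnion.2 ⟨i, Finset.mem_univ _, Finset.mem_biUnion.2
        ⟨y, hy, Finsupp.mem_support_iff.2 hne⟩⟩)
    rw [hα, Finsupp.mapDomain, Finsupp.sum, Finsupp.finsetSum_apply, map_sum,
      Finsupp.finsetSum_apply]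
    refine Finset.sum_eq_zero fun y hy => ?_
    rw [Finsupp.single_apply]
    split_ifs
    · exact h1 y hy
    · simp
  have hsum : α = ∑ j ∈ J, e j • Cor.mapCoeff (algebraMap S R : S →+ R)
      (Cor.mapCoeff (e.coord j).toAddMonoidHom α) := by
    refine Cor.ext fun E x => Finsupp.ext fun z => ?_
    rw [Cor.sum_val, Finsupp.finsetSum_apply]
    have h2 : ∀ j, (e j • Cor.mapCoeff (algebraMap S R : S →+ R)
        (Cor.mapCoeff (e.coord j).toAddMonoidHom α)).val E x z =
          (e.repr (α.val E x z) j) • e j := by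
      intro j
      rw [Cor.smul_val, Finsupp.smul_apply, Cor.mapCoeff_val, Finsupp.mapRange_apply,
        Cor.mapCoeff_val, Finsupp.mapRange_apply, smul_eq_mul, Algebra.smul_def, mul_comm]
      rfl
    simp only [h2]
    conv_lhs => rw [← e.linearCombination_repr (α.val E x z)]
    rw [Finsupp.linearCombination_apply, Finsupp.sum]
    refine Finset.sum_subset (fun j hj => ?_) fun j _ hj => ?_
    · by_contra hne
      exact Finsupp.mem_support_iff.1 hj (hJ E x z j hne)
    · rw [Finsupp.notMem_support_iff.1 hj, zero_smul]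
  rw [hsum]
  exact Submodule.sum_mem _ fun j _ => Submodule.smul_mem _ _ (Submodule.subset_span ⟨_, rfl⟩)

lemma exists_common_multiple {A : Type*} (f : R →+* R')
    (hf : ∀ x : R', ∃ n : ℕ, n ≠ 0 ∧ ∃ r, f r = n • x) (b : A →₀ R') :
    ∃ n : ℕ, n ≠ 0 ∧ ∃ c : A →₀ R, c.mapRange f (map_zero f) = n • b := by
  classical
  induction b using Finsupp.induction_linear with
  | zero => exact ⟨1, one_ne_zero, 0, by simp⟩
  | add a b ha hb =>
    obtain ⟨n, hn, c, hc⟩ := ha
    obtain ⟨m, hm, d, hd⟩ := hb
    refine ⟨m * n, mul_ne_zero hm hn, m • c + n • d, ?_⟩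
    refine Finsupp.ext fun x => ?_
    have hc' := DFunLike.congr_fun hc x
    have hd' := DFunLike.congr_fun hd x
    simp only [Finsupp.mapRange_apply, Finsupp.add_apply, Finsupp.smul_apply, map_add,
      map_nsmul] at hc' hd' ⊢
    rw [hc', hd', smul_add, mul_smul, mul_comm m n, mul_smul]
  | single x r =>
    obtain ⟨n, hn, s, hs⟩ := hf r
    refine ⟨n, hn, Finsupp.single x s, ?_⟩
    rw [Finsupp.mapRange_single, hs, Finsupp.smul_single]

/-- If every element of `R'` has a nonzero integral multiple in `R ⊆ R'`, then the same is true for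
correspondences. -/
theorem Cor.exists_nsmul_mem_range {X Y : KSch k} [IsNoetherian X.left] (f : R →+* R')
    (hinj : Function.Injective f) (hf : ∀ x : R', ∃ n : ℕ, n ≠ 0 ∧ ∃ r, f r = n • x)
    (α : Cor R' X Y) : ∃ n : ℕ, n ≠ 0 ∧ ∃ β : Cor R X Y,
      Cor.mapCoeff (f : R →+ R') β = n • α := by
  classical
  obtain ⟨I, _, V, q, b, hq, hs, hα⟩ := α.exists_finite_family
  have := Fintype.ofFinite I
  choose m hm c hc using fun i => exists_common_multiple f hf (b i)
  let n := ∏ i, m i
  have hn : n ≠ 0 := Finset.prod_ne_zero_iff.2 fun i _ => hm i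
  have hc' : ∀ i, ∃ c' : (V i ⟶ Y) →₀ R, c'.mapRange f (map_zero f) = n • b i := by
    intro i
    obtain ⟨l, hl⟩ : m i ∣ n := Finset.dvd_prod_of_mem m (Finset.mem_univ i)
    refine ⟨l • c i, Finsupp.ext fun y => ?_⟩
    have h1 := DFunLike.congr_fun (hc i) y
    simp only [Finsupp.mapRange_apply, Finsupp.smul_apply, map_nsmul] at h1 ⊢
    rw [h1, hl, mul_comm, mul_smul]
  choose c' hc' using hc'
  have hval : ∀ (E : AlgClosedExt k) (i : I) (v : Pts E (V i)),
      ((c' i).mapDomain (v ≫ ·)).mapRange f (map_zero f) = n • α.val E (v ≫ q i) := by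
    intro E i v
    rw [← Finsupp.mapDomain_mapRange _ _ _ _ (map_add f), hc', Finsupp.mapDomain_smul, hα]
  obtain ⟨β, hβ⟩ := exists_cor (R := R) V q hq hs c' (by
    intro E i i' v v' hv
    refine Finsupp.mapRange_injective f (map_zero f) hinj ?_
    rw [hval, hval, hv])
  refine ⟨n, hn, β, Cor.ext fun E x => ?_⟩
  obtain ⟨i, t, ht⟩ := hs (x.left E.pnt)
  have := hq i
  obtain ⟨v, rfl⟩ := exists_lift_pt (q i) E x ⟨t, ht⟩
  rw [Cor.mapCoeff_val, hβ]
  refine (hval E i v).trans ?_
  rw [← Nat.cast_smul_eq_nsmul R', ← Nat.cast_smul_eq_nsmul R', Cor.smul_val]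

end Pool.Agent.H694_ABV
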