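import Pool.Agent.H694_ABV.AffSm

/-!
# Open subschemes
-/

open CategoryTheory AlgebraicGeometry Limits

universe u

namespace Pool.Agent.H694_ABV

variable {k : Type u} [Field k] {R : Type u} [CommRing R]

/-- An open subscheme of a `k`-scheme. -/
noncomputable def opens (X : KSch k) (U : X.left.Opens) : KSch k := Over.mk (U.ι ≫ X.hom)

/-- The inclusion of an open subscheme. -/
noncomputable def opensι (X : KSch k) (U : X.left.Opens) : opens X U ⟶ X := Over.homMk U.ι rfl

instance (X : KSch k) (U : X.left.Opens) : IsOpenImmersion (opensι X U).left :=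
  inferInstanceAs (IsOpenImmersion U.ι)

instance (X : KSch k) (U : X.left.Opens) : Mono (opensι X U) :=
  (Over.forget _).mono_of_mono_map (inferInstanceAs (Mono U.ι))

/-- A morphism of schemes with image in an open subscheme. -/
noncomputable def schLift {Y X : Scheme.{u}} (f : Y ⟶ X) (U : X.Opens) (h : ∀ y, f y ∈ U) :
    Y ⟶ U.toScheme :=
  IsOpenImmersion.lift U.ι f (by
    rintro _ ⟨y, rfl⟩
    simpa using h y)

@[reassoc (attr := simp)]
lemma schLift_ι {Y X : Scheme.{u}} (f : Y ⟶ X) (U : X.Opens) (h : ∀ y, f y ∈ U) :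
    schLift f U h ≫ U.ι = f := IsOpenImmersion.lift_fac _ _ _

/-- A morphism with image in an open subscheme. -/
noncomputable def liftOpens {Y X : KSch k} (f : Y ⟶ X) (U : X.left.Opens)
    (h : ∀ y, f.left y ∈ U) : Y ⟶ opens X U :=
  Over.homMk (schLift f.left U h) (by
    dsimp [opens]
    rw [schLift_ι_assoc]
    exact Over.w f)

@[reassoc (attr := simp)]
lemma liftOpens_ι {Y X : KSch k} (f : Y ⟶ X) (U : X.left.Opens) (h : ∀ y, f.left y ∈ U) :
    liftOpens f U h ≫ opensι X U = f := by
  ext1
  exact schLift_ι f.left U h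

lemma Sm.isNoetherian (X : Sm k) : IsNoetherian X.sch.left := by
  have h1 : IsLocallyNoetherian X.sch.left := LocallyOfFiniteType.isLocallyNoetherian X.sch.hom
  have h2 : CompactSpace X.sch.left := QuasiCompact.compactSpace_of_compactSpace X.sch.hom
  constructor

/-- An open subscheme of a smooth scheme. -/
noncomputable def Sm.opens (X : Sm k) (U : X.sch.left.Opens) : Sm k where
  sch := Pool.Agent.H694_ABV.opens X.sch U
  smooth := inferInstanceAs (Smooth (U.ι ≫ X.sch.hom))
  separated := inferInstanceAs (IsSeparated (U.ι ≫ X.sch.hom))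
  quasiCompact := by
    have := X.isNoetherian
    exact inferInstanceAs (QuasiCompact (U.ι ≫ X.sch.hom))

end Pool.Agent.H694_ABV
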