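import Pool.Agent.H694_ABV.Opens

/-!
# Pullbacks of finite morphisms and factorisations
-/

open CategoryTheory AlgebraicGeometry Limits

universe u

namespace Pool.Agent.H694_ABV

variable {k : Type u} [Field k] {R : Type u} [CommRing R]

/-- The fibre product of `k`-schemes over a `k`-scheme. -/
noncomputable def pbk {S S' V : KSch k} (s : S' ⟶ S) (q : V ⟶ S) : KSch k :=
  Over.mk (pullback.fst s.left q.left ≫ S'.hom)

/-- The first projection. -/
noncomputable def pbkFst {S S' V : KSch k} (s : S' ⟶ S) (q : V ⟶ S) : pbk s q ⟶ S' :=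
  Over.homMk (pullback.fst s.left q.left) rfl

/-- The second projection. -/
noncomputable def pbkSnd {S S' V : KSch k} (s : S' ⟶ S) (q : V ⟶ S) : pbk s q ⟶ V :=
  Over.homMk (pullback.snd s.left q.left) (by
    dsimp [pbk]
    rw [← Over.w q, ← pullback.condition_assoc, Over.w s])

@[reassoc]
lemma pbk_condition {S S' V : KSch k} (s : S' ⟶ S) (q : V ⟶ S) :
    pbkFst s q ≫ s = pbkSnd s q ≫ q := by
  ext1
  exact pullback.condition

lemma isFinite_pbkFst {S S' V : KSch k} (s : S' ⟶ S) (q : V ⟶ S) (hq : IsFinite q.left) :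
    IsFinite (pbkFst s q).left :=
  inferInstanceAs (IsFinite (pullback.fst s.left q.left))

lemma exists_pbk {S S' V : KSch k} (s : S' ⟶ S) (q : V ⟶ S) (x : S'.left) (y : V.left)
    (h : s.left x = q.left y) :
    ∃ z : (pbk s q).left, (pbkFst s q).left z = x ∧ (pbkSnd s q).left z = y :=
  Scheme.Pullback.exists_preimage_pullback x y h

/-- If the values of a transfer, pulled back, lie in an open subscheme, then the pullback comes from
a correspondence to the open subscheme. -/
theorem exists_factor_pbk {S S' V X W : KSch k} (ι : W ⟶ X) [Mono ι] (τ : Cor R S X) (s : S' ⟶ S)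
    (q : V ⟶ S) (hq : IsFinite q.left) (hq' : Function.Surjective q.left)
    {A : Type*} [Fintype A] (f : A → (V ⟶ X))
    (hτ : ∀ (E : AlgClosedExt k) (v : Pts E V),
      τ.val E (v ≫ q) = ∑ a, Finsupp.single (v ≫ f a) 1)
    (hf : ∀ a, ∃ g : pbk s q ⟶ W, g ≫ ι = pbkSnd s q ≫ f a) :
    ∃ γ : Cor R S' W, γ.comp (Cor.graph ι) = (Cor.graph s).comp τ := by
  choose g hg using hf
  refine exists_factor ι ((Cor.graph s).comp τ) (I := PUnit) (fun _ => pbk s q)
    (fun _ => pbkFst s q) (fun _ => isFinite_pbkFst s q hq) (fun x => ?_)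
    (fun _ => ∑ a, Finsupp.single (g a) 1) ?_
  · obtain ⟨y, hy⟩ := hq' (s.left x)
    obtain ⟨z, hz, -⟩ := exists_pbk s q x y hy.symm
    exact ⟨⟨⟩, z, hz⟩
  · rintro E - v
    rw [Cor.graph_comp_val, Category.assoc, pbk_condition, ← Category.assoc, hτ,
      Finsupp.mapDomain_finsetSum]
    refine Finset.sum_congr rfl fun a _ => ?_
    rw [Finsupp.mapDomain_single, hg, Category.assoc]

end Pool.Agent.H694_ABV
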