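import Pool.Agent.H694_ABV.Exist

/-!
# Independence of the coefficients
-/

open CategoryTheory AlgebraicGeometry Limits

universe u

namespace Pool.Agent.H694_ABV

variable {k : Type u} [Field k] {R R' S : Type u} [CommRing R] [CommRing R'] [CommRing S]

/-! ### Decompositions -/

section

variable [Algebra S R]

lemma mapCoeff_mem_nullHomotopic_of_linear (f : R →ₗ[S] S) {U X : Sm k} {φ : Cor R U.sch X.sch}
    (h : φ ∈ nullHomotopic R U X) :
    Cor.mapCoeff f.toAddMonoidHom φ ∈ nullHomotopic S U X := by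
  obtain ⟨ψ, rfl⟩ := mem_nullHomotopic.1 h
  refine mem_nullHomotopic.2 ⟨Cor.mapCoeff f.toAddMonoidHom ψ, ?_⟩
  rw [map_sub]
  have h1 : ∀ n : ℤ, Cor.mapCoeff f.toAddMonoidHom ((Cor.graph (U.const n)).comp ψ) =
      (Cor.graph (U.const n)).comp (Cor.mapCoeff f.toAddMonoidHom ψ) := by
    intro n
    rw [← Cor.mapCoeff_comp_left]
    congr 2
    exact (Cor.mapCoeff_graph _ (map_one (algebraMap S R)) _).symm
  rw [h1, h1]

lemma mapCoeff_mem_nullHomotopic (f : R →+* R') {U X : Sm k} {φ : Cor R U.sch X.sch}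
    (h : φ ∈ nullHomotopic R U X) :
    Cor.mapCoeff (f : R →+ R') φ ∈ nullHomotopic R' U X := by
  obtain ⟨ψ, rfl⟩ := mem_nullHomotopic.1 h
  refine mem_nullHomotopic.2 ⟨Cor.mapCoeff (f : R →+ R') ψ, ?_⟩
  rw [map_sub, Cor.mapCoeff_comp, Cor.mapCoeff_comp, Cor.mapCoeff_graph _ (map_one f),
    Cor.mapCoeff_graph _ (map_one f)]

end

section

variable {S : Type u} [Field S] [Algebra S R]

lemma Sm.mem_span_mapCoeff {X : Sm k} {Y : KSch k} (α : Cor R X.sch Y) :
    α ∈ Submodule.span R
      (Set.range (Cor.mapCoeff (X := X.sch) (Y := Y) (algebraMap S R : S →+ R))) := by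
  have := X.isNoetherian
  exact Cor.mem_span_mapCoeff α

lemma mapCoeff_comp_mem_factorBelow {d : ℕ} {U X Y : Sm k} (hY : Y.DimLT d)
    (β : Cor R Y.sch X.sch) (δ : Cor R U.sch Y.sch) (f : R →ₗ[S] S) :
    Cor.mapCoeff f.toAddMonoidHom (δ.comp β) ∈ factorBelow S d U X := by
  have key : ∀ β ∈ Submodule.span R (Set.range (Cor.mapCoeff (X := Y.sch) (Y := X.sch)
      (algebraMap S R : S →+ R))), ∀ δ : Cor R U.sch Y.sch,
      Cor.mapCoeff f.toAddMonoidHom (δ.comp β) ∈ factorBelow S d U X := by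
    intro β hβ
    induction hβ using Submodule.span_induction with
    | mem β h =>
      obtain ⟨β', rfl⟩ := h
      intro δ
      rw [Cor.mapCoeff_comp_right]
      exact Submodule.subset_span ⟨Y, hY, _, β', rfl⟩
    | zero =>
      intro δ
      have h1 : δ.comp (0 : Cor R Y.sch X.sch) = 0 := map_zero (Cor.compLeft δ)
      rw [h1, map_zero]
      exact Submodule.zero_mem _
    | add a b _ _ ha hb =>
      intro δ
      rw [Cor.comp_add, map_add]
      exact Submodule.add_mem _ (ha δ) (hb δ)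
    | smul r a _ ha =>
      intro δ
      rw [Cor.comp_smul, ← Cor.smul_comp]
      exact ha (r • δ)
  exact key β (Sm.mem_span_mapCoeff β) δ

lemma mapCoeff_mem_factorBelow_of_linear {d : ℕ} {U X : Sm k} {σ : Cor R U.sch X.sch}
    (hσ : σ ∈ factorBelow R d U X) (f : R →ₗ[S] S) :
    Cor.mapCoeff f.toAddMonoidHom σ ∈ factorBelow S d U X := by
  have key : ∀ f : R →ₗ[S] S, Cor.mapCoeff f.toAddMonoidHom σ ∈ factorBelow S d U X := by
    induction hσ using Submodule.span_induction with
    | mem σ h =>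
      obtain ⟨Y, hY, δ, β, rfl⟩ := h
      exact mapCoeff_comp_mem_factorBelow hY β δ
    | zero =>
      intro f
      rw [map_zero]
      exact Submodule.zero_mem _
    | add a b _ _ ha hb =>
      intro f
      rw [map_add]
      exact Submodule.add_mem _ (ha f) (hb f)
    | smul r a _ ha =>
      intro f
      have h1 : Cor.mapCoeff f.toAddMonoidHom (r • a) =
          Cor.mapCoeff (f.comp (LinearMap.mulLeft S r)).toAddMonoidHom a := by
        refine Cor.ext fun E x => Finsupp.ext fun y => ?_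
        rw [Cor.mapCoeff_val, Cor.mapCoeff_val, Finsupp.mapRange_apply, Finsupp.mapRange_apply]
        rfl
      rw [h1]
      exact ha _
  exact key f

lemma mapCoeff_mem_factorBelow {d : ℕ} {U X : Sm k} (f : R →+* R') {σ : Cor R U.sch X.sch}
    (hσ : σ ∈ factorBelow R d U X) :
    Cor.mapCoeff (f : R →+ R') σ ∈ factorBelow R' d U X := by
  induction hσ using Submodule.span_induction with
  | mem σ h =>
    obtain ⟨Y, hY, δ, β, rfl⟩ := h
    rw [Cor.mapCoeff_comp]
    exact Submodule.subset_span ⟨Y, hY, _, _, rfl⟩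
  | zero =>
    rw [map_zero]
    exact Submodule.zero_mem _
  | add a b _ _ ha hb =>
    rw [map_add]
    exact Submodule.add_mem _ ha hb
  | smul r a _ ha =>
    rw [Cor.mapCoeff_smul]
    exact Submodule.smul_mem _ _ ha

/-- From an algebra to a field of coefficients. -/
theorem GenericDecomposition.descend [Nontrivial R] {d : ℕ} {X : Sm k}
    (h : GenericDecomposition R d X) : GenericDecomposition S d X := by
  obtain ⟨f, hf⟩ := (Algebra.linearMap S R).exists_leftInverse_of_injective
    (LinearMap.ker_eq_bot.2 (algebraMap S R).injective)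
  have hf1 : f.toAddMonoidHom 1 = 1 := by
    have h1 := LinearMap.congr_fun hf 1
    simpa using h1
  have hgr : ∀ {Z W : KSch k} (g : Z ⟶ W),
      Cor.mapCoeff f.toAddMonoidHom (Cor.graph (R := R) g) = Cor.graph g := fun g =>
    Cor.mapCoeff_graph _ hf1 g
  have hι : ∀ {Z W : KSch k} (g : Z ⟶ W),
      Cor.graph (R := R) g = Cor.mapCoeff (algebraMap S R : S →+ R) (Cor.graph g) := fun g =>
    (Cor.mapCoeff_graph _ (map_one (algebraMap S R)) g).symm
  obtain ⟨U₀, j₀, σ, hj₀, hσ, hdec⟩ := h
  refine ⟨U₀, j₀, Cor.mapCoeff f.toAddMonoidHom σ, hj₀,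
    mapCoeff_mem_factorBelow_of_linear hσ f, fun U j hj => ?_⟩
  obtain ⟨U', i, κ, hi, h1, h2⟩ := hdec U j hj
  refine ⟨U', i, Cor.mapCoeff f.toAddMonoidHom κ, hi, ?_, fun Y hY γ => ?_⟩
  · have h3 := mapCoeff_mem_nullHomotopic_of_linear f h1
    rw [map_sub, hι i, Cor.mapCoeff_comp_left, map_sub, hgr, hι j, Cor.mapCoeff_comp_right] at h3
    exact h3
  · obtain ⟨U'', i', hi', h3⟩ := h2 Y hY (Cor.mapCoeff (algebraMap S R : S →+ R) γ)
    refine ⟨U'', i', hi', ?_⟩
    have h4 := mapCoeff_mem_nullHomotopic_of_linear f h3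
    rwa [hι i', Cor.mapCoeff_comp_left, Cor.mapCoeff_comp_right] at h4

/-- From a field of coefficients to an algebra. -/
theorem GenericDecomposition.extend [PerfectField k] [Algebra ℚ R] {d : ℕ} {X : Sm k}
    (h : GenericDecomposition S d X) : GenericDecomposition R d X := by
  obtain ⟨U₀, j₀, σ, hj₀, hσ, hdec⟩ := h
  have hgr : ∀ {Z W : KSch k} (g : Z ⟶ W),
      Cor.mapCoeff (algebraMap S R : S →+ R) (Cor.graph g) = Cor.graph (R := R) g := fun g =>
    Cor.mapCoeff_graph _ (map_one (algebraMap S R)) g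
  refine ⟨U₀, j₀, Cor.mapCoeff (algebraMap S R : S →+ R) σ, hj₀,
    mapCoeff_mem_factorBelow (algebraMap S R) hσ, fun U j hj => ?_⟩
  obtain ⟨U', i, κ, hi, h1, h2⟩ := hdec U j hj
  refine ⟨U', i, Cor.mapCoeff (algebraMap S R : S →+ R) κ, hi, ?_, fun Y hY γ => ?_⟩
  · have h3 := mapCoeff_mem_nullHomotopic (algebraMap S R) h1
    rw [map_sub, Cor.mapCoeff_comp, map_sub, hgr, hgr, Cor.mapCoeff_comp, hgr] at h3
    exact h3
  · refine exists_denseOpen_of_mem_bot ?_
    have hγ := Sm.mem_span_mapCoeff (S := S) γ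
    induction hγ using Submodule.span_induction with
    | mem γ h =>
      obtain ⟨γ', rfl⟩ := h
      obtain ⟨U'', i', hi', h3⟩ := h2 Y hY γ'
      refine ClosedSub.mem_of_dense ⊥ hi' (nullHomotopic_le _ _ ?_)
      have h4 := mapCoeff_mem_nullHomotopic (algebraMap S R) h3
      rwa [Cor.mapCoeff_comp, hgr, Cor.mapCoeff_comp] at h4
    | zero =>
      have h5 : (Cor.mapCoeff (algebraMap S R : S →+ R) κ).comp (0 : Cor R U.sch Y.sch) = 0 :=
        map_zero (Cor.compLeft _)
      rw [h5]
      exact Submodule.zero_mem _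
    | add a b _ _ ha hb =>
      rw [Cor.comp_add]
      exact Submodule.add_mem _ ha hb
    | smul r a _ ha =>
      rw [Cor.comp_smul]
      exact Submodule.smul_mem _ _ ha

end

/-! ### Filtrations -/

section

variable {X Y : Sm k}

/-- Restriction of the coefficients of a closed subfunctor. -/
noncomputable def ClosedSub.restrict (f : R →+* R') (G : ClosedSub R' X) : ClosedSub R X where
  carrier U :=
    { carrier := {φ | Cor.mapCoeff (f : R →+ R') φ ∈ G.carrier U}
      zero_mem' := by
        show Cor.mapCoeff (f : R →+ R') 0 ∈ G.carrier U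
        rw [map_zero]
        exact Submodule.zero_mem _
      add_mem' := fun {a b} ha hb => by
        show Cor.mapCoeff (f : R →+ R') (a + b) ∈ G.carrier U
        rw [map_add]
        exact Submodule.add_mem _ ha hb
      smul_mem' := fun r a ha => by
        show Cor.mapCoeff (f : R →+ R') (r • a) ∈ G.carrier U
        rw [Cor.mapCoeff_smul]
        exact Submodule.smul_mem _ _ ha }
  pull_mem := by
    intro U V δ φ hφ
    show Cor.mapCoeff (f : R →+ R') (δ.comp φ) ∈ G.carrier V
    rw [Cor.mapCoeff_comp]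
    exact G.pull_mem _ hφ
  local_mem := by
    intro U I V g hg φ hφ
    refine G.local_mem g hg fun i => ?_
    have h1 : Cor.mapCoeff (f : R →+ R') ((Cor.graph (g i)).comp φ) ∈ G.carrier (V i) := hφ i
    rwa [Cor.mapCoeff_comp, Cor.mapCoeff_graph _ (map_one f)] at h1
  homotopy_mem := by
    intro U φ
    show Cor.mapCoeff (f : R →+ R') _ ∈ G.carrier U
    exact nullHomotopic_le G U (mapCoeff_mem_nullHomotopic f (mem_nullHomotopic.2 ⟨φ, rfl⟩))

lemma ClosedSub.mem_restrict {f : R →+* R'} {G : ClosedSub R' X} {U : Sm k}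
    {φ : Cor R U.sch X.sch} :
    φ ∈ (ClosedSub.restrict f G).carrier U ↔ Cor.mapCoeff (f : R →+ R') φ ∈ G.carrier U := Iff.rfl

/-- Extension of the coefficients of a closed subfunctor. -/
noncomputable def ClosedSub.extend (f : R →+* R') (K : ClosedSub R X) : ClosedSub R' X :=
  sInf {G | K ≤ ClosedSub.restrict f G}

lemma ClosedSub.le_restrict_extend (f : R →+* R') (K : ClosedSub R X) :
    K ≤ ClosedSub.restrict f (ClosedSub.extend f K) := by
  intro U φ hφ
  rw [ClosedSub.mem_restrict]
  exact ClosedSub.mem_sInf.2 fun G hG => hG U hφ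

lemma ClosedSub.extend_le {f : R →+* R'} {K : ClosedSub R X} {G : ClosedSub R' X}
    (h : K ≤ ClosedSub.restrict f G) : ClosedSub.extend f K ≤ G := sInf_le h

lemma ClosedSub.extend_mono (f : R →+* R') {K L : ClosedSub R X} (h : K ≤ L) :
    ClosedSub.extend f K ≤ ClosedSub.extend f L :=
  ClosedSub.extend_le (h.trans (ClosedSub.le_restrict_extend f L))

end

/-- Extension of the coefficients of the filtrations. -/
theorem IsFiltrationBelow.extend [PerfectField k] {N : ℕ∞} {F : ∀ X : Sm k, ℕ → ClosedSub R X}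
    (hF : IsFiltrationBelow N F) (f : R →+* R')
    (hf : ∀ (X Y : Sm k) (γ : Cor R' X.sch Y.sch),
      γ ∈ Submodule.span R' (Set.range (Cor.mapCoeff (X := X.sch) (Y := Y.sch) (f : R →+ R')))) :
    IsFiltrationBelow N (fun X n => ClosedSub.extend f (F X n)) := by
  have hgr : ∀ {Z W : KSch k} (g : Z ⟶ W),
      Cor.mapCoeff (f : R →+ R') (Cor.graph g) = Cor.graph (R := R') g := fun g =>
    Cor.mapCoeff_graph _ (map_one f) g
  have hfun : ∀ X Y : Sm k, X.DimBelow N → Y.DimBelow N → ∀ (γ : Cor R' X.sch Y.sch) (n : ℕ),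
      ClosedSub.extend f (F X n) ≤ ClosedSub.comap γ (ClosedSub.extend f (F Y n)) := by
    intro X Y hX hY γ n
    refine ClosedSub.extend_le fun U φ hφ => ?_
    rw [ClosedSub.mem_restrict, ClosedSub.mem_comap]
    have hγ := hf X Y γ
    induction hγ using Submodule.span_induction with
    | mem γ h =>
      obtain ⟨γ', rfl⟩ := h
      rw [← Cor.mapCoeff_comp]
      exact ClosedSub.le_restrict_extend f _ U (hF.functorial X Y hX hY γ' n U hφ)
    | zero =>
      have h5 : (Cor.mapCoeff (f : R →+ R') φ).comp (0 : Cor R' X.sch Y.sch) = 0 :=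
        map_zero (Cor.compLeft _)
      rw [h5]
      exact Submodule.zero_mem _
    | add a b _ _ ha hb =>
      rw [Cor.comp_add]
      exact Submodule.add_mem _ ha hb
    | smul r a _ ha =>
      rw [Cor.comp_smul]
      exact Submodule.smul_mem _ _ ha
  refine ⟨fun X hX n => ClosedSub.extend_mono f (hF.antitone X hX n), fun X hX => ?_,
    fun X hX n hn => ?_, hfun, fun U X hX j hj n => ?_, fun X hX n G hG hG' => ?_⟩
  · refine ClosedSub.eq_top_of_id_mem ?_
    rw [hF.zero X hX, ← hgr]
    exact ClosedSub.le_restrict_extend f ⊤ X ClosedSub.mem_top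
  · rw [hF.vanish X hX n hn]
    exact le_bot_iff.1 (ClosedSub.extend_le bot_le)
  · rw [ClosedSub.map_top_of_dense hj, top_inf_eq]
    have hU : U.DimBelow N := hX.of_etale j hj.etale
    refine le_antisymm (ClosedSub.map_le_iff.2 (hfun U X hU hX _ n)) ?_
    have h1 := hF.strict U X hX j hj n
    rw [ClosedSub.map_top_of_dense hj, top_inf_eq] at h1
    rw [← h1]
    refine ClosedSub.extend_le (ClosedSub.map_le_iff.2 fun V φ hφ => ?_)
    rw [ClosedSub.mem_comap, ClosedSub.mem_restrict, Cor.mapCoeff_comp, hgr]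
    exact ClosedSub.le_comap_map (Cor.graph j) _ V (ClosedSub.le_restrict_extend f _ V hφ)
  · have h1 : ClosedSub.restrict f G = ⊤ := by
      refine hF.generated X hX n _ (fun U φ hφ => ?_) fun Y hY φ => ?_
      · exact hG U (ClosedSub.le_restrict_extend f _ U hφ)
      · exact hG' Y hY _
    refine ClosedSub.eq_top_of_id_mem ?_
    have h2 : Cor.graph (𝟙 X.sch) ∈ (ClosedSub.restrict f G).carrier X := by
      rw [h1]
      exact ClosedSub.mem_top
    rwa [ClosedSub.mem_restrict, hgr] at h2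

end Pool.Agent.H694_ABV
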