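import Pool.Agent.H694_ABV.Cor

/-!
# Smooth schemes, étale coverings, the affine line

The category of finite correspondences between smooth separated `k`-schemes of finite type.
-/

open CategoryTheory AlgebraicGeometry Limits

universe u

namespace Pool.Agent.H694_ABV

/-- Smooth separated `k`-schemes of finite type. -/
structure Sm (k : Type u) [Field k] where
  /-- the underlying `k`-scheme -/
  sch : KSch k
  [smooth : Smooth sch.hom]
  [separated : IsSeparated sch.hom]
  [quasiCompact : QuasiCompact sch.hom]

attribute [instance] Sm.smooth Sm.separated Sm.quasiCompact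

variable {k : Type u} [Field k]

/-- The dimension of `X` is less than `n`. -/
def Sm.DimLT (X : Sm k) (n : ℕ) : Prop := topologicalKrullDim X.sch.left < n

lemma Sm.DimLT.mono {X : Sm k} {m n : ℕ} (h : X.DimLT m) (hmn : m ≤ n) : X.DimLT n :=
  lt_of_lt_of_le h (by exact_mod_cast hmn)

/-- An étale covering: a jointly surjective family of étale morphisms. -/
structure IsEtaleCovering {U : Sm k} {I : Type u} (V : I → Sm k)
    (f : ∀ i, (V i).sch ⟶ U.sch) : Prop where
  etale : ∀ i, Etale (f i).left
  surjective : ∀ x : U.sch.left, ∃ (i : I) (y : (V i).sch.left), (f i).left y = x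

instance smooth_mvPolynomial (n : Type u) [Finite n] (A : Type u) [CommRing A] :
    Algebra.Smooth A (MvPolynomial n A) where
  formallySmooth := inferInstance
  finitePresentation := inferInstance

set_option backward.isDefEq.respectTransparency.types false in
instance smooth_affineSpace (n : Type u) [Finite n] (S : Scheme.{u}) :
    Smooth (AffineSpace n S ↘ S) :=
  MorphismProperty.pullback_fst _ _ <| by
  have := isIso_of_isTerminal specULiftZIsTerminal.{u} terminalIsTerminal (terminal.from _)
  rw [← terminal.comp_from (Spec.map (CommRingCat.ofHom MvPolynomial.C)),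
    MorphismProperty.cancel_right_of_respectsIso (P := @Smooth),
    HasRingHomProperty.Spec_iff (P := @Smooth), RingHom.Smooth]
  convert! (inferInstance : Algebra.Smooth (ULift ℤ) (MvPolynomial n (ULift ℤ)))
  exact Algebra.algebra_ext _ _ fun _ ↦ rfl

/-- `U × 𝔸¹`. -/
noncomputable def Sm.timesA1 (U : Sm k) : Sm k where
  sch := Over.mk ((AffineSpace PUnit.{u + 1} U.sch.left ↘ U.sch.left) ≫ U.sch.hom)
  smooth := by dsimp; infer_instance
  separated := by dsimp; infer_instance
  quasiCompact := by dsimp; infer_instance

/-- The section of `S × 𝔸¹ → S` where the coordinate of `𝔸¹` is the integer `n`. -/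
noncomputable def constSection (S : Scheme.{u}) (n : ℤ) : S ⟶ AffineSpace PUnit.{u + 1} S :=
  AffineSpace.homOfVector (𝟙 S) fun _ => (n : Γ(S, ⊤))

@[reassoc]
lemma constSection_over (S : Scheme.{u}) (n : ℤ) :
    constSection S n ≫ (AffineSpace PUnit.{u + 1} S ↘ S) = 𝟙 S :=
  AffineSpace.homOfVector_over _ _

/-- The section of `U × 𝔸¹ → U` where the coordinate of `𝔸¹` is the integer `n`. -/
noncomputable def Sm.const (U : Sm k) (n : ℤ) : U.sch ⟶ U.timesA1.sch :=
  Over.homMk (constSection U.sch.left n) (constSection_over_assoc U.sch.left n U.sch.hom)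

variable (k) in
/-- The category of finite correspondences between smooth separated `k`-schemes of finite type,
with coefficients in `R`. -/
structure SmCor (R : Type u) where
  /-- the underlying smooth scheme -/
  of : Sm k

variable {R : Type u} [CommRing R]

noncomputable instance : Category.{u + 1} (SmCor k R) where
  Hom X Y := Cor R X.of.sch Y.of.sch
  id X := Cor.graph (𝟙 _)
  comp α β := α.comp β
  id_comp := Cor.id_comp
  comp_id := Cor.comp_id
  assoc := Cor.comp_assoc

end Pool.Agent.H694_ABV
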