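import Pool.Agent.H694_ABV.Transfers

/-!
# The support of a correspondence
-/

open CategoryTheory AlgebraicGeometry Limits

universe u

namespace Pool.Agent.H694_ABV

variable {k : Type u} [Field k] {R : Type u} [CommRing R]

/-- The image of a finite scheme is finite. -/
theorem isFinite_image {N P S : Scheme.{u}} (f : N ⟶ P) (g : P ⟶ S) [IsFinite (f ≫ g)]
    [IsSeparated g] [LocallyOfFiniteType g] : IsFinite (f.imageι ≫ g) := by
  have : IsProper f := .of_comp f g
  have : IsProper (f.imageι ≫ g) := by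
    suffices UniversallyClosed (f.imageι ≫ g) from ⟨⟩
    have : UniversallyClosed (f.toImage ≫ f.imageι ≫ g) := by
      rw [Scheme.Hom.toImage_imageι_assoc]; infer_instance
    exact .of_comp_surjective f.toImage _
  have : LocallyQuasiFinite (f.imageι ≫ g) := by
    refine LocallyQuasiFinite.of_finite_preimage_singleton (f.imageι ≫ g) fun s => ?_
    have h1 : ((f ≫ g) ⁻¹' {s}).Finite := (f ≫ g).finite_preimage_singleton s
    refine (h1.image f.toImage).subset ?_
    intro w hw
    obtain ⟨n, rfl⟩ := f.toImage.surjective w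
    refine ⟨n, ?_, rfl⟩
    have h2 : (f ≫ g) n = (f.imageι ≫ g) (f.toImage n) := by
      rw [← Scheme.Hom.comp_apply, Scheme.Hom.toImage_imageι_assoc]
    rw [Set.mem_preimage, h2]
    exact hw
  exact .of_isProper_of_locallyQuasiFinite _

section

variable {J : Type u} [Finite J] (D : J → Type u) [∀ j, CommRing (D j)]

lemma specPi_exists_desc (Z : Scheme.{u}) (h : ∀ j, (Spec (CommRingCat.of (D j)) ⟶ Z)) :
    ∃ n : Spec (CommRingCat.of (∀ j, D j)) ⟶ Z,
      ∀ j, Spec.map (CommRingCat.ofHom (Pi.evalRingHom D j)) ≫ n = h j := by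
  have hiso : IsIso (sigmaSpec fun j => CommRingCat.of (D j)) := inferInstance
  refine ⟨inv (sigmaSpec fun j => CommRingCat.of (D j)) ≫ Sigma.desc h, fun j => ?_⟩
  have h1 := ι_sigmaSpec (fun j => CommRingCat.of (D j)) j
  have h2 : Spec.map (CommRingCat.ofHom (Pi.evalRingHom D j)) =
    Sigma.ι (fun j => Spec (CommRingCat.of (D j))) j ≫ sigmaSpec (fun j => CommRingCat.of (D j)) :=
    h1.symm
  rw [h2, Category.assoc, IsIso.hom_inv_id_assoc, Sigma.ι_desc]

lemma specPi_hom_ext {Z : Scheme.{u}} {n n' : Spec (CommRingCat.of (∀ j, D j)) ⟶ Z}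
    (h : ∀ j, Spec.map (CommRingCat.ofHom (Pi.evalRingHom D j)) ≫ n =
      Spec.map (CommRingCat.ofHom (Pi.evalRingHom D j)) ≫ n') : n = n' := by
  have hiso : IsIso (sigmaSpec fun j => CommRingCat.of (D j)) := inferInstance
  have h3 : sigmaSpec (fun j => CommRingCat.of (D j)) ≫ n =
      sigmaSpec (fun j => CommRingCat.of (D j)) ≫ n' := by
    refine Sigma.hom_ext _ _ fun j => ?_
    have h1 := ι_sigmaSpec (fun j => CommRingCat.of (D j)) j
    rw [← Category.assoc, ← Category.assoc]
    have h2 : Sigma.ι (fun j => Spec (CommRingCat.of (D j))) j ≫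
      sigmaSpec (fun j => CommRingCat.of (D j)) =
        Spec.map (CommRingCat.ofHom (Pi.evalRingHom D j)) := h1
    rw [h2]
    exact h j
  exact (cancel_epi _).1 h3

variable [∀ j, Algebra k (D j)]

/-- The inclusion of a component of the spectrum of a finite product. -/
noncomputable def Aff.incl (j : J) : Aff k (D j) ⟶ Aff k (∀ j, D j) :=
  Aff.map (Pi.evalAlgHom k D j)

lemma Aff.exists_desc {Y : KSch k} (h : ∀ j, (Aff k (D j) ⟶ Y)) :
    ∃ n : Aff k (∀ j, D j) ⟶ Y, ∀ j, Aff.incl D j ≫ n = h j := by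
  obtain ⟨n, hn⟩ := specPi_exists_desc D Y.left (fun j => (h j).left)
  have hw : n ≫ Y.hom = Spec.map (CommRingCat.ofHom (algebraMap k (∀ j, D j))) := by
    refine specPi_hom_ext D fun j => ?_
    rw [← Category.assoc, hn]
    have h1 : (h j).left ≫ Y.hom = (Aff k (D j)).hom := Over.w (h j)
    have h2 : Spec.map (CommRingCat.ofHom (Pi.evalRingHom D j)) ≫
        Spec.map (CommRingCat.ofHom (algebraMap k (∀ j, D j))) =
          Spec.map (CommRingCat.ofHom (algebraMap k (D j))) := by
      rw [← Spec.map_comp, ← CommRingCat.ofHom_comp]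
      rfl
    exact h1.trans h2.symm
  refine ⟨Over.homMk n hw, fun j => ?_⟩
  ext1
  exact hn j

lemma Aff.pi_hom_ext {Y : KSch k} {n n' : Aff k (∀ j, D j) ⟶ Y}
    (h : ∀ j, Aff.incl D j ≫ n = Aff.incl D j ≫ n') : n = n' := by
  ext1
  refine specPi_hom_ext D fun j => ?_
  exact congrArg (fun t => t.left) (h j)

end

lemma finite_pi {A B : Type u} [CommRing A] [CommRing B] [Algebra k A] [Algebra k B]
    (q : A →ₐ[k] B) (hq : q.toRingHom.Finite) (J : Type u) [Finite J] :
    ∃ n : A →ₐ[k] (J → B), n.toRingHom.Finite ∧ ∀ j, (Pi.evalAlgHom k (fun _ => B) j).comp n = q := by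
  let n : A →ₐ[k] (J → B) :=
    { toFun := fun a _ => q a
      map_one' := by simp; rfl
      map_mul' := fun a b => by funext j; simp
      map_zero' := by simp; rfl
      map_add' := fun a b => by funext j; simp
      commutes' := fun c => by funext j; simp }
  refine ⟨n, ?_, fun j => rfl⟩
  let : Algebra A B := q.toRingHom.toAlgebra
  have : Module.Finite A B := hq
  have h1 : n.toRingHom = algebraMap A (J → B) := rfl
  rw [h1]
  exact RingHom.finite_algebraMap.2 inferInstance

/-- The support: a finite scheme through which a finite family of morphisms factors, and which is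
embedded in the product. -/
theorem exists_support {A B : Type u} [CommRing A] [CommRing B] [Algebra k A] [Algebra k B]
    (q : A →ₐ[k] B) (hq : q.toRingHom.Finite) {Y : KSch k} (hY : IsSeparated Y.hom)
    (hY' : LocallyOfFiniteType Y.hom) {J : Type u} [Finite J] (h : J → (Aff k B ⟶ Y)) :
    ∃ (C : Type u) (_ : CommRing C) (_ : Algebra k C) (p : A →ₐ[k] C) (_ : p.toRingHom.Finite)
      (h' : Aff k C ⟶ Y) (c : J → (C →ₐ[k] B)),
      (∀ j, (c j).comp p = q) ∧ (∀ j, Aff.map (c j) ≫ h' = h j) ∧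
      ∀ (T : KSch k) (w w' : T ⟶ Aff k C), w ≫ Aff.map p = w' ≫ Aff.map p →
        w ≫ h' = w' ≫ h' → w = w' := by
  obtain ⟨nA, hnA, hnA'⟩ := finite_pi q hq J
  obtain ⟨nY, hnY⟩ := Aff.exists_desc (k := k) (fun _ : J => B) h
  have hcompat : (Aff.map nA).left ≫ (Aff k A).hom = nY.left ≫ Y.hom :=
    (Over.w (Aff.map nA)).trans (Over.w nY).symm
  let f : (Aff k (J → B)).left ⟶ pullback (Aff k A).hom Y.hom := pullback.lift _ _ hcompat
  let g : pullback (Aff k A).hom Y.hom ⟶ (Aff k A).left := pullback.fst _ _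
  have hfg : f ≫ g = (Aff.map nA).left := pullback.lift_fst _ _ _
  have hfgfin : IsFinite (f ≫ g) := by
    rw [hfg]
    exact Aff.isFinite_map nA hnA
  have hg : IsSeparated g := inferInstanceAs (IsSeparated (pullback.fst (Aff k A).hom Y.hom))
  have hg' : LocallyOfFiniteType g :=
    inferInstanceAs (LocallyOfFiniteType (pullback.fst (Aff k A).hom Y.hom))
  have hW : IsFinite (f.imageι ≫ g) := isFinite_image f g
  have hWaff : IsAffine f.image := by
    have : IsAffine (Aff k A).left := inferInstanceAs (IsAffine (Spec (CommRingCat.of A)))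
    exact isAffine_of_isAffineHom (f.imageι ≫ g)
  let W : KSch k := Over.mk ((f.imageι ≫ g) ≫ (Aff k A).hom)
  let WA : W ⟶ Aff k A := Over.homMk (f.imageι ≫ g) rfl
  let WY : W ⟶ Y := Over.homMk (f.imageι ≫ pullback.snd _ _) (by
    rw [Category.assoc, ← pullback.condition, ← Category.assoc]
    rfl)
  obtain ⟨inst, c₀, hc₀⟩ := exists_aff W Γ(f.image, ⊤) f.image.isoSpec.inv
  have hc₀' : IsIso c₀.left := by
    rw [hc₀]
    exact Iso.isIso_inv _
  have hc₀'' : IsIso c₀ := by
    have : IsIso ((Over.forget _).map c₀) := hc₀'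
    exact isIso_of_reflects_iso c₀ (Over.forget _)
  obtain ⟨p, hp⟩ := Aff.exists_map (c₀ ≫ WA)
  have hpfin : p.toRingHom.Finite := by
    refine (IsFinite.SpecMap_iff (CommRingCat.ofHom p.toRingHom)).1 ?_
    have h1 : Spec.map (CommRingCat.ofHom p.toRingHom) = c₀.left ≫ (f.imageι ≫ g) :=
      congrArg (fun t => t.left) hp
    rw [h1]
    have h2 : IsFinite c₀.left := inferInstance
    exact MorphismProperty.comp_mem (@IsFinite) _ _ h2 hW
  let N : Aff k (J → B) ⟶ W := Over.homMk f.toImage (by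
    show f.toImage ≫ (f.imageι ≫ g) ≫ (Aff k A).hom = _
    rw [Category.assoc, Scheme.Hom.toImage_imageι_assoc, ← Category.assoc, hfg]
    exact Over.w (Aff.map nA))
  have hN : N ≫ WA = Aff.map nA := by
    ext1
    show f.toImage ≫ f.imageι ≫ g = _
    rw [Scheme.Hom.toImage_imageι_assoc, hfg]
  have hN' : N ≫ WY = nY := by
    ext1
    show f.toImage ≫ f.imageι ≫ pullback.snd _ _ = _
    rw [Scheme.Hom.toImage_imageι_assoc]
    exact pullback.lift_snd _ _ _
  choose c hc using fun j => Aff.exists_map (Aff.incl (k := k) (fun _ : J => B) j ≫ N ≫ inv c₀)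
  refine ⟨Γ(f.image, ⊤), inferInstance, inst, p, hpfin, c₀ ≫ WY, c, fun j => ?_, fun j => ?_, ?_⟩
  · apply Aff.map_injective
    rw [Aff.map_comp, hc, hp]
    simp only [Category.assoc, IsIso.inv_hom_id_assoc, hN]
    rw [Aff.incl, ← Aff.map_comp, hnA']
  · rw [hc]
    simp only [Category.assoc, IsIso.inv_hom_id_assoc, hN', hnY]
  · intro T w w' h1 h2
    rw [hp] at h1
    rw [← cancel_mono c₀]
    ext1
    rw [← cancel_mono f.imageι]
    refine pullback.hom_ext ?_ ?_
    · exact congrArg (fun t => t.left) h1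
    · exact congrArg (fun t => t.left) h2

end Pool.Agent.H694_ABV
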