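import Pool.Agent.H694_ABV.Filt

/-!
# Filtrations with (A), (B), (D): reduction to the top step
-/

open CategoryTheory AlgebraicGeometry Limits

universe u

namespace Pool.Agent.H694_ABV

variable {k : Type u} [Field k] {R : Type u} [CommRing R]

lemma GeneratedBelow.of_dimLT {X : Sm k} {n : ℕ} (h : X.DimLT n) (K : ClosedSub R X) :
    GeneratedBelow n K := fun _ _ hF => ClosedSub.eq_top_of_id_mem (hF X h _)

lemma GeneratedBelow.mono {n : ℕ} {X : Sm k} {K L : ClosedSub R X} (h : GeneratedBelow n K)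
    (hKL : K ≤ L) : GeneratedBelow n L := fun F hF h' => h F (hKL.trans hF) h'

lemma GeneratedBelow.mono_dim {m n : ℕ} {X : Sm k} {K : ClosedSub R X} (h : GeneratedBelow m K)
    (hmn : m ≤ n) : GeneratedBelow n K := fun F hF h' => h F hF fun Y hY => h' Y (hY.mono hmn)

/-! ### The kernels -/

lemma mem_kerBelow {n : ℕ} {X U : Sm k} {φ : Cor R U.sch X.sch} :
    φ ∈ (kerBelow R n X).carrier U ↔ ∀ Y : Sm k, Y.DimLT n → ∀ γ : Cor R X.sch Y.sch,
      φ.comp γ ∈ (⊥ : ClosedSub R Y).carrier U := by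
  refine ClosedSub.mem_sInf.trans ⟨fun h Y hY γ => ?_, ?_⟩
  · exact h _ ⟨Y, hY, γ, rfl⟩
  · rintro h _ ⟨Y, hY, γ, rfl⟩
    exact h Y hY γ

lemma kerBelow_eq_bot {n : ℕ} {X : Sm k} (h : X.DimLT n) : kerBelow R n X = ⊥ := by
  refine le_bot_iff.1 fun U φ hφ => ?_
  simpa using mem_kerBelow.1 hφ X h (Cor.graph (𝟙 _))

lemma kerBelow_anti {m n : ℕ} (h : m ≤ n) (X : Sm k) : kerBelow R n X ≤ kerBelow R m X :=
  fun _ _ hφ => mem_kerBelow.2 fun Y hY γ => mem_kerBelow.1 hφ Y (hY.mono h) γ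

lemma kerBelow_functorial (n : ℕ) (X Y : Sm k) (γ : Cor R X.sch Y.sch) :
    kerBelow R n X ≤ ClosedSub.comap γ (kerBelow R n Y) := by
  intro U φ hφ
  rw [ClosedSub.mem_comap, mem_kerBelow]
  intro Z hZ δ
  rw [Cor.comp_assoc]
  exact mem_kerBelow.1 hφ Z hZ _

lemma le_of_lt_natCast_succ {d : WithBot ℕ∞} {N : ℕ} (h : d < ((N + 1 : ℕ) : WithBot ℕ∞)) :
    d ≤ (N : WithBot ℕ∞) := by
  induction d with
  | bot => exact bot_le
  | coe d =>
    have h1 : d < ((N + 1 : ℕ) : ℕ∞) := WithBot.coe_lt_coe.1 h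
    have h2 : d ≤ (N : ℕ∞) := Order.le_of_lt_add_one (by exact_mod_cast h1)
    exact WithBot.coe_le_coe.2 h2

/-- Reduction to the top step. -/
theorem generatedBelow_kerBelow
    (h : ∀ (d : ℕ) (X : Sm k), topologicalKrullDim X.sch.left = d →
      GeneratedBelow d (kerBelow R d X)) (N n : ℕ) (X : Sm k) (hX : X.DimLT N) :
    GeneratedBelow n (kerBelow R n X) := by
  induction N generalizing n X with
  | zero => exact .of_dimLT (hX.mono (Nat.zero_le _)) _
  | succ N ih =>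
    by_cases hN : X.DimLT N
    · exact ih n X hN
    have hdim : topologicalKrullDim X.sch.left = N := by
      exact le_antisymm (le_of_lt_natCast_succ hX) (not_lt.1 hN)
    by_cases hn : X.DimLT n
    · exact .of_dimLT hn _
    have hnN : n ≤ N := by
      by_contra hlt
      exact hn (hX.mono (not_le.1 hlt))
    intro F hF hF'
    refine h N X hdim F ((kerBelow_anti hnN X).trans hF) fun Y hY β => ?_
    have h1 : ClosedSub.comap β F = ⊤ :=
      ih n Y hY _ (fun U φ hφ => hF U (kerBelow_functorial n Y X β U hφ)) fun Z hZ φ =>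
        hF' Z hZ _
    have h2 : Cor.graph (𝟙 Y.sch) ∈ (ClosedSub.comap β F).carrier Y := by
      rw [h1]; exact ClosedSub.mem_top
    rw [ClosedSub.mem_comap, Cor.id_comp] at h2
    exact h2

end Pool.Agent.H694_ABV
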