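import Pool.Agent.H694_ABV.Aff

/-!
# Correspondences between affine schemes given by finite algebras
-/

open CategoryTheory AlgebraicGeometry Limits

universe u

namespace Pool.Agent.H694_ABV

variable {k : Type u} [Field k] {R : Type u} [CommRing R]

section

variable {A B P : Type u} [CommRing A] [CommRing B] [CommRing P] [Algebra k A] [Algebra k B]
  [Algebra k P]

/-- The geometric point of a spectrum given by a homomorphism of algebras. -/
noncomputable def Aff.pt (E : AlgClosedExt k) (y : A →ₐ[k] E.Ω) : Pts E (Aff k A) := Aff.map y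

lemma Aff.pt_surjective (E : AlgClosedExt k) (x : Pts E (Aff k A)) :
    ∃ y : A →ₐ[k] E.Ω, Aff.pt E y = x := Aff.exists_map x

lemma Aff.pt_injective (E : AlgClosedExt k) :
    Function.Injective (Aff.pt E : (A →ₐ[k] E.Ω) → _) := Aff.map_injective

lemma Aff.pt_comp (E : AlgClosedExt k) (f : A →ₐ[k] B) (y : B →ₐ[k] E.Ω) :
    Aff.pt E (y.comp f) = Aff.pt E y ≫ Aff.map f := Aff.map_comp f y

/-- A combination of morphisms of spectra given by a finite family of homomorphisms. -/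
noncomputable def Aff.comb (R : Type u) [CommRing R] {ι : Type*} [Fintype ι]
    (σ : ι → (A →ₐ[k] B)) : (Aff k B ⟶ Aff k A) →₀ R :=
  ∑ i, Finsupp.single (Aff.map (σ i)) 1

lemma Aff.mapDomain_comb {ι : Type*} [Fintype ι] (σ : ι → (A →ₐ[k] B)) (E : AlgClosedExt k)
    (y : B →ₐ[k] E.Ω) :
    (Aff.comb R σ).mapDomain (Aff.pt E y ≫ ·) =
      ∑ i, Finsupp.single (Aff.pt E (y.comp (σ i))) (1 : R) := by
  rw [Aff.comb, Finsupp.mapDomain_finsetSum]
  refine Finset.sum_congr rfl fun i _ => ?_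
  rw [Finsupp.mapDomain_single, Aff.pt_comp]

/-- The transfer for a finite surjective morphism of spectra. -/
theorem exists_transfer (q : P →ₐ[k] B) (hq : q.toRingHom.Finite)
    (hq' : Function.Surjective (PrimeSpectrum.comap q.toRingHom)) {ι : Type*} [Fintype ι]
    (σ : ι → (A →ₐ[k] B))
    (hσ : ∀ (E : AlgClosedExt k) (y y' : B →ₐ[k] E.Ω), y.comp q = y'.comp q →
      ∑ i, Finsupp.single (Aff.pt E (y.comp (σ i))) (1 : R) =
        ∑ i, Finsupp.single (Aff.pt E (y'.comp (σ i))) 1) :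
    ∃ τ : Cor R (Aff k P) (Aff k A), ∀ (E : AlgClosedExt k) (y : B →ₐ[k] E.Ω),
      τ.val E (Aff.pt E (y.comp q)) = ∑ i, Finsupp.single (Aff.pt E (y.comp (σ i))) 1 := by
  obtain ⟨τ, hτ⟩ := exists_cor (R := R) (X := Aff k P) (Y := Aff k A) (I := PUnit)
    (fun _ => Aff k B) (fun _ => Aff.map q) (fun _ => Aff.isFinite_map q hq)
    (fun x => by
      obtain ⟨v, hv⟩ := hq' x
      exact ⟨⟨⟩, v, hv⟩) (fun _ => Aff.comb R σ) (by
      rintro E - - v v' hv
      obtain ⟨y, rfl⟩ := Aff.pt_surjective E v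
      obtain ⟨y', rfl⟩ := Aff.pt_surjective E v'
      rw [← Aff.pt_comp, ← Aff.pt_comp] at hv
      rw [Aff.mapDomain_comb, Aff.mapDomain_comb]
      exact hσ E y y' (Aff.pt_injective E hv))
  refine ⟨τ, fun E y => ?_⟩
  rw [Aff.pt_comp, hτ E ⟨⟩, Aff.mapDomain_comb]

end

/-- A correspondence which is, on a finite cover, a combination of morphisms to `W`, comes from a
correspondence to `W`, if `W ⟶ X` is a monomorphism. -/
theorem exists_factor {V X W : KSch k} (ι : W ⟶ X) [Mono ι] (γ : Cor R V X) {I : Type u}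
    (V' : I → KSch k) (q : ∀ i, V' i ⟶ V) (hq : ∀ i, IsFinite (q i).left)
    (hsurj : ∀ x : V.left, ∃ (i : I) (v : (V' i).left), (q i).left v = x)
    (b : ∀ i, (V' i ⟶ W) →₀ R)
    (hb : ∀ (E : AlgClosedExt k) (i : I) (v : Pts E (V' i)),
      γ.val E (v ≫ q i) = (b i).mapDomain (v ≫ · ≫ ι)) :
    ∃ γ' : Cor R V W, γ'.comp (Cor.graph ι) = γ := by
  have key : ∀ (E : AlgClosedExt k) (i : I) (v : Pts E (V' i)),
      ((b i).mapDomain (v ≫ ·)).mapDomain (· ≫ ι) = γ.val E (v ≫ q i) := by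
    intro E i v
    rw [hb, ← Finsupp.mapDomain_comp]
    congr 1
  obtain ⟨γ', hγ'⟩ := exists_cor (R := R) V' q hq hsurj b (by
    intro E i i' v v' hv
    refine Finsupp.mapDomain_injective (f := (· ≫ ι)) (fun a a' h => (cancel_mono ι).1 h) ?_
    rw [key, key, hv])
  refine ⟨γ', Cor.ext fun E x => ?_⟩
  obtain ⟨i, v, hv⟩ := hsurj (x.left E.pnt)
  have := hq i
  obtain ⟨w, rfl⟩ := exists_lift_pt (q i) E x ⟨v, hv⟩
  rw [Cor.comp_graph_val, hγ', key]

end Pool.Agent.H694_ABV
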