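import Pool.Agent.H694_ABV.Generic

/-!
# Generic transfers for étale coverings: the general case
-/

open CategoryTheory AlgebraicGeometry Limits

universe u

namespace Pool.Agent.H694_ABV

variable {k : Type u} [Field k] {R : Type u} [CommRing R]

lemma exists_good_opens [Algebra ℚ R] {U : Sm k} {I : Type u} {V : I → Sm k}
    {f : ∀ i, (V i).sch ⟶ U.sch} (hf : IsEtaleCovering V f) (T : U.sch.left.Opens)
    (x : U.sch.left) (hx : x ∈ T) : ∃ W : U.sch.left.Opens, W ≤ T ∧ (∃ w, w ∈ W) ∧
      Cor.graph (R := R) (opensι U.sch W) ∈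
        throughK (T := fun i => (V i).sch) f (opens U.sch W) := by
  obtain ⟨A, _, _, _, _, g₁, hg₁, y, hy⟩ := exists_chart (U.opens T) ⟨x, hx⟩
  let g : Aff k A ⟶ opens U.sch T := g₁
  have hg : IsOpenImmersion g.left := hg₁
  let g' : Aff k A ⟶ U.sch := g ≫ opensι U.sch T
  have hg'l : g'.left = g.left ≫ (opensι U.sch T).left := rfl
  have hg' : IsOpenImmersion g'.left := by
    rw [hg'l]
    infer_instance
  have hg'y : g'.left (show (Aff k A).left from y) = x := by
    exact congrArg (opensι U.sch T).left hy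
  obtain ⟨i, v, hv⟩ := hf.surjective x
  obtain ⟨z, hz, -⟩ := exists_pbk g' (f i) (show (Aff k A).left from y) v (hg'y.trans hv.symm)
  obtain ⟨D, _, _, c, hco, z', hz'⟩ := exists_affine_chart (pbk g' (f i)) z
  have het : Etale (pbkFst g' (f i)).left := by
    have := hf.etale i
    exact (inferInstance : Etale (pullback.fst g'.left (f i).left))
  have het' : Etale (c ≫ pbkFst g' (f i)).left := by
    rw [Over.comp_left]
    infer_instance
  obtain ⟨ψ, hψ⟩ := Aff.exists_map (c ≫ pbkFst g' (f i))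
  rw [← hψ] at het'
  have hψe : ψ.toRingHom.Etale := (HasRingHomProperty.Spec_iff (P := @Etale)).1 het'
  have : Nontrivial D := PrimeSpectrum.nontrivial z'
  obtain ⟨g₀, hg₀, τ, hτ⟩ := exists_affine_transfer (R := R) ψ hψe
  let h : Aff k (Localization.Away g₀) ⟶ U.sch :=
    Aff.map (IsScalarTower.toAlgHom k A (Localization.Away g₀)) ≫ g'
  have ho : IsOpenImmersion (Aff.map (IsScalarTower.toAlgHom k A (Localization.Away g₀))).left :=
    inferInstanceAs (IsOpenImmersion (Spec.map (CommRingCat.ofHom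
      (algebraMap A (Localization.Away g₀)))))
  have hh : IsOpenImmersion h.left := by
    have : h.left = (Aff.map (IsScalarTower.toAlgHom k A (Localization.Away g₀))).left ≫ g'.left :=
      rfl
    rw [this]
    infer_instance
  have hgraph : Cor.graph (R := R) h ∈
      throughK (T := fun i => (V i).sch) f (Aff k (Localization.Away g₀)) := by
    have h1 : Cor.graph (R := R) h = (τ.comp (Cor.graph (c ≫ pbkSnd g' (f i)))).comp
        (Cor.graph (f i)) := by
      have h2 := congrArg (fun t => Cor.comp t (Cor.graph g')) hτ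
      simp only [Cor.comp_assoc, Cor.graph_comp_graph] at h2
      rw [Cor.comp_assoc, Cor.graph_comp_graph, Category.assoc, ← pbk_condition,
        ← Category.assoc, ← hψ, h2]
    rw [h1]
    exact comp_graph_mem_throughK (l := f) i _
  refine ⟨h.left.opensRange, ?_, ?_, ?_⟩
  · rintro _ ⟨w, rfl⟩
    exact (g.left ((Aff.map (IsScalarTower.toAlgHom k A (Localization.Away g₀))).left w)).2
  · have : Nontrivial (Localization.Away g₀) := (IsLocalization.injective (Localization.Away g₀)
      (powers_le_nonZeroDivisors_of_noZeroDivisors hg₀)).nontrivial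
    obtain ⟨w⟩ : Nonempty (PrimeSpectrum (Localization.Away g₀)) := inferInstance
    exact ⟨h.left w, w, rfl⟩
  · obtain ⟨l, hl⟩ := exists_openLift (opensι U.sch h.left.opensRange) h fun w => w.2
    rw [← hl, ← Cor.graph_comp_graph]
    exact comp_mem_throughK _ hgraph

lemma good_sup {U : KSch k} {I : Type u} {V : I → KSch k} {f : ∀ i, V i ⟶ U}
    {W₁ W₂ : U.left.Opens} (hd : Disjoint W₁ W₂)
    (h₁ : Cor.graph (R := R) (opensι U W₁) ∈ throughK f (opens U W₁))
    (h₂ : Cor.graph (R := R) (opensι U W₂) ∈ throughK f (opens U W₂)) :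
    Cor.graph (R := R) (opensι U (W₁ ⊔ W₂)) ∈ throughK f (opens U (W₁ ⊔ W₂)) := by
  let W : ULift.{u} Bool → U.left.Opens := fun b => cond b.down W₁ W₂
  have hW : ∀ b, W b ≤ W₁ ⊔ W₂ := by
    rintro ⟨_ | _⟩
    · exact le_sup_right
    · exact le_sup_left
  have hW' : ∀ b b', (∃ x, x ∈ W b ∧ x ∈ W b') → b = b' := by
    have hd' : ∀ x, x ∈ W₁ → x ∈ W₂ → False := fun x hx hx' =>
      (hd.le_bot ⟨hx, hx'⟩ : x ∈ (⊥ : U.left.Opens))
    rintro ⟨_ | _⟩ ⟨_ | _⟩ ⟨x, hx, hx'⟩
    · rfl
    · exact (hd' x hx' hx).elim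
    · exact (hd' x hx hx').elim
    · rfl
  have hgood : ∀ b, Cor.graph (R := R) (opensι U (W b)) ∈ throughK f (opens U (W b)) := by
    rintro ⟨_ | _⟩
    · exact h₂
    · exact h₁
  choose l hl using fun b => exists_openLift (opensι U (W b)) (opensι U (W₁ ⊔ W₂)) fun w =>
    ⟨⟨w.1, hW b w.2⟩, rfl⟩
  have hlo : ∀ b, IsOpenImmersion (l b).left := by
    intro b
    have h1 : (l b).left ≫ (opensι U (W₁ ⊔ W₂)).left = (opensι U (W b)).left :=
      congrArg (fun t => t.left) (hl b)
    have h2 : IsOpenImmersion ((l b).left ≫ (opensι U (W₁ ⊔ W₂)).left) := by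
      rw [h1]
      infer_instance
    exact IsOpenImmersion.of_comp _ (opensι U (W₁ ⊔ W₂)).left
  have hval : ∀ b (w : (opens U (W b)).left), (opensι U (W₁ ⊔ W₂)).left ((l b).left w) =
      (opensι U (W b)).left w := fun b w => congrArg (fun t => t.left w) (hl b)
  refine mem_throughK_of_id_mem (l := l) (id_mem_throughK l hlo (fun b b' w w' h => ?_)
    fun s => ?_) _ fun b => ?_
  · refine hW' b b' ⟨(opensι U (W b)).left w, w.2, ?_⟩
    rw [← hval, h, hval]
    exact w'.2
  · rcases s.2 with hs | hs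
    · refine ⟨⟨true⟩, ⟨s.1, hs⟩, ?_⟩
      exact (opensι U (W₁ ⊔ W₂)).left.isOpenEmbedding.injective (hval _ _)
    · refine ⟨⟨false⟩, ⟨s.1, hs⟩, ?_⟩
      exact (opensι U (W₁ ⊔ W₂)).left.isOpenEmbedding.injective (hval _ _)
  · rw [Cor.graph_comp_graph, hl]
    exact hgood b

lemma good_bot {U : KSch k} {I : Type u} {V : I → KSch k} {f : ∀ i, V i ⟶ U} :
    Cor.graph (R := R) (opensι U ⊥) ∈ throughK f (opens U ⊥) := by
  have h : Cor.graph (R := R) (opensι U ⊥) = 0 := by
    refine Cor.ext fun E x => ?_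
    exact (x.left E.pnt).2.elim
  rw [h]
  exact Submodule.zero_mem _

/-- **Generic transfers.** If `R` is a `ℚ`-algebra, then the inclusion of a dense open subscheme
factors, as a correspondence, through every étale covering. -/
theorem etaleTransfer [Algebra ℚ R] : EtaleTransfer k R := by
  intro U I V f hf
  have hN := U.isNoetherian
  have hwf : WellFounded ((· > ·) : U.sch.left.Opens → U.sch.left.Opens → Prop) :=
    (inferInstance : WellFoundedGT U.sch.left.Opens).wf
  obtain ⟨W, hW, hmax⟩ := hwf.has_min {W | Cor.graph (R := R) (opensι U.sch W) ∈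
    throughK (T := fun i => (V i).sch) f (opens U.sch W)} ⟨⊥, good_bot⟩
  refine ⟨U.opens W, opensι U.sch W, inferInstanceAs (IsOpenImmersion W.ι), ?_, hW⟩
  intro x
  by_contra hx
  have hrange : Set.range (opensι U.sch W).left = (W : Set U.sch.left) := by
    ext y
    constructor
    · rintro ⟨w, rfl⟩
      exact w.2
    · intro hy
      exact ⟨⟨y, hy⟩, rfl⟩
  let T : U.sch.left.Opens :=
    ⟨(closure (Set.range (opensι U.sch W).left))ᶜ, isClosed_closure.isOpen_compl⟩
  obtain ⟨W', hW'T, ⟨w, hw⟩, hW'⟩ := exists_good_opens (R := R) hf T x hx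
  have hnot : ∀ y, y ∈ W → y ∈ W' → False := fun y hy hy' =>
    hW'T hy' (subset_closure (by rw [hrange]; exact hy))
  have hd : Disjoint W W' := by
    rw [disjoint_iff]
    ext y
    constructor
    · rintro ⟨hy, hy'⟩
      exact (hnot y hy hy').elim
    · intro hy
      exact hy.elim
  refine hmax (W ⊔ W') (good_sup hd hW hW') ?_
  refine lt_of_le_of_ne le_sup_left fun h => ?_
  have h1 : w ∈ W := by
    rw [h]
    exact Or.inr hw
  exact hnot w h1 hw

end Pool.Agent.H694_ABV
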